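import Pool.Agent.helper765_bt.Construct

/-!
The cyclic flats of a principal matroid and the maximal independent sets of a bipartite graph.
-/

open Set

set_option linter.unusedSectionVars false

namespace Pool.Agent.H765

variable {α : Type*}

/-- a maximal independent set of vertices of `G` within `E` -/
def MaxIndep (E : Set α) (G : SimpleGraph α) (S : Set α) : Prop :=
  Maximal (fun T : Set α => T ⊆ E ∧ G.IsIndepSet T) S

theorem maxIndep_iff {E : Set α} {G : SimpleGraph α} {S : Set α} :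
    MaxIndep E G S ↔ S ⊆ E ∧ ∀ e ∈ E, (e ∈ S ↔ ∀ f ∈ S, ¬ G.Adj e f) := by
  constructor
  · rintro ⟨⟨h1, h2⟩, h3⟩
    refine ⟨h1, fun e he => ⟨fun heS f hf hadj => h2 heS hf hadj.ne hadj, fun h => ?_⟩⟩
    have h4 : insert e S ⊆ S := by
      apply h3 _ (Set.subset_insert _ _)
      refine ⟨Set.insert_subset he h1, ?_⟩
      intro x hx y hy hne hadj
      rcases hx with rfl | hx
      · rcases hy with rfl | hy
        · exact hne rfl
        · exact h y hy hadj
      · rcases hy with rfl | hy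
        · exact h x hx hadj.symm
        · exact h2 hx hy hne hadj
    exact h4 (Set.mem_insert _ _)
  · rintro ⟨h1, h2⟩
    refine ⟨⟨h1, fun e he f hf _ hadj => (h2 e (h1 he)).1 he f hf hadj⟩, ?_⟩
    rintro T ⟨hT, hTi⟩ hST e he
    exact (h2 e (hT he)).2 (fun f hf hadj => hTi he (hST hf) hadj.ne hadj)

/-- `P` is the principal matroid of the bipartite graph `G` with sides `B` and `E \ B` -/
structure OfGraph (P : Matroid α) (E B : Set α) (G : SimpleGraph α) : Prop where
  ground : P.E = E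
  sub : B ⊆ E
  bip : G.IsBipartiteWith B (E \ B)
  key : ∀ F, CycFlat P F ↔ MaxIndep E G (symmDiff B F)
  rk : ∀ F, CycFlat P F → P.eRk F = (B \ symmDiff B F).encard

theorem mem_symmDiff_iff {B S : Set α} {e : α} :
    e ∈ symmDiff B S ↔ (e ∈ B ∧ e ∉ S) ∨ (e ∈ S ∧ e ∉ B) := Set.mem_symmDiff

theorem maxIndep_le {E B : Set α} {G : SimpleGraph α} (hG : G.IsBipartiteWith B (E \ B))
    {S T : Set α} (hS : MaxIndep E G S) (hT : MaxIndep E G T) :
    symmDiff B S ⊆ symmDiff B T ↔ S \ B ⊆ T \ B := by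
  rw [maxIndep_iff] at hS hT
  constructor
  · rintro h e ⟨he, heB⟩
    have h1 := h (mem_symmDiff_iff.2 (Or.inr ⟨he, heB⟩))
    rw [mem_symmDiff_iff] at h1
    rcases h1 with h1 | h1
    · exact absurd h1.1 heB
    · exact h1
  · intro h e he
    rw [mem_symmDiff_iff] at he ⊢
    rcases he with ⟨heB, heS⟩ | ⟨heS, heB⟩
    · left
      refine ⟨heB, fun heT => ?_⟩
      by_cases heE : e ∈ E
      · have h1 : ¬ ∀ f ∈ S, ¬ G.Adj e f := fun h' => heS ((hS.2 e heE).2 h')
        push Not at h1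
        obtain ⟨f, hf, hadj⟩ := h1
        have h2 := hG.mem_of_mem_adj heB hadj
        exact (hT.2 e heE).1 heT f (h ⟨hf, h2.2⟩).1 hadj
      · exact heE (hT.1 heT)
    · right
      exact h ⟨heS, heB⟩

/-- the matroid of a star system is the matroid of the graph -/
theorem star_graph [DecidableEq α] {P : Matroid α} {r s : ℕ} {R : Fin r → Fin s → Prop}
    {b : Fin r → α} {c : Fin s → α} {N : α → Finset (Fin r)} {K : α → Finset (Fin s)}
    {E : Finset α} (hs : Star R b c N K E) (hP : Sys P N K E) {G : SimpleGraph α}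
    (hG : G.IsBipartiteWith (Set.range b) ((E : Set α) \ Set.range b))
    (hR : ∀ i j, R i j ↔ G.Adj (b i) (c j)) : OfGraph P E (Set.range b) G := by
  classical
  have hbE : ∀ i, b i ∈ E := fun i => (hs.mem _).2 (Or.inl ⟨i, rfl⟩)
  have hcE : ∀ j, c j ∈ E := fun j => (hs.mem _).2 (Or.inr ⟨j, rfl⟩)
  have hbB : ∀ i, b i ∈ Set.range b := fun i => ⟨i, rfl⟩
  have hcB : ∀ j, c j ∉ Set.range b := by
    rintro j ⟨i, hi⟩
    exact hs.ne i j hi
  have hbb : ∀ i i', ¬ G.Adj (b i) (b i') := by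
    intro i i' h
    exact (hG.mem_of_mem_adj (hbB i) h).2 (hbB i')
  have hcc : ∀ j j', ¬ G.Adj (c j) (c j') := by
    intro j j' h
    have h1 := hG.symm.mem_of_mem_adj (v := c j) ⟨by exact_mod_cast hcE j, hcB j⟩ h
    exact hcB j' h1
  -- the set of a closed set of indices
  set T : Finset (Fin r) → Set α := fun X => {e | (∃ i ∈ X, e = b i) ∨ ∃ j ∈ pol R X, e = c j}
    with hT
  have hTb : ∀ X i, b i ∈ T X ↔ i ∈ X := by
    intro X i
    constructor
    · rintro (⟨i', hi', h⟩ | ⟨j, _, h⟩)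
      · rw [hs.b_inj h]; exact hi'
      · exact absurd h (hs.ne i j)
    · intro h
      exact Or.inl ⟨i, h, rfl⟩
  have hTc : ∀ X j, c j ∈ T X ↔ j ∈ pol R X := by
    intro X j
    constructor
    · rintro (⟨i', _, h⟩ | ⟨j', hj', h⟩)
      · exact absurd h.symm (hs.ne i' j)
      · rw [hs.c_inj h]; exact hj'
    · intro h
      exact Or.inr ⟨j, h, rfl⟩
  have hTmax : ∀ X, Cl R X → MaxIndep (E : Set α) G (T X) := by
    intro X hX
    rw [maxIndep_iff]
    constructor
    · rintro e (⟨i, _, rfl⟩ | ⟨j, _, rfl⟩)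
      · exact_mod_cast hbE i
      · exact_mod_cast hcE j
    · intro e he
      have he' : e ∈ E := by exact_mod_cast he
      rcases (hs.mem e).1 he' with ⟨i, rfl⟩ | ⟨j, rfl⟩
      · rw [hTb, hX.mem_iff]
        constructor
        · rintro h f (⟨i', _, rfl⟩ | ⟨j, hj, rfl⟩)
          · exact hbb i i'
          · rw [← hR]; exact h j hj
        · intro h j hj
          rw [hR]
          exact h (c j) ((hTc X j).2 hj)
      · rw [hTc, mem_pol]
        constructor
        · rintro h f (⟨i, hi, rfl⟩ | ⟨j', _, rfl⟩)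
          · intro hadj
            exact h i hi ((hR i j).2 hadj.symm)
          · exact hcc j j'
        · intro h i hi hij
          exact h (b i) ((hTb X i).2 hi) ((hR i j).1 hij).symm
  have hmaxT : ∀ S, MaxIndep (E : Set α) G S → ∃ X, Cl R X ∧ T X = S := by
    intro S hS
    rw [maxIndep_iff] at hS
    set X : Finset (Fin r) := Finset.univ.filter (fun i => b i ∈ S) with hX
    have hmX : ∀ i, i ∈ X ↔ b i ∈ S := by
      intro i
      rw [hX, Finset.mem_filter]
      exact ⟨fun h => h.2, fun h => ⟨Finset.mem_univ _, h⟩⟩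
    have hcS : ∀ j, c j ∈ S ↔ j ∈ pol R X := by
      intro j
      rw [hS.2 (c j) (by exact_mod_cast hcE j), mem_pol]
      constructor
      · intro h i hi hij
        exact h (b i) ((hmX i).1 hi) ((hR i j).1 hij).symm
      · intro h f hf hadj
        have hfE : f ∈ E := by exact_mod_cast hS.1 hf
        rcases (hs.mem f).1 hfE with ⟨i, rfl⟩ | ⟨j', rfl⟩
        · exact h i ((hmX i).2 hf) ((hR i j).2 hadj.symm)
        · exact hcc j j' hadj
    refine ⟨X, ?_, ?_⟩
    · intro i hi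
      rw [hmX, hS.2 (b i) (by exact_mod_cast hbE i)]
      intro f hf hadj
      have hfE : f ∈ E := by exact_mod_cast hS.1 hf
      rcases (hs.mem f).1 hfE with ⟨i', rfl⟩ | ⟨j, rfl⟩
      · exact hbb i i' hadj
      · obtain ⟨i', hi', hij'⟩ := hi j ((hR i j).2 hadj)
        exact mem_pol.1 ((hcS j).1 hf) i' hi' hij'
    · ext e
      constructor
      · rintro (⟨i, hi, rfl⟩ | ⟨j, hj, rfl⟩)
        · exact (hmX i).1 hi
        · exact (hcS j).2 hj
      · intro he
        have heE : e ∈ E := by exact_mod_cast hS.1 he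
        rcases (hs.mem e).1 heE with ⟨i, rfl⟩ | ⟨j, rfl⟩
        · exact Or.inl ⟨i, (hmX i).2 he, rfl⟩
        · exact Or.inr ⟨j, (hcS j).1 he, rfl⟩
  have hcov : ∀ X, symmDiff (Set.range b) (T X) = ((E \ cov N E X : Finset α) : Set α) := by
    intro X
    ext e
    rw [mem_symmDiff_iff, Finset.mem_coe, Finset.mem_sdiff]
    constructor
    · rintro (⟨⟨i, rfl⟩, h⟩ | ⟨h, h'⟩)
      · refine ⟨hbE i, fun h1 => h ?_⟩
        rw [mem_cov] at h1
        obtain ⟨_, i', h2, h3⟩ := h1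
        rw [hs.memN] at h2
        rcases h2 with h2 | ⟨j, h2, _⟩
        · rw [h2]; exact (hTb X i').2 h3
        · exact absurd h2 (hs.ne i j)
      · rcases h with ⟨i, _, rfl⟩ | ⟨j, hj, rfl⟩
        · exact absurd (hbB i) h'
        · refine ⟨hcE j, fun h1 => ?_⟩
          rw [mem_cov] at h1
          obtain ⟨_, i', h2, h3⟩ := h1
          rw [hs.memN] at h2
          rcases h2 with h2 | ⟨j', h2, h4⟩
          · exact absurd h2.symm (hs.ne i' j)
          · rw [← hs.c_inj h2] at h4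
            exact mem_pol.1 hj i' h3 h4
    · rintro ⟨heE, h⟩
      rw [mem_cov] at h
      rcases (hs.mem e).1 heE with ⟨i, rfl⟩ | ⟨j, rfl⟩
      · refine Or.inl ⟨hbB i, fun h1 => h ⟨heE, i, (hs.memN _ _).2 (Or.inl rfl), ?_⟩⟩
        exact (hTb X i).1 h1
      · refine Or.inr ⟨(hTc X j).2 (mem_pol.2 (fun i hi hij => h ?_)), hcB j⟩
        exact ⟨heE, i, (hs.memN _ _).2 (Or.inr ⟨j, rfl, hij⟩), hi⟩
  have hadj := hs.adj
  have hflat : ∀ F, CycFlat P F ↔ ∃ X, Cl R X ∧ symmDiff (Set.range b) (T X) = F := by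
    intro F
    constructor
    · intro hF
      obtain ⟨X, hX, hXF⟩ := hP.exists_closed hF
      rw [hadj] at hX
      exact ⟨X, hX, by rw [hcov, hXF]⟩
    · rintro ⟨X, hX, rfl⟩
      rw [hcov]
      exact hP.cycFlat (by rw [hadj]; exact hX)
  refine ⟨hP.ground.symm, ?_, hG, ?_, ?_⟩
  · rintro _ ⟨i, rfl⟩
    exact_mod_cast hbE i
  · intro F
    rw [hflat]
    constructor
    · rintro ⟨X, hX, rfl⟩
      rw [symmDiff_symmDiff_cancel_left]
      exact hTmax X hX
    · intro hF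
      obtain ⟨X, hX, hXF⟩ := hmaxT _ hF
      exact ⟨X, hX, by rw [hXF, symmDiff_symmDiff_cancel_left]⟩
  · intro F hF
    obtain ⟨X, hX, rfl⟩ := (hflat F).1 hF
    rw [symmDiff_symmDiff_cancel_left, hcov, hP.eRk_eq (by rw [hadj]; exact hX)]
    have h1 : Set.range b \ T X = ((Xᶜ.map ⟨b, hs.b_inj⟩ : Finset α) : Set α) := by
      ext e
      rw [Finset.mem_coe, Finset.mem_map]
      constructor
      · rintro ⟨⟨i, rfl⟩, h⟩
        rw [hTb] at h
        exact ⟨i, Finset.mem_compl.2 h, rfl⟩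
      · rintro ⟨i, hi, rfl⟩
        refine ⟨hbB i, ?_⟩
        show b i ∉ T X
        rw [hTb]
        exact Finset.mem_compl.1 hi
    rw [h1, Set.encard_coe_eq_coe_finsetCard, Finset.card_map, Finset.card_compl]

/-- the data from which the matroids are constructed -/
def Datum (E B : Set α) (G : SimpleGraph α) (φ : {S : Set α // MaxIndep E G S} → Set α) : Prop :=
  B ⊆ E ∧ G.IsBipartiteWith B (E \ B) ∧
    (∀ S, φ S ⊆ E ∧ (φ S).ncard = (symmDiff B S.1).ncard) ∧
    (∀ S T, φ S ⊆ φ T ↔ S.1 \ B ⊆ T.1 \ B) ∧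
    ∀ 𝓢 : Set {S : Set α // MaxIndep E G S}, 𝓢.Nonempty →
      (⋂ S ∈ 𝓢, φ S).ncard ≤ (⋂ S ∈ 𝓢, symmDiff B S.1).ncard ∧
      (⋃ S ∈ 𝓢, symmDiff B S.1).ncard ≤ (⋃ S ∈ 𝓢, φ S).ncard

/-- the cyclic flats of `M` are the sets `φ S`, of the rank of `B \ S` -/
def HasFlats (M : Matroid α) (E B : Set α) (G : SimpleGraph α)
    (φ : {S : Set α // MaxIndep E G S} → Set α) : Prop :=
  M.E = E ∧ (∀ F, CycFlat M F ↔ ∃ S, φ S = F) ∧ ∀ S, M.eRk (φ S) = (B \ S.1).encard

/-- the cyclic flats and the maximal independent sets -/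
def OfGraph.equiv {P : Matroid α} {E B : Set α} {G : SimpleGraph α} (h : OfGraph P E B G) :
    {F : Set α // CycFlat P F} ≃ {S : Set α // MaxIndep E G S} where
  toFun F := ⟨symmDiff B F.1, (h.key F.1).1 F.2⟩
  invFun S := ⟨symmDiff B S.1, (h.key _).2 (by rw [symmDiff_symmDiff_cancel_left]; exact S.2)⟩
  left_inv F := Subtype.ext (symmDiff_symmDiff_cancel_left _ _)
  right_inv S := Subtype.ext (symmDiff_symmDiff_cancel_left _ _)

theorem OfGraph.equiv_coe {P : Matroid α} {E B : Set α} {G : SimpleGraph α}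
    (h : OfGraph P E B G) (F : {F : Set α // CycFlat P F}) :
    (h.equiv F).1 = symmDiff B F.1 := rfl

theorem OfGraph.equiv_symm_coe {P : Matroid α} {E B : Set α} {G : SimpleGraph α}
    (h : OfGraph P E B G) (S : {S : Set α // MaxIndep E G S}) :
    (h.equiv.symm S).1 = symmDiff B S.1 := rfl

theorem OfGraph.le_iff {P : Matroid α} {E B : Set α} {G : SimpleGraph α}
    (h : OfGraph P E B G) (S T : {S : Set α // MaxIndep E G S}) :
    (h.equiv.symm S).1 ⊆ (h.equiv.symm T).1 ↔ S.1 \ B ⊆ T.1 \ B :=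
  maxIndep_le h.bip S.2 T.2

theorem OfGraph.deform {P : Matroid α} {E B : Set α} {G : SimpleGraph α}
    (h : OfGraph P E B G) {φ : {S : Set α // MaxIndep E G S} → Set α} (hφ : Datum E B G φ) :
    Deform P (fun F => φ (h.equiv F)) := by
  obtain ⟨_, _, h1, h2, h3⟩ := hφ
  refine ⟨?_, ?_, ?_⟩
  · intro F
    refine ⟨by rw [h.ground]; exact (h1 _).1, ?_⟩
    rw [(h1 _).2, h.equiv_coe, symmDiff_symmDiff_cancel_left]
  · intro F F'
    rw [h2, ← h.le_iff, Equiv.symm_apply_apply, Equiv.symm_apply_apply]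
  · intro 𝓕 h𝓕
    have h4 := h3 (h.equiv '' 𝓕) (h𝓕.image _)
    rw [Set.biInter_image, Set.biInter_image, Set.biUnion_image, Set.biUnion_image] at h4
    simp only [h.equiv_coe, symmDiff_symmDiff_cancel_left] at h4
    exact h4

theorem OfGraph.datum {P : Matroid α} {E B : Set α} {G : SimpleGraph α}
    (h : OfGraph P E B G) {ψ : {F : Set α // CycFlat P F} → Set α} (hψ : Deform P ψ) :
    Datum E B G (fun S => ψ (h.equiv.symm S)) := by
  obtain ⟨h1, h2, h3⟩ := hψ
  refine ⟨h.sub, h.bip, ?_, ?_, ?_⟩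
  · intro S
    refine ⟨(h1 (h.equiv.symm S)).1.trans h.ground.subset, ?_⟩
    rw [(h1 _).2, h.equiv_symm_coe]
  · intro S T
    rw [h2, h.le_iff]
  · intro 𝓢 h𝓢
    have h4 := h3 (h.equiv.symm '' 𝓢) (h𝓢.image _)
    rw [Set.biInter_image, Set.biInter_image, Set.biUnion_image, Set.biUnion_image] at h4
    simp only [h.equiv_symm_coe] at h4
    exact h4

theorem OfGraph.hasFlats_iff {M P : Matroid α} {E B : Set α} {G : SimpleGraph α}
    (h : OfGraph P E B G) {φ : {S : Set α // MaxIndep E G S} → Set α} :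
    HasFlats M E B G φ ↔ Realizes M P (fun F => φ (h.equiv F)) := by
  constructor
  · rintro ⟨h1, h2, h3⟩
    refine ⟨h1.trans h.ground.symm, ?_, ?_⟩
    · intro F
      rw [h2]
      constructor
      · rintro ⟨S, rfl⟩
        refine ⟨h.equiv.symm S, ?_⟩
        show φ (h.equiv (h.equiv.symm S)) = φ S
        rw [Equiv.apply_symm_apply]
      · rintro ⟨F', rfl⟩
        exact ⟨_, rfl⟩
    · intro F
      rw [h.rk F.1 F.2]
      exact h3 (h.equiv F)
  · rintro ⟨h1, h2, h3⟩
    refine ⟨h1.trans h.ground, ?_, ?_⟩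
    · intro F
      rw [h2]
      constructor
      · rintro ⟨F', rfl⟩
        exact ⟨_, rfl⟩
      · rintro ⟨S, rfl⟩
        refine ⟨h.equiv.symm S, ?_⟩
        show φ (h.equiv (h.equiv.symm S)) = φ S
        rw [Equiv.apply_symm_apply]
    · intro S
      have h4 : M.eRk (φ (h.equiv (h.equiv.symm S))) = P.eRk (h.equiv.symm S).1 :=
        h3 (h.equiv.symm S)
      rw [h.rk _ (h.equiv.symm S).2, ← h.equiv_coe, Equiv.apply_symm_apply] at h4
      exact h4

/-- the star system of a bipartite graph -/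
theorem exists_star_graph [DecidableEq α] {E : Finset α} {B : Set α} {G : SimpleGraph α}
    (hB : B ⊆ (E : Set α)) (hG : G.IsBipartiteWith B ((E : Set α) \ B)) :
    ∃ (P : Matroid α) (r s : ℕ) (R : Fin r → Fin s → Prop) (b : Fin r → α) (c : Fin s → α)
      (N : α → Finset (Fin r)) (K : α → Finset (Fin s)),
      Star R b c N K E ∧ P.E = (E : Set α) ∧ Pres P N ∧ OfGraph P E B G := by
  classical
  have hBf : B.Finite := E.finite_toSet.subset hB
  obtain ⟨B, rfl⟩ : ∃ B' : Finset α, (B' : Set α) = B := ⟨hBf.toFinset, hBf.coe_toFinset⟩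
  set W : Finset α := E \ B with hW
  let ε₁ : B ≃ Fin B.card := Finset.equivFinOfCardEq rfl
  let ε₂ : W ≃ Fin W.card := Finset.equivFinOfCardEq rfl
  have hb : Function.Injective (fun i : Fin B.card => ((ε₁.symm i).1 : α)) := by
    intro i i' h
    exact ε₁.symm.injective (Subtype.ext h)
  have hc : Function.Injective (fun j : Fin W.card => ((ε₂.symm j).1 : α)) := by
    intro j j' h
    exact ε₂.symm.injective (Subtype.ext h)
  have hbc : ∀ (i : Fin B.card) (j : Fin W.card), ((ε₁.symm i).1 : α) ≠ ((ε₂.symm j).1 : α) := by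
    intro i j h
    have h1 : ((ε₂.symm j).1 : α) ∉ B := (Finset.mem_sdiff.1 (ε₂.symm j).2).2
    rw [← h] at h1
    exact h1 (ε₁.symm i).2
  have hmem : ∀ e, e ∈ E ↔ (∃ i : Fin B.card, e = ((ε₁.symm i).1 : α)) ∨
      ∃ j : Fin W.card, e = ((ε₂.symm j).1 : α) := by
    intro e
    constructor
    · intro he
      by_cases h1 : e ∈ B
      · obtain ⟨i, hi⟩ := ε₁.symm.surjective ⟨e, h1⟩
        exact Or.inl ⟨i, by rw [hi]⟩
      · obtain ⟨j, hj⟩ := ε₂.symm.surjective ⟨e, Finset.mem_sdiff.2 ⟨he, h1⟩⟩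
        exact Or.inr ⟨j, by rw [hj]⟩
    · rintro (⟨i, rfl⟩ | ⟨j, rfl⟩)
      · exact_mod_cast hB (ε₁.symm i).2
      · exact (Finset.mem_sdiff.1 (ε₂.symm j).2).1
  obtain ⟨N, K, hstar⟩ := exists_star
    (fun (i : Fin B.card) (j : Fin W.card) => G.Adj (ε₁.symm i).1 (ε₂.symm j).1) hb hc hbc hmem
  obtain ⟨P, hPE, hP⟩ := exists_pres N E (by
    rintro e ⟨i, hi⟩
    rw [hstar.memN] at hi
    rw [hmem]
    rcases hi with h | ⟨j, h, _⟩
    · exact Or.inl ⟨i, h⟩
    · exact Or.inr ⟨j, h⟩)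
  have hrange : Set.range (fun i : Fin B.card => ((ε₁.symm i).1 : α)) = (B : Set α) := by
    ext e
    constructor
    · rintro ⟨i, rfl⟩
      exact (ε₁.symm i).2
    · intro he
      obtain ⟨i, hi⟩ := ε₁.symm.surjective ⟨e, he⟩
      exact ⟨i, by show (ε₁.symm i).1 = e; rw [hi]⟩
  have h1 := star_graph hstar (hstar.sys hPE hP) (G := G) (by rw [hrange]; exact hG)
    (fun i j => Iff.rfl)
  rw [hrange] at h1
  exact ⟨P, _, _, _, _, _, _, _, hstar, hPE, hP, h1⟩

/-- the graph of a star system -/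
theorem exists_graph_of_star [DecidableEq α] {P : Matroid α} {r s : ℕ}
    {R : Fin r → Fin s → Prop} {b : Fin r → α} {c : Fin s → α} {N : α → Finset (Fin r)}
    {K : α → Finset (Fin s)} {E : Finset α} (hs : Star R b c N K E) (hP : Sys P N K E) :
    ∃ G : SimpleGraph α, OfGraph P E (Set.range b) G := by
  classical
  refine ⟨SimpleGraph.fromRel (fun x y => ∃ i j, x = b i ∧ y = c j ∧ R i j),
    star_graph hs hP ⟨Set.disjoint_sdiff_right, ?_⟩ ?_⟩
  · intro x y hxy
    rw [SimpleGraph.fromRel_adj] at hxy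
    have key : ∀ x y, (∃ i j, x = b i ∧ y = c j ∧ R i j) →
        x ∈ Set.range b ∧ y ∈ (E : Set α) \ Set.range b := by
      rintro x y ⟨i, j, rfl, rfl, _⟩
      refine ⟨⟨i, rfl⟩, ?_, ?_⟩
      · exact_mod_cast (hs.mem _).2 (Or.inr ⟨j, rfl⟩)
      · rintro ⟨i', hi'⟩
        exact hs.ne i' j hi'
    rcases hxy.2 with h | h
    · exact Or.inl (key x y h)
    · exact Or.inr ⟨(key y x h).2, (key y x h).1⟩
  · intro i j
    rw [SimpleGraph.fromRel_adj]
    constructor
    · intro h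
      exact ⟨hs.ne i j, Or.inl ⟨i, j, rfl, rfl, h⟩⟩
    · rintro ⟨_, ⟨i', j', h1, h2, h3⟩ | ⟨i', j', h1, _, _⟩⟩
      · rw [hs.b_inj h1, hs.c_inj h2]; exact h3
      · exact absurd h1.symm (hs.ne i' j)

end Pool.Agent.H765
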