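import Pool.Agent.helper765_bt.Princ

/-!
Translation to cyclic flats: irreducible cyclic flats and the equality in the Mason-Ingleton formula.
-/

open Finset

set_option linter.unusedSectionVars false

namespace Pool.Agent.H765

universe u v

section

variable {α : Type v} [DecidableEq α] {ι κ : Type u} [DecidableEq ι] [DecidableEq κ]
  [Fintype ι] [Fintype κ] {M : Matroid α} {N : α → Finset ι} {K : α → Finset κ} {E : Finset α}

/-- the cyclic flat of a closed set -/
def Sys.flat (h : Sys M N K E) (X : Finset ι) (hX : Cl (Adj N K E) X) :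
    {F : Set α // CycFlat M F} := ⟨((E \ cov N E X : Finset α) : Set α), h.cycFlat hX⟩

theorem Sys.flat_le_iff (h : Sys M N K E) {X X' : Finset ι} (hX : Cl (Adj N K E) X)
    (hX' : Cl (Adj N K E) X') : h.flat X hX ≤ h.flat X' hX' ↔ X' ⊆ X := by
  rw [← h.subset_iff hX, ← Finset.coe_subset]
  exact Iff.rfl

theorem Sys.exists_flat (h : Sys M N K E) (F : {F : Set α // CycFlat M F}) :
    ∃ X, ∃ hX : Cl (Adj N K E) X, F = h.flat X hX := by
  obtain ⟨X, hX, hF⟩ := h.exists_closed F.2
  exact ⟨X, hX, Subtype.ext hF.symm⟩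

/-- irreducible closed sets give meet irreducible cyclic flats -/
theorem Sys.meetIrr (h : Sys M N K E) {X : Finset ι} (hJ : JIrr (Adj N K E) X) :
    ¬ IsGLB {G | h.flat X hJ.1 < G} (h.flat X hJ.1) := by
  intro hglb
  obtain ⟨Y1, hY1, hY1X, hmax⟩ := hJ.exists_largest
  have h1 : h.flat Y1 hY1 ≤ h.flat X hJ.1 := by
    apply hglb.2
    intro G hG
    obtain ⟨Y, hY, rfl⟩ := h.exists_flat G
    rw [Set.mem_ofPred_eq, lt_iff_le_not_ge, h.flat_le_iff, h.flat_le_iff] at hG
    rw [h.flat_le_iff]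
    exact hmax Y hY hG
  rw [h.flat_le_iff] at h1
  exact hY1X.2 h1

/-- irreducible closed sets of the dual system give join irreducible cyclic flats -/
theorem Sys.joinIrr (h : Sys M N K E) {Y : Finset κ} (hJ : JIrr (fun j i => Adj N K E i j) Y) :
    ¬ IsLUB {G | G < h.flat (pol (fun j i => Adj N K E i j) Y)
      (Cl.pol_cl (R := fun j i => Adj N K E i j) Y)}
      (h.flat (pol (fun j i => Adj N K E i j) Y)
      (Cl.pol_cl (R := fun j i => Adj N K E i j) Y)) := by
  intro hlub
  obtain ⟨Y1, hY1, hY1Y, hmax⟩ := hJ.exists_largest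
  have hmono : ∀ Z Z' : Finset κ, Z ⊆ Z' →
      pol (fun j i => Adj N K E i j) Z' ⊆ pol (fun j i => Adj N K E i j) Z := by
    intro Z Z' hZ i hi
    rw [mem_pol] at hi ⊢
    intro j hj
    exact hi j (hZ hj)
  have hmono' : ∀ Z Z' : Finset ι, Z ⊆ Z' → pol (Adj N K E) Z' ⊆ pol (Adj N K E) Z := by
    intro Z Z' hZ i hi
    rw [mem_pol] at hi ⊢
    intro j hj
    exact hi j (hZ hj)
  have h1 : h.flat (pol (fun j i => Adj N K E i j) Y)
      (Cl.pol_cl (R := fun j i => Adj N K E i j) Y) ≤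
      h.flat (pol (fun j i => Adj N K E i j) Y1)
      (Cl.pol_cl (R := fun j i => Adj N K E i j) Y1) := by
    apply hlub.2
    intro G hG
    obtain ⟨X, hX, rfl⟩ := h.exists_flat G
    rw [Set.mem_ofPred_eq, lt_iff_le_not_ge, h.flat_le_iff, h.flat_le_iff] at hG
    rw [h.flat_le_iff]
    rw [← hX.pol_pol]
    apply hmono
    apply hmax _ (Cl.pol_cl X)
    rw [Finset.ssubset_def]
    constructor
    · have := hmono' _ _ hG.1
      have h2 : pol (Adj N K E) (pol (fun j i => Adj N K E i j) Y) = Y := hJ.1.pol_pol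
      rwa [h2] at this
    · intro h3
      apply hG.2
      rw [← hX.pol_pol]
      exact hmono _ _ h3
  rw [h.flat_le_iff] at h1
  have h3 := hmono' _ _ h1
  have h2 : pol (Adj N K E) (pol (fun j i => Adj N K E i j) Y) = Y := hJ.1.pol_pol
  have h4 : pol (Adj N K E) (pol (fun j i => Adj N K E i j) Y1) = Y1 := hY1.pol_pol
  rw [h2, h4] at h3
  exact hY1Y.2 h3

/-- the modular pairs of meet irreducible cyclic flats suffice -/
theorem Sys.all_of_meetIrr (h : Sys M N K E)
    (hm : ∀ F G : {F : Set α // CycFlat M F}, ¬ IsGLB {H | F < H} F → ¬ IsGLB {H | G < H} G →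
      M.eRk (F.1 ∪ G.1) + M.eRk (F.1 ∩ G.1) = M.eRk F.1 + M.eRk G.1) :
    ∀ X Y, Cl (Adj N K E) X → Cl (Adj N K E) Y → dl N K E (X ∪ Y) = 0 := by
  apply h.of_irreducible
  intro X Y hX hY
  apply h.dl_of_modular hX.1 hY.1
  exact hm (h.flat X hX.1) (h.flat Y hY.1) (h.meetIrr hX) (h.meetIrr hY)

/-- the modular pairs of join irreducible cyclic flats suffice -/
theorem Sys.all_of_joinIrr (h : Sys M N K E)
    (hm : ∀ F G : {F : Set α // CycFlat M F}, ¬ IsLUB {H | H < F} F → ¬ IsLUB {H | H < G} G →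
      M.eRk (F.1 ∪ G.1) + M.eRk (F.1 ∩ G.1) = M.eRk F.1 + M.eRk G.1) :
    ∀ X Y, Cl (Adj N K E) X → Cl (Adj N K E) Y → dl N K E (X ∪ Y) = 0 := by
  have hd : ∀ Y Y', Cl (Adj K N E) Y → Cl (Adj K N E) Y' → dl K N E (Y ∪ Y') = 0 := by
    apply h.dual.of_irreducible
    intro Y Y' hY hY'
    rw [adj_swap] at hY hY'
    have hX := Cl.pol_cl (R := fun j i => Adj N K E i j) Y
    have hX' := Cl.pol_cl (R := fun j i => Adj N K E i j) Y'
    have h1 := h.dl_of_modular hX hX' (hm
      (h.flat (pol (fun j i => Adj N K E i j) Y) hX)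
      (h.flat (pol (fun j i => Adj N K E i j) Y') hX') (h.joinIrr hY) (h.joinIrr hY'))
    have h2 := h.pair_relation hX hX'
    have e1 : pol (Adj N K E) (pol (fun j i => Adj N K E i j) Y) = Y := hY.1.pol_pol
    have e2 : pol (Adj N K E) (pol (fun j i => Adj N K E i j) Y') = Y' := hY'.1.pol_pol
    rw [e1, e2, h1] at h2
    exact h2
  intro X X' hX hX'
  rw [← h.pair_relation hX hX']
  apply hd
  · rw [adj_swap]; exact Cl.pol_cl X
  · rw [adj_swap]; exact Cl.pol_cl X'

/-- the rank of a union of cyclic flats -/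
theorem Sys.eRk_biUnion (h : Sys M N K E) (T : Finset (Set α)) (g : Set α → Finset ι)
    (hg : ∀ F ∈ T, Cl (Adj N K E) (g F) ∧ ((E \ cov N E (g F) : Finset α) : Set α) = F) :
    M.eRk (⋃ F ∈ T, F) = ((T.biUnion (fun F => (g F)ᶜ)).card : ℕ∞) := by
  set Z : Finset ι := (T.biUnion (fun F => (g F)ᶜ))ᶜ with hZ
  have memZ : ∀ i, i ∈ Z ↔ ∀ F ∈ T, i ∈ g F := by
    intro i
    rw [hZ, Finset.mem_compl, Finset.mem_biUnion]
    constructor
    · intro h' F hF
      by_contra hcon
      exact h' ⟨F, hF, Finset.mem_compl.2 hcon⟩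
    · rintro h' ⟨F, hF, hi⟩
      exact (Finset.mem_compl.1 hi) (h' F hF)
  have hcard : (T.biUnion (fun F => (g F)ᶜ)).card = Fintype.card ι - Z.card := by
    rw [hZ, Finset.card_compl]
    have := Finset.card_le_univ (T.biUnion (fun F => (g F)ᶜ))
    omega
  rw [hcard]
  by_cases hT : T.Nonempty
  · have hZc : Cl (Adj N K E) Z := by
      intro i hi
      rw [memZ]
      intro F hF
      apply (hg F hF).1
      intro k hk
      obtain ⟨i', hi', hk'⟩ := hi k hk
      exact ⟨i', (memZ i').1 hi' F hF, hk'⟩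
    apply le_antisymm
    · rw [← h.eRk_eq hZc]
      apply M.eRk_mono
      intro e he
      simp only [Set.mem_iUnion] at he
      obtain ⟨F, hF, heF⟩ := he
      rw [← (hg F hF).2] at heF
      have h1 := (h.subset_iff (hg F hF).1 (X' := Z)).2 (fun i hi => (memZ i).1 hi F hF)
      exact_mod_cast h1 (by exact_mod_cast heF)
    · set W : Set α := ⋃ F ∈ T, F with hW
      have hWE : W ⊆ M.E := by
        intro e he
        rw [hW] at he
        simp only [Set.mem_iUnion] at he
        obtain ⟨F, hF, heF⟩ := he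
        rw [← (hg F hF).2] at heF
        exact (h.cycFlat (hg F hF).1).1.subset_ground heF
      have hWcl := M.subset_closure W hWE
      have hcyc : CycFlat M (M.closure W) := by
        refine ⟨M.isFlat_closure W, ?_⟩
        intro e he
        by_cases heW : e ∈ W
        · rw [hW] at heW
          simp only [Set.mem_iUnion] at heW
          obtain ⟨F, hF, heF⟩ := heW
          rw [← (hg F hF).2] at heF
          obtain ⟨C, hC, hCF, heC⟩ := (h.cycFlat (hg F hF).1).2 e heF
          rw [(hg F hF).2] at hCF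
          refine ⟨C, hC, hCF.trans (Set.Subset.trans ?_ hWcl), heC⟩
          rw [hW]
          exact Set.subset_biUnion_of_mem (u := fun F => F) hF
        · obtain ⟨C, hCs, hC, heC⟩ := Matroid.exists_isCircuit_of_mem_closure he heW
          refine ⟨C, hC, ?_, heC⟩
          intro f hf
          rcases hCs hf with rfl | hf'
          · exact he
          · exact hWcl hf'
      obtain ⟨Z', hZ'c, hZ'⟩ := h.exists_closed hcyc
      have hsub : Z' ⊆ Z := by
        intro i hi
        rw [memZ]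
        intro F hF
        have h1 : E \ cov N E (g F) ⊆ E \ cov N E Z' := by
          rw [← Finset.coe_subset, hZ', (hg F hF).2]
          refine Set.Subset.trans ?_ hWcl
          rw [hW]
          exact Set.subset_biUnion_of_mem (u := fun F => F) hF
        exact (h.subset_iff (hg F hF).1).1 h1 hi
      have h2 := (h.subset_iff hZc).2 hsub
      rw [← h.eRk_eq hZc, ← M.eRk_closure_eq W, ← hZ']
      exact M.eRk_mono (by exact_mod_cast h2)
  · rw [Finset.not_nonempty_iff_eq_empty] at hT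
    have hZu : Z = Finset.univ := by
      rw [hZ, hT]
      simp
    rw [hZu, hT, Finset.card_univ]
    simp

/-- the rank of the complement of the set covered by a tight set of indices -/
theorem Sys.eRk_tight (h : Sys M N K E) {X : Finset ι} (hX : dl N K E X = 0) :
    M.eRk ((E \ cov N E X : Finset α) : Set α) = ((Fintype.card ι - X.card : ℕ) : ℕ∞) := by
  apply le_antisymm
  · rw [Matroid.eRk_le_iff]
    intro I hIX hI
    obtain ⟨I', rfl⟩ := finset_of_indep h.ground hI
    rw [Set.encard_coe_eq_coe_finsetCard]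
    have := mt_card_le_compl ((h.pres I').1 hI) (by exact_mod_cast hIX)
    exact_mod_cast this
  · obtain ⟨P, hPs, hPc, hP⟩ := exists_mt_compl (N := N) (X := X) (W := E \ cov N E X) (by
      intro T hT
      have h1 := h.dh1 (T ∪ X)
      rw [Finset.card_union_of_disjoint hT] at h1
      have h2 : cov N E (T ∪ X) ⊆ cov N (E \ cov N E X) T ∪ cov N E X := by
        intro e he
        rw [Finset.mem_union]
        by_cases heX : e ∈ cov N E X
        · exact Or.inr heX
        · left
          rw [mem_cov] at he ⊢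
          obtain ⟨heE, i, hi, hiT⟩ := he
          refine ⟨Finset.mem_sdiff.2 ⟨heE, heX⟩, i, hi, ?_⟩
          rw [Finset.mem_union] at hiT
          rcases hiT with h6 | h6
          · exact h6
          · exact absurd (mem_cov.2 ⟨heE, i, hi, h6⟩) heX
      have h3 := (Finset.card_le_card h2).trans (Finset.card_union_le _ _)
      have h4 := Finset.card_le_card (nbr_mono N K E (Finset.subset_union_right (s₁ := T)
        (s₂ := X)))
      unfold dl at hX
      omega)
    rw [Matroid.le_eRk_iff]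
    refine ⟨P, by exact_mod_cast hPs, (h.pres P).2 hP, ?_⟩
    rw [Set.encard_coe_eq_coe_finsetCard, hPc]

/-- equality in the Mason-Ingleton formula for pairwise modular families of cyclic flats -/
theorem Sys.masonIngleton (h : Sys M N K E) {𝓕 : Finset (Set α)} (hne : 𝓕.Nonempty)
    (hF : ∀ F ∈ 𝓕, CycFlat M F)
    (hmod : ∀ F ∈ 𝓕, ∀ G ∈ 𝓕, M.eRk (F ∪ G) + M.eRk (F ∩ G) = M.eRk F + M.eRk G) :
    ((M.eRk (⋂ F ∈ 𝓕, F)).toNat : ℤ) =
      ∑ T ∈ 𝓕.powerset, (-1) ^ (T.card + 1) * ((M.eRk (⋃ F ∈ T, F)).toNat : ℤ) := by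
  classical
  have hex : ∀ F : Set α, ∃ X : Finset ι, F ∈ 𝓕 →
      Cl (Adj N K E) X ∧ ((E \ cov N E X : Finset α) : Set α) = F := by
    intro F
    by_cases h' : F ∈ 𝓕
    · obtain ⟨X, hX, hXF⟩ := h.exists_closed (hF F h')
      exact ⟨X, fun _ => ⟨hX, hXF⟩⟩
    · exact ⟨∅, fun h'' => absurd h'' h'⟩
  choose g hg using hex
  have htight : dl N K E ((𝓕.image g).biUnion id) = 0 := by
    apply h.family
    · intro X hX
      obtain ⟨F, hF', rfl⟩ := Finset.mem_image.1 hX
      exact (hg F hF').1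
    · intro X hX Y hY
      obtain ⟨F, hF', rfl⟩ := Finset.mem_image.1 hX
      obtain ⟨G, hG', rfl⟩ := Finset.mem_image.1 hY
      apply h.dl_of_modular (hg F hF').1 (hg G hG').1
      rw [(hg F hF').2, (hg G hG').2]
      exact hmod F hF' G hG'
  have eX : (𝓕.image g).biUnion id = 𝓕.biUnion g := by
    rw [Finset.image_biUnion]
    rfl
  rw [eX] at htight
  have hinter : (⋂ F ∈ 𝓕, F) = ((E \ cov N E (𝓕.biUnion g) : Finset α) : Set α) := by
    ext e
    simp only [Set.mem_iInter, Finset.mem_coe, Finset.mem_sdiff]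
    constructor
    · intro h'
      obtain ⟨F0, hF0⟩ := hne
      have h1 := h' F0 hF0
      rw [← (hg F0 hF0).2, Finset.mem_coe, Finset.mem_sdiff] at h1
      refine ⟨h1.1, fun h2 => ?_⟩
      rw [mem_cov] at h2
      obtain ⟨heE, i, hi, hiX⟩ := h2
      obtain ⟨F, hF', hiF⟩ := Finset.mem_biUnion.1 hiX
      have h3 := h' F hF'
      rw [← (hg F hF').2, Finset.mem_coe, Finset.mem_sdiff] at h3
      exact h3.2 (mem_cov.2 ⟨heE, i, hi, hiF⟩)
    · rintro ⟨heE, h1⟩ F hF'
      rw [← (hg F hF').2, Finset.mem_coe, Finset.mem_sdiff]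
      refine ⟨heE, fun h2 => h1 ?_⟩
      rw [mem_cov] at h2 ⊢
      obtain ⟨_, i, hi, hiF⟩ := h2
      exact ⟨heE, i, hi, Finset.mem_biUnion.2 ⟨F, hF', hiF⟩⟩
  rw [hinter, h.eRk_tight htight]
  have h1 := incl_excl (Finset.univ : Finset ι) 𝓕 (fun F => (g F)ᶜ)
    (fun F _ => Finset.subset_univ _) (𝓕.biUnion g)ᶜ (by
      intro i
      rw [Finset.mem_compl, Finset.mem_biUnion]
      constructor
      · intro h'
        refine ⟨Finset.mem_univ _, fun F hF' => Finset.mem_compl.2 fun hi => h' ⟨F, hF', hi⟩⟩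
      · rintro ⟨_, h'⟩ ⟨F, hF', hi⟩
        exact (Finset.mem_compl.1 (h' F hF')) hi)
  rw [Finset.card_compl] at h1
  rw [ENat.toNat_natCast, h1]
  have h2 : ∀ T ∈ 𝓕.powerset, (-1 : ℤ) ^ (T.card + 1) * ((M.eRk (⋃ F ∈ T, F)).toNat : ℤ) =
      (-1) ^ T.card * (((Finset.univ : Finset ι).card : ℤ) -
        ((T.biUnion (fun F => (g F)ᶜ)).card : ℤ)) -
      (-1) ^ T.card * ((Finset.univ : Finset ι).card : ℤ) := by
    intro T hT
    rw [h.eRk_biUnion T g (fun F hF' => hg F (Finset.mem_powerset.1 hT hF')), ENat.toNat_natCast]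
    ring
  rw [Finset.sum_congr rfl h2, Finset.sum_sub_distrib, ← Finset.sum_mul,
    Finset.sum_powerset_neg_one_pow_card_of_nonempty hne]
  ring

end

end Pool.Agent.H765
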