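import Pool.Agent.helper765_bt.Compare

/-!
From a dominated configuration of cyclic flats back to a dual pair of presentations.
-/

open Finset

set_option linter.unusedSectionVars false

namespace Pool.Agent.H765

variable {α ι κ : Type*} [DecidableEq α] [DecidableEq ι] [DecidableEq κ]

theorem cl_below (R : ι → κ → Prop) [Fintype ι] (i : ι) :
    ∃ X : Finset ι, Cl R X ∧ i ∈ X ∧ (∀ i' ∈ X, ∀ j, R i' j → R i j) ∧
      ∀ X', Cl R X' → i ∈ X' → X ⊆ X' := by
  classical
  refine ⟨Finset.univ.filter (fun i' => ∀ j, R i' j → R i j), ?_, ?_, ?_, ?_⟩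
  · intro i' hi'
    rw [Finset.mem_filter]
    refine ⟨Finset.mem_univ _, fun j hj => ?_⟩
    obtain ⟨i'', h1, h2⟩ := hi' j hj
    rw [Finset.mem_filter] at h1
    exact h1.2 j h2
  · rw [Finset.mem_filter]
    exact ⟨Finset.mem_univ _, fun j hj => hj⟩
  · intro i' hi'
    rw [Finset.mem_filter] at hi'
    exact hi'.2
  · intro X' hX' hi i' hi'
    rw [Finset.mem_filter] at hi'
    exact hX' i' (fun j hj => ⟨i, hi, hi'.2 j hj⟩)

theorem cl_above (R : ι → κ → Prop) [Fintype ι] (j : κ) :
    ∃ X : Finset ι, Cl R X ∧ ∀ i, i ∈ X ↔ ¬ R i j := by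
  classical
  refine ⟨Finset.univ.filter (fun i => ¬ R i j), ?_, ?_⟩
  · intro i hi
    rw [Finset.mem_filter]
    refine ⟨Finset.mem_univ _, fun hR => ?_⟩
    obtain ⟨i', h1, h2⟩ := hi j hR
    rw [Finset.mem_filter] at h1
    exact h1.2 h2
  · intro i
    rw [Finset.mem_filter]
    exact ⟨fun h => h.2, fun h => ⟨Finset.mem_univ _, h⟩⟩

theorem Sys.backward [Fintype ι] [Fintype κ] {M P : Matroid α} {N' : α → Finset ι}
    {K' : α → Finset κ} {E : Finset α} (hM : M.Finite) (hE : (E : Set α) = M.E)
    (hP : Sys P N' K' E) {φ : {F : Set α // CycFlat M F} ≃o {F : Set α // CycFlat P F}}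
    (hφ : Dominated M P φ) :
    ∃ (N : α → Finset ι) (K : α → Finset κ), Sys M N K E := by
  classical
  set R := Adj N' K' E with hR
  obtain ⟨ψ, hψ⟩ := hP.exists_iso (R := R) rfl
  choose cl hcl hicl hclR hclmin using cl_below R
  choose ab hab habR using cl_above R
  -- the two families of cyclic flats
  set F : ι → {F : Set α // CycFlat M F} :=
    fun i => φ.symm (ψ (OrderDual.toDual ⟨cl i, hcl i⟩)) with hF
  set G : κ → {F : Set α // CycFlat M F} :=
    fun j => φ.symm (ψ (OrderDual.toDual ⟨ab j, hab j⟩)) with hG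
  have hφF : ∀ i, φ (F i) = ψ (OrderDual.toDual ⟨cl i, hcl i⟩) := fun i =>
    OrderIso.apply_symm_apply _ _
  have hφG : ∀ j, φ (G j) = ψ (OrderDual.toDual ⟨ab j, hab j⟩) := fun j =>
    OrderIso.apply_symm_apply _ _
  have hFG : ∀ i j, (G j).1 ⊆ (F i).1 ↔ ¬ R i j := by
    intro i j
    have h1 : (G j).1 ⊆ (F i).1 ↔ G j ≤ F i := Iff.rfl
    rw [h1, hF, hG]
    rw [OrderIso.le_iff_le, OrderIso.le_iff_le, OrderDual.toDual_le_toDual,
      ← Subtype.coe_le_coe]
    show cl i ⊆ ab j ↔ _
    constructor
    · intro h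
      exact (habR j i).1 (h (hicl i))
    · intro h i' hi'
      exact (habR j i').2 (fun h' => h (hclR i i' hi' j h'))
  -- general cyclic flats
  have hgen : ∀ F0 : {F : Set α // CycFlat M F}, ∃ X : Finset ι, Cl R X ∧
      (φ F0).1 = ((E \ cov N' E X : Finset α) : Set α) ∧
      (∀ i ∈ X, F0.1 ⊆ (F i).1) ∧ (∀ j, (G j).1 ⊆ F0.1 → j ∈ pol R X) := by
    intro F0
    set X := OrderDual.ofDual (ψ.symm (φ F0)) with hX
    have hψX : ψ (OrderDual.toDual X) = φ F0 := by
      rw [hX, OrderDual.toDual_ofDual, OrderIso.apply_symm_apply]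
    refine ⟨X.1, X.2, ?_, ?_, ?_⟩
    · rw [← hψX, hψ]; rfl
    · intro i hi
      have h1 : F0.1 ⊆ (F i).1 ↔ F0 ≤ F i := Iff.rfl
      rw [h1, ← φ.le_iff_le, hφF, ← hψX, OrderIso.le_iff_le, OrderDual.toDual_le_toDual,
        ← Subtype.coe_le_coe]
      exact hclmin i X.1 X.2 hi
    · intro j hj
      have h1 : (G j).1 ⊆ F0.1 ↔ G j ≤ F0 := Iff.rfl
      rw [h1, ← φ.le_iff_le, hφG, ← hψX, OrderIso.le_iff_le, OrderDual.toDual_le_toDual,
        ← Subtype.coe_le_coe] at hj
      rw [mem_pol]
      intro i hi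
      exact (habR j i).1 (hj hi)
  have hground : ∀ F0 : {F : Set α // CycFlat M F}, F0.1 ⊆ (E : Set α) := by
    intro F0
    rw [hE]; exact F0.2.1.subset_ground
  -- the families of the index sets
  set N : α → Finset ι := fun e => Finset.univ.filter (fun i => e ∈ E ∧ e ∉ (F i).1) with hN
  set K : α → Finset κ := fun e => Finset.univ.filter (fun j => e ∈ (G j).1) with hK
  have memN : ∀ e i, i ∈ N e ↔ e ∈ E ∧ e ∉ (F i).1 := by
    intro e i
    rw [hN, Finset.mem_filter]
    exact ⟨fun h => h.2, fun h => ⟨Finset.mem_univ _, h⟩⟩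
  have memK : ∀ e j, j ∈ K e ↔ e ∈ (G j).1 := by
    intro e j
    rw [hK, Finset.mem_filter]
    exact ⟨fun h => h.2, fun h => ⟨Finset.mem_univ _, h⟩⟩
  have hadj : Adj N K E = R := by
    funext i j
    apply propext
    constructor
    · rintro ⟨e, _, h1, h2⟩
      by_contra hR'
      rw [memN] at h1
      rw [memK] at h2
      exact h1.2 ((hFG i j).2 hR' h2)
    · intro hR'
      have h1 : ¬ (G j).1 ⊆ (F i).1 := fun h => (hFG i j).1 h hR'
      rw [Set.not_subset] at h1
      obtain ⟨e, he1, he2⟩ := h1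
      have heE : e ∈ E := by exact_mod_cast hground (G j) he1
      exact ⟨e, heE, (memN _ _).2 ⟨heE, he2⟩, (memK _ _).2 he1⟩
  have hnbr : ∀ X, nbr N' K' E X = nbr N K E X := nbr_congr hadj rfl
  have hnbr' : ∀ Y, nbr K' N' E Y = nbr K N E Y := by
    apply nbr_congr (R := fun j i => R i j)
    · rw [adj_swap, hadj]
    · rw [adj_swap]
  -- the first Hall type inequality
  have hdh1 : DH N K E := by
    intro X
    by_cases hX : X.Nonempty
    · obtain ⟨i0, hi0⟩ := hX
      have h1 := (hφ.2 (F '' (X : Set ι)) ⟨F i0, i0, by exact_mod_cast hi0, rfl⟩).1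
      rw [Set.biInter_image, Set.biInter_image] at h1
      have h2 : (⋂ i ∈ (X : Set ι), (F i).1) = ((E \ cov N E X : Finset α) : Set α) := by
        ext e
        simp only [Set.mem_iInter, Finset.mem_coe, Finset.mem_sdiff]
        constructor
        · intro h
          have heE : e ∈ E := by exact_mod_cast hground (F i0) (h i0 hi0)
          refine ⟨heE, fun h' => ?_⟩
          rw [mem_cov] at h'
          obtain ⟨_, i, h3, h4⟩ := h'
          exact ((memN _ _).1 h3).2 (h i h4)
        · rintro ⟨heE, h⟩ i hi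
          by_contra hcon
          exact h (mem_cov.2 ⟨heE, i, (memN _ _).2 ⟨heE, hcon⟩, hi⟩)
      have h3 : (⋂ i ∈ (X : Set ι), (φ (F i)).1) ⊆ ((E \ cov N' E X : Finset α) : Set α) := by
        intro e
        simp only [Set.mem_iInter, Finset.mem_coe, Finset.mem_sdiff]
        intro h
        have h4 : ∀ i ∈ X, e ∈ E \ cov N' E (cl i) := by
          intro i hi
          have h5 := h i hi
          rw [hφF, hψ] at h5
          exact_mod_cast h5
        refine ⟨(Finset.mem_sdiff.1 (h4 i0 hi0)).1, fun h5 => ?_⟩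
        rw [mem_cov] at h5
        obtain ⟨h6, i, h7, h8⟩ := h5
        exact (Finset.mem_sdiff.1 (h4 i h8)).2 (mem_cov.2 ⟨h6, i, h7, hicl i⟩)
      have h4 := Set.ncard_le_ncard h3 (Finset.finite_toSet _)
      rw [h2] at h1
      rw [Set.ncard_coe_finset] at h1 h4
      have h5 := card_sdiff_cov N E X
      have h6 := card_sdiff_cov N' E X
      have h7 := hP.dh1 X
      rw [hnbr] at h7
      omega
    · rw [Finset.not_nonempty_iff_eq_empty] at hX
      rw [hX]
      simp [nbr, cov]
  -- the second Hall type inequality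
  have hdh2 : DH K N E := by
    intro Y
    by_cases hY : Y.Nonempty
    · obtain ⟨j0, hj0⟩ := hY
      have h1 := (hφ.2 (G '' (Y : Set κ)) ⟨G j0, j0, by exact_mod_cast hj0, rfl⟩).2
      rw [Set.biUnion_image, Set.biUnion_image] at h1
      have h2 : (⋃ j ∈ (Y : Set κ), (G j).1) = ((cov K E Y : Finset α) : Set α) := by
        ext e
        simp only [Set.mem_iUnion, Finset.mem_coe]
        constructor
        · rintro ⟨j, hj, h⟩
          exact mem_cov.2 ⟨by exact_mod_cast hground (G j) h, j, (memK _ _).2 h, hj⟩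
        · intro h
          rw [mem_cov] at h
          obtain ⟨_, j, h3, h4⟩ := h
          exact ⟨j, h4, (memK _ _).1 h3⟩
      have h3 : ((cov K' E Y : Finset α) : Set α) ⊆ (⋃ j ∈ (Y : Set κ), (φ (G j)).1) := by
        intro e
        simp only [Set.mem_iUnion, Finset.mem_coe]
        intro h
        rw [mem_cov] at h
        obtain ⟨heE, j, h4, h5⟩ := h
        refine ⟨j, h5, ?_⟩
        rw [hφG, hψ]
        have h6 : e ∈ E \ cov N' E (ab j) := by
          rw [Finset.mem_sdiff]
          refine ⟨heE, fun h7 => ?_⟩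
          rw [mem_cov] at h7
          obtain ⟨_, i, h8, h9⟩ := h7
          exact (habR j i).1 h9 ⟨e, heE, h8, h4⟩
        exact_mod_cast h6
      have hfin : (⋃ j ∈ (Y : Set κ), (φ (G j)).1).Finite := by
        apply Set.Finite.subset (E.finite_toSet)
        intro e
        simp only [Set.mem_iUnion]
        rintro ⟨j, _, h⟩
        rw [hP.ground]
        exact (φ (G j)).2.1.subset_ground h
      have h4 := Set.ncard_le_ncard h3 hfin
      rw [h2] at h1
      rw [Set.ncard_coe_finset] at h1 h4
      have h7 := hP.dh2 Y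
      rw [hnbr'] at h7
      omega
    · rw [Finset.not_nonempty_iff_eq_empty] at hY
      rw [hY]
      simp [nbr, cov]
  have hrank : ∀ (F0 : {F : Set α // CycFlat M F}) (X : Finset ι), Cl R X →
      (φ F0).1 = ((E \ cov N' E X : Finset α) : Set α) →
      M.eRk F0.1 = ((Fintype.card ι - X.card : ℕ) : ℕ∞) ∧
      F0.1.ncard + X.card = Fintype.card ι + (pol R X).card := by
    intro F0 X hX h
    constructor
    · rw [← (hφ.1 F0).2, h, hP.eRk_eq hX]
    · rw [← (hφ.1 F0).1, h, Set.ncard_coe_finset, (hP.closed_eq hX).1]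
      exact (hP.closed_eq hX).2.2
  -- the presentation of `M`
  have hpres : Pres M N := by
    intro I
    constructor
    · intro hI D hD
      have hDind : M.Indep (D : Set α) := hI.subset (by exact_mod_cast hD)
      have hDE : D ⊆ E := by
        rw [← Finset.coe_subset, hE]; exact hDind.subset_ground
      set T := D.biUnion N with hT
      set U := E \ cov N E Tᶜ with hU
      have hDU : D ⊆ U := by
        intro e he
        rw [hU, Finset.mem_sdiff]
        refine ⟨hDE he, fun h => ?_⟩
        rw [mem_cov] at h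
        obtain ⟨_, i, h1, h2⟩ := h
        rw [Finset.mem_compl] at h2
        exact h2 (Finset.mem_biUnion.2 ⟨e, he, h1⟩)
      have hUflat : M.IsFlat (U : Set α) := by
        apply isFlat_of_forall
        · rw [← hE]; exact_mod_cast Finset.sdiff_subset
        · intro e heE heU hecl
          rw [← hE] at heE
          have heE' : e ∈ E := by exact_mod_cast heE
          have h1 : e ∈ cov N E Tᶜ := by
            by_contra h'
            exact heU (by rw [hU]; exact_mod_cast Finset.mem_sdiff.2 ⟨heE', h'⟩)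
          rw [mem_cov] at h1
          obtain ⟨_, i, h2, h3⟩ := h1
          apply ((memN _ _).1 h2).2
          have h4 : (U : Set α) ⊆ (F i).1 := by
            intro f hf
            by_contra hcon
            have hf' : f ∈ U := by exact_mod_cast hf
            rw [hU, Finset.mem_sdiff] at hf'
            exact hf'.2 (mem_cov.2 ⟨hf'.1, i, (memN _ _).2 ⟨hf'.1, hcon⟩, h3⟩)
          have h5 := M.closure_subset_closure h4 hecl
          rwa [(F i).2.1.closure] at h5
      set U0 : {F : Set α // CycFlat M F} := ⟨cycPart M U, cycFlat_cycPart hUflat⟩ with hU0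
      obtain ⟨X0, hX0, hφU0, _, hjU0⟩ := hgen U0
      obtain ⟨hr0, hn0⟩ := hrank U0 X0 hX0 hφU0
      have hY0 : (nbr N K E Tᶜ)ᶜ ⊆ pol R X0 := by
        intro j hj
        rw [Finset.mem_compl] at hj
        apply hjU0
        apply (G j).2.subset_cycPart
        intro e he
        have heE : e ∈ E := by exact_mod_cast hground (G j) he
        have h1 : e ∈ U := by
          rw [hU, Finset.mem_sdiff]
          refine ⟨heE, fun h => hj ?_⟩
          rw [mem_cov] at h
          rw [mem_nbr]
          exact ⟨e, heE, h.2, (memK _ _).2 he⟩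
        exact_mod_cast h1
      have h1 := Finset.card_le_card hY0
      rw [Finset.card_compl] at h1
      have h2 := hdh1 Tᶜ
      rw [Finset.card_compl] at h2
      have h3 := card_sdiff_cov N E Tᶜ
      have h4 : U0.1 ⊆ (U : Set α) := cycPart_subset
      -- the rank of `U`
      have h5 : M.eRk (U : Set α) ≤ M.eRk U0.1 + ((U : Set α) \ U0.1).encard := by
        calc M.eRk (U : Set α) = M.eRk (U0.1 ∪ ((U : Set α) \ U0.1)) := by
              rw [Set.union_sdiff_cancel h4]
          _ ≤ M.eRk U0.1 + M.eRk ((U : Set α) \ U0.1) := M.eRk_union_le_eRk_add_eRk _ _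
          _ ≤ _ := by gcongr; exact M.eRk_le_encard _
      have h6 : ((U : Set α) \ U0.1).encard = ((U.card - U0.1.ncard : ℕ) : ℕ∞) := by
        have hfin0 : U0.1.Finite := U.finite_toSet.subset h4
        have hfin1 : ((U : Set α) \ U0.1).Finite := U.finite_toSet.subset Set.sdiff_subset
        rw [← hfin1.cast_ncard_eq, Set.ncard_sdiff h4 hfin0, Set.ncard_coe_finset]
      have h7 : M.eRk (D : Set α) ≤ M.eRk (U : Set α) := M.eRk_mono (by exact_mod_cast hDU)
      rw [hDind.eRk_eq_encard, Set.encard_coe_eq_coe_finsetCard] at h7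
      rw [hr0, h6] at h5
      have h8 := h7.trans h5
      have h9 : D.card ≤ (Fintype.card ι - X0.card) + (U.card - U0.1.ncard) := by
        exact_mod_cast h8
      have h10 : U0.1.ncard ≤ U.card := by
        have := Set.ncard_le_ncard h4 U.finite_toSet
        rwa [Set.ncard_coe_finset] at this
      have h11 := Finset.card_le_univ X0
      have h12 := Finset.card_le_univ T
      have h13 := hP.card
      have h14 := Finset.card_le_univ (nbr N K E Tᶜ)
      have h15 := Finset.card_le_univ (pol R X0)
      have h16 : U.card = (E \ cov N E Tᶜ).card := by rw [hU]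
      have h17 : Fintype.card ι - X0.card + (U.card - U0.1.ncard) + (pol R X0).card = U.card := by
        omega
      omega
    · intro hI
      apply indep_of_cycFlat hM
      · intro e he
        have h1 := hI {e} (by simpa using he)
        rw [Finset.singleton_biUnion, Finset.card_singleton] at h1
        obtain ⟨i, hi⟩ := Finset.card_pos.1 (lt_of_lt_of_le Nat.zero_lt_one h1)
        rw [← hE]
        exact_mod_cast ((memN _ _).1 hi).1
      · intro F0 hF0
        obtain ⟨X, hX, hφX, hX1, _⟩ := hgen ⟨F0, hF0⟩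
        obtain ⟨hr, _⟩ := hrank ⟨F0, hF0⟩ X hX hφX
        rw [hr]
        have h1 : ((I : Set α) ∩ F0) = ((I.filter (fun e => e ∈ F0) : Finset α) : Set α) := by
          rw [Finset.coe_filter]; rfl
        rw [h1, Set.encard_coe_eq_coe_finsetCard]
        have h2 := hI _ (Finset.filter_subset (fun e => e ∈ F0) I)
        have h3 : (I.filter (fun e => e ∈ F0)).biUnion N ⊆ Xᶜ := by
          intro i hi
          rw [Finset.mem_biUnion] at hi
          obtain ⟨e, he, hi⟩ := hi
          rw [Finset.mem_filter] at he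
          rw [Finset.mem_compl]
          intro hiX
          exact ((memN _ _).1 hi).2 (hX1 i hiX he.2)
        have h4 := Finset.card_le_card h3
        rw [Finset.card_compl] at h4
        exact_mod_cast h2.trans h4
  have hKE : ∀ e, (K e).Nonempty → e ∈ E := by
    rintro e ⟨j, hj⟩
    exact_mod_cast hground (G j) ((memK _ _).1 hj)
  exact ⟨N, K, hE, hpres, (dual_of_DH hE hpres hKE hP.card hdh1 hdh2).1, hP.card, hdh1, hdh2⟩

end Pool.Agent.H765
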