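import Pool.Agent.helper765_bt.Exist

/-!
Comparison of the cyclic flats of a matroid with those of a principal matroid.
-/

open Finset

set_option linter.unusedSectionVars false

namespace Pool.Agent.H765

variable {α ι κ : Type*} [DecidableEq α] [DecidableEq ι] [DecidableEq κ]

/-- an isomorphism of the lattices of cyclic flats that preserves sizes and ranks and under which
the sizes of intersections do not decrease and the sizes of unions do not increase -/
def Dominated (M P : Matroid α) (φ : {F : Set α // CycFlat M F} ≃o {F : Set α // CycFlat P F}) :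
    Prop :=
  (∀ F, (φ F).1.ncard = F.1.ncard ∧ P.eRk (φ F).1 = M.eRk F.1) ∧
    ∀ 𝓕 : Set {F : Set α // CycFlat M F}, 𝓕.Nonempty →
      (⋂ F ∈ 𝓕, F.1).ncard ≤ (⋂ F ∈ 𝓕, (φ F).1).ncard ∧
      (⋃ F ∈ 𝓕, (φ F).1).ncard ≤ (⋃ F ∈ 𝓕, F.1).ncard

section

variable [Fintype ι] [Fintype κ] {M P : Matroid α} {N N' : α → Finset ι} {K K' : α → Finset κ}
  {E : Finset α} {R : ι → κ → Prop}

/-- the isomorphism with the closed sets of a relation that is equal to the adjacency -/
theorem Sys.exists_iso (h : Sys M N K E) (hR : Adj N K E = R) :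
    ∃ ψ : {X : Finset ι // Cl R X}ᵒᵈ ≃o {F : Set α // CycFlat M F},
      ∀ X, (ψ X).1 = ((E \ cov N E (OrderDual.ofDual X).1 : Finset α) : Set α) := by
  subst hR
  exact ⟨h.iso, fun X => rfl⟩

theorem nbr_congr (hR : Adj N K E = R) (hR' : Adj N' K' E = R) (X : Finset ι) :
    nbr N' K' E X = nbr N K E X := by
  ext j
  rw [mem_nbr_adj, mem_nbr_adj, hR, hR']

theorem card_sdiff_cov (N : α → Finset ι) (E : Finset α) (X : Finset ι) :
    (E \ cov N E X).card + (cov N E X).card = E.card :=
  Finset.card_sdiff_add_card_eq_card (Finset.filter_subset _ _)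

theorem Sys.forward (h : Sys M N K E) (hR : Adj N K E = R) {b : ι → α} {c : κ → α}
    (hs : Star R b c N' K' E) (hP : Sys P N' K' E) :
    ∃ φ : {F : Set α // CycFlat M F} ≃o {F : Set α // CycFlat P F}, Dominated M P φ := by
  classical
  obtain ⟨ψ, hψ⟩ := h.exists_iso hR
  have hR' := hs.adj
  obtain ⟨ψ', hψ'⟩ := hP.exists_iso hR'
  have hF : ∀ F : {F : Set α // CycFlat M F},
      F.1 = ((E \ cov N E (OrderDual.ofDual (ψ.symm F)).1 : Finset α) : Set α) := by
    intro F
    rw [← hψ, OrderIso.apply_symm_apply]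
  have hφF : ∀ F : {F : Set α // CycFlat M F}, ((ψ.symm.trans ψ') F).1 =
      ((E \ cov N' E (OrderDual.ofDual (ψ.symm F)).1 : Finset α) : Set α) := by
    intro F
    rw [OrderIso.trans_apply, hψ']
  have hcl : ∀ F : {F : Set α // CycFlat M F}, Cl R (OrderDual.ofDual (ψ.symm F)).1 :=
    fun F => (OrderDual.ofDual (ψ.symm F)).2
  refine ⟨ψ.symm.trans ψ', ?_, ?_⟩
  · intro F
    have h1 := (h.closed_eq (X := (OrderDual.ofDual (ψ.symm F)).1) (by rw [hR]; exact hcl F)).2.1
    have h2 := (hP.closed_eq (X := (OrderDual.ofDual (ψ.symm F)).1) (by rw [hR']; exact hcl F)).2.1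
    rw [nbr_congr hR hR'] at h2
    have h3 := card_sdiff_cov N E (OrderDual.ofDual (ψ.symm F)).1
    have h4 := card_sdiff_cov N' E (OrderDual.ofDual (ψ.symm F)).1
    constructor
    · rw [hφF]
      conv_rhs => rw [hF]
      rw [Set.ncard_coe_finset, Set.ncard_coe_finset]
      omega
    · rw [hφF, hP.eRk_eq (by rw [hR']; exact hcl F)]
      conv_rhs => rw [hF, h.eRk_eq (by rw [hR]; exact hcl F)]
  · intro 𝓕 h𝓕
    constructor
    · -- intersections
      set X : Finset ι :=
        Finset.univ.filter (fun i => ∃ F ∈ 𝓕, i ∈ (OrderDual.ofDual (ψ.symm F)).1) with hX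
      have hmemX : ∀ i, i ∈ X ↔ ∃ F ∈ 𝓕, i ∈ (OrderDual.ofDual (ψ.symm F)).1 := by
        intro i; rw [hX, Finset.mem_filter]; exact ⟨fun h => h.2, fun h => ⟨Finset.mem_univ _, h⟩⟩
      have key : ∀ (N : α → Finset ι), ((E \ cov N E X : Finset α) : Set α) =
          ⋂ F ∈ 𝓕, ((E \ cov N E (OrderDual.ofDual (ψ.symm F)).1 : Finset α) : Set α) := by
        intro N
        ext e
        simp only [Set.mem_iInter, Finset.mem_coe, Finset.mem_sdiff]
        constructor
        · rintro ⟨h1, h2⟩ F hF'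
          refine ⟨h1, fun h3 => h2 ?_⟩
          rw [mem_cov] at h3 ⊢
          obtain ⟨h4, i, h5, h6⟩ := h3
          exact ⟨h4, i, h5, (hmemX i).2 ⟨F, hF', h6⟩⟩
        · intro h1
          obtain ⟨F0, hF0⟩ := h𝓕
          refine ⟨(h1 F0 hF0).1, fun h2 => ?_⟩
          rw [mem_cov] at h2
          obtain ⟨h4, i, h5, h6⟩ := h2
          obtain ⟨F, hF', hi⟩ := (hmemX i).1 h6
          exact (h1 F hF').2 (mem_cov.2 ⟨h4, i, h5, hi⟩)
      have h1 : (⋂ F ∈ 𝓕, F.1) = ((E \ cov N E X : Finset α) : Set α) := by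
        rw [key]
        apply Set.iInter₂_congr
        intro F _
        exact hF F
      have h2 : (⋂ F ∈ 𝓕, ((ψ.symm.trans ψ') F).1) = ((E \ cov N' E X : Finset α) : Set α) := by
        rw [key]
        apply Set.iInter₂_congr
        intro F _
        exact hφF F
      rw [h1, h2, Set.ncard_coe_finset, Set.ncard_coe_finset]
      have h3 := card_sdiff_cov N E X
      have h4 := card_sdiff_cov N' E X
      have h5 := h.dh1 X
      have h6 := hs.cov_card X
      rw [nbr_congr hR hR'] at h6
      omega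
    · -- unions
      set Y : Finset κ :=
        Finset.univ.filter (fun j => ∃ F ∈ 𝓕, j ∈ pol R (OrderDual.ofDual (ψ.symm F)).1) with hY
      have hmemY : ∀ j, j ∈ Y ↔ ∃ F ∈ 𝓕, j ∈ pol R (OrderDual.ofDual (ψ.symm F)).1 := by
        intro j; rw [hY, Finset.mem_filter]; exact ⟨fun h => h.2, fun h => ⟨Finset.mem_univ _, h⟩⟩
      have key : ∀ (K : α → Finset κ), ((cov K E Y : Finset α) : Set α) =
          ⋃ F ∈ 𝓕, ((cov K E (pol R (OrderDual.ofDual (ψ.symm F)).1) : Finset α) : Set α) := by
        intro K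
        ext e
        simp only [Set.mem_iUnion, Finset.mem_coe]
        constructor
        · intro h1
          rw [mem_cov] at h1
          obtain ⟨h4, j, h5, h6⟩ := h1
          obtain ⟨F, hF', hj⟩ := (hmemY j).1 h6
          exact ⟨F, hF', mem_cov.2 ⟨h4, j, h5, hj⟩⟩
        · rintro ⟨F, hF', h1⟩
          rw [mem_cov] at h1 ⊢
          obtain ⟨h4, j, h5, h6⟩ := h1
          exact ⟨h4, j, h5, (hmemY j).2 ⟨F, hF', h6⟩⟩
      have h1 : (⋃ F ∈ 𝓕, F.1) = ((cov K E Y : Finset α) : Set α) := by
        rw [key]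
        apply Set.iUnion₂_congr
        intro F _
        rw [hF F]
        have := (h.closed_eq (X := (OrderDual.ofDual (ψ.symm F)).1) (by rw [hR]; exact hcl F)).1
        rw [hR] at this
        rw [this]
      have h2 : (⋃ F ∈ 𝓕, ((ψ.symm.trans ψ') F).1) = ((cov K' E Y : Finset α) : Set α) := by
        rw [key]
        apply Set.iUnion₂_congr
        intro F _
        rw [hφF F]
        have := (hP.closed_eq (X := (OrderDual.ofDual (ψ.symm F)).1) (by rw [hR']; exact hcl F)).1
        rw [hR'] at this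
        rw [this]
      rw [h1, h2, Set.ncard_coe_finset, Set.ncard_coe_finset]
      have h5 := h.dh2 Y
      have h6 := hs.swap.cov_card Y
      have h7 : nbr K' N' E Y = nbr K N E Y := by
        apply nbr_congr (R := fun j i => R i j)
        · rw [adj_swap, hR]
        · rw [adj_swap, hR']
      rw [h7] at h6
      omega

end

end Pool.Agent.H765
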