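import Pool.Agent.helper765_bt.Back

/-!
From a deformed configuration of cyclic flats to a matroid with a dual pair of presentations.
-/

open Finset

set_option linter.unusedSectionVars false

namespace Pool.Agent.H765

variable {α ι κ : Type*} [DecidableEq α] [DecidableEq ι] [DecidableEq κ]

/-- A deformation of the cyclic flats of `P`. -/
def Deform (P : Matroid α) (φ : {F : Set α // CycFlat P F} → Set α) : Prop :=
  (∀ F, φ F ⊆ P.E ∧ (φ F).ncard = F.1.ncard) ∧
    (∀ F G, φ F ⊆ φ G ↔ F.1 ⊆ G.1) ∧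
    ∀ 𝓕 : Set {F : Set α // CycFlat P F}, 𝓕.Nonempty →
      (⋂ F ∈ 𝓕, φ F).ncard ≤ (⋂ F ∈ 𝓕, F.1).ncard ∧
      (⋃ F ∈ 𝓕, F.1).ncard ≤ (⋃ F ∈ 𝓕, φ F).ncard

/-- the cyclic flats of `M` are the sets `φ F`, of the rank of `F` -/
def Realizes (M P : Matroid α) (φ : {F : Set α // CycFlat P F} → Set α) : Prop :=
  M.E = P.E ∧ (∀ G, CycFlat M G ↔ ∃ F, φ F = G) ∧ ∀ F, M.eRk (φ F) = P.eRk F.1

/-- a deformation of the cyclic flats of the matroid of a system is realized -/
theorem Sys.construct [Fintype ι] [Fintype κ] {P : Matroid α} {N' : α → Finset ι}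
    {K' : α → Finset κ} {E : Finset α} (hP : Sys P N' K' E)
    {φ : {F : Set α // CycFlat P F} → Set α} (hφ : Deform P φ) :
    ∃ (M : Matroid α) (N : α → Finset ι) (K : α → Finset κ), Sys M N K E ∧ Realizes M P φ := by
  classical
  obtain ⟨hφ1, hφ2, hφ3⟩ := hφ
  set R := Adj N' K' E with hR
  obtain ⟨ψ, hψ⟩ := hP.exists_iso (R := R) rfl
  choose cl hcl hicl hclR hclmin using cl_below R
  choose ab hab habR using cl_above R
  -- the two families of cyclic flats
  set F : ι → {F : Set α // CycFlat P F} := fun i => ψ (OrderDual.toDual ⟨cl i, hcl i⟩) with hF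
  set G : κ → {F : Set α // CycFlat P F} := fun j => ψ (OrderDual.toDual ⟨ab j, hab j⟩) with hG
  have hFG : ∀ i j, φ (G j) ⊆ φ (F i) ↔ ¬ R i j := by
    intro i j
    rw [hφ2]
    have h1 : (G j).1 ⊆ (F i).1 ↔ G j ≤ F i := Iff.rfl
    rw [h1, hF, hG]
    rw [OrderIso.le_iff_le, OrderDual.toDual_le_toDual, ← Subtype.coe_le_coe]
    show cl i ⊆ ab j ↔ _
    constructor
    · intro h
      exact (habR j i).1 (h (hicl i))
    · intro h i' hi'
      exact (habR j i').2 (fun h' => h (hclR i i' hi' j h'))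
  have hground : ∀ F0 : {F : Set α // CycFlat P F}, φ F0 ⊆ (E : Set α) := by
    intro F0
    rw [hP.ground]; exact (hφ1 F0).1
  -- the families of the index sets
  set N : α → Finset ι := fun e => Finset.univ.filter (fun i => e ∈ E ∧ e ∉ φ (F i)) with hN
  set K : α → Finset κ := fun e => Finset.univ.filter (fun j => e ∈ φ (G j)) with hK
  have memN : ∀ e i, i ∈ N e ↔ e ∈ E ∧ e ∉ φ (F i) := by
    intro e i
    rw [hN, Finset.mem_filter]
    exact ⟨fun h => h.2, fun h => ⟨Finset.mem_univ _, h⟩⟩
  have memK : ∀ e j, j ∈ K e ↔ e ∈ φ (G j) := by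
    intro e j
    rw [hK, Finset.mem_filter]
    exact ⟨fun h => h.2, fun h => ⟨Finset.mem_univ _, h⟩⟩
  have hadj : Adj N K E = R := by
    funext i j
    apply propext
    constructor
    · rintro ⟨e, _, h1, h2⟩
      by_contra hR'
      rw [memN] at h1
      rw [memK] at h2
      exact h1.2 ((hFG i j).2 hR' h2)
    · intro hR'
      have h1 : ¬ φ (G j) ⊆ φ (F i) := fun h => (hFG i j).1 h hR'
      rw [Set.not_subset] at h1
      obtain ⟨e, he1, he2⟩ := h1
      have heE : e ∈ E := by exact_mod_cast hground (G j) he1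
      exact ⟨e, heE, (memN _ _).2 ⟨heE, he2⟩, (memK _ _).2 he1⟩
  have hnbr : ∀ X, nbr N' K' E X = nbr N K E X := nbr_congr hadj rfl
  have hnbr' : ∀ Y, nbr K' N' E Y = nbr K N E Y := by
    apply nbr_congr (R := fun j i => R i j)
    · rw [adj_swap, hadj]
    · rw [adj_swap]
  -- the first Hall type inequality
  have hdh1 : DH N K E := by
    intro X
    by_cases hX : X.Nonempty
    · obtain ⟨i0, hi0⟩ := hX
      have h1 := (hφ3 (F '' (X : Set ι)) ⟨F i0, i0, by exact_mod_cast hi0, rfl⟩).1
      rw [Set.biInter_image, Set.biInter_image] at h1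
      have h2 : (⋂ i ∈ (X : Set ι), φ (F i)) = ((E \ cov N E X : Finset α) : Set α) := by
        ext e
        simp only [Set.mem_iInter, Finset.mem_coe, Finset.mem_sdiff]
        constructor
        · intro h
          have heE : e ∈ E := by exact_mod_cast hground (F i0) (h i0 hi0)
          refine ⟨heE, fun h' => ?_⟩
          rw [mem_cov] at h'
          obtain ⟨_, i, h3, h4⟩ := h'
          exact ((memN _ _).1 h3).2 (h i h4)
        · rintro ⟨heE, h⟩ i hi
          by_contra hcon
          exact h (mem_cov.2 ⟨heE, i, (memN _ _).2 ⟨heE, hcon⟩, hi⟩)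
      have h3 : (⋂ i ∈ (X : Set ι), (F i).1) ⊆ ((E \ cov N' E X : Finset α) : Set α) := by
        intro e
        simp only [Set.mem_iInter, Finset.mem_coe, Finset.mem_sdiff]
        intro h
        have h4 : ∀ i ∈ X, e ∈ E \ cov N' E (cl i) := by
          intro i hi
          have h5 := h i hi
          rw [hF] at h5
          rw [hψ] at h5
          exact_mod_cast h5
        refine ⟨(Finset.mem_sdiff.1 (h4 i0 hi0)).1, fun h5 => ?_⟩
        rw [mem_cov] at h5
        obtain ⟨h6, i, h7, h8⟩ := h5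
        exact (Finset.mem_sdiff.1 (h4 i h8)).2 (mem_cov.2 ⟨h6, i, h7, hicl i⟩)
      have h4 := Set.ncard_le_ncard h3 (Finset.finite_toSet _)
      rw [h2] at h1
      rw [Set.ncard_coe_finset] at h1 h4
      have h5 := card_sdiff_cov N E X
      have h6 := card_sdiff_cov N' E X
      have h7 := hP.dh1 X
      rw [hnbr] at h7
      omega
    · rw [Finset.not_nonempty_iff_eq_empty] at hX
      rw [hX]
      simp [nbr, cov]
  -- the second Hall type inequality
  have hdh2 : DH K N E := by
    intro Y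
    by_cases hY : Y.Nonempty
    · obtain ⟨j0, hj0⟩ := hY
      have h1 := (hφ3 (G '' (Y : Set κ)) ⟨G j0, j0, by exact_mod_cast hj0, rfl⟩).2
      rw [Set.biUnion_image, Set.biUnion_image] at h1
      have h2 : (⋃ j ∈ (Y : Set κ), φ (G j)) = ((cov K E Y : Finset α) : Set α) := by
        ext e
        simp only [Set.mem_iUnion, Finset.mem_coe]
        constructor
        · rintro ⟨j, hj, h⟩
          exact mem_cov.2 ⟨by exact_mod_cast hground (G j) h, j, (memK _ _).2 h, hj⟩
        · intro h
          rw [mem_cov] at h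
          obtain ⟨_, j, h3, h4⟩ := h
          exact ⟨j, h4, (memK _ _).1 h3⟩
      have h3 : ((cov K' E Y : Finset α) : Set α) ⊆ (⋃ j ∈ (Y : Set κ), (G j).1) := by
        intro e
        simp only [Set.mem_iUnion, Finset.mem_coe]
        intro h
        rw [mem_cov] at h
        obtain ⟨heE, j, h4, h5⟩ := h
        refine ⟨j, h5, ?_⟩
        rw [hG]
        rw [hψ]
        have h6 : e ∈ E \ cov N' E (ab j) := by
          rw [Finset.mem_sdiff]
          refine ⟨heE, fun h7 => ?_⟩
          rw [mem_cov] at h7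
          obtain ⟨_, i, h8, h9⟩ := h7
          exact (habR j i).1 h9 ⟨e, heE, h8, h4⟩
        exact_mod_cast h6
      have hfin : (⋃ j ∈ (Y : Set κ), (G j).1).Finite := by
        apply Set.Finite.subset (E.finite_toSet)
        intro e
        simp only [Set.mem_iUnion]
        rintro ⟨j, _, h⟩
        rw [hP.ground]
        exact (G j).2.1.subset_ground h
      have h4 := Set.ncard_le_ncard h3 hfin
      rw [h2] at h1
      rw [Set.ncard_coe_finset] at h1 h4
      have h7 := hP.dh2 Y
      rw [hnbr'] at h7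
      omega
    · rw [Finset.not_nonempty_iff_eq_empty] at hY
      rw [hY]
      simp [nbr, cov]
  -- the matroid
  obtain ⟨M, hME, hpres⟩ := exists_pres N E (by
    rintro e ⟨i, hi⟩
    exact ((memN _ _).1 hi).1)
  have hKE : ∀ e, (K e).Nonempty → e ∈ E := by
    rintro e ⟨j, hj⟩
    exact_mod_cast hground (G j) ((memK _ _).1 hj)
  have hsys : Sys M N K E :=
    ⟨hME.symm, hpres, (dual_of_DH hME.symm hpres hKE hP.card hdh1 hdh2).1, hP.card, hdh1, hdh2⟩
  -- the cyclic flats
  have hflat : ∀ X : {X : Finset ι // Cl R X},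
      φ (ψ (OrderDual.toDual X)) = ((E \ cov N E X.1 : Finset α) : Set α) := by
    intro X
    have h1 : φ (ψ (OrderDual.toDual X)) ⊆ ((E \ cov N E X.1 : Finset α) : Set α) := by
      intro e he
      have heE : e ∈ E := by exact_mod_cast hground _ he
      rw [Finset.mem_coe, Finset.mem_sdiff]
      refine ⟨heE, fun h => ?_⟩
      rw [mem_cov] at h
      obtain ⟨_, i, h2, h3⟩ := h
      apply ((memN _ _).1 h2).2
      have h4 : φ (ψ (OrderDual.toDual X)) ⊆ φ (F i) := by
        rw [hφ2]
        have h5 : (ψ (OrderDual.toDual X)).1 ⊆ (F i).1 ↔ ψ (OrderDual.toDual X) ≤ F i := Iff.rfl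
        rw [h5, hF]
        rw [OrderIso.le_iff_le, OrderDual.toDual_le_toDual, ← Subtype.coe_le_coe]
        exact hclmin i X.1 X.2 h3
      exact h4 he
    apply Set.eq_of_subset_of_ncard_le h1 _ (Finset.finite_toSet _)
    rw [(hφ1 _).2, hψ, Set.ncard_coe_finset, Set.ncard_coe_finset]
    have h2 := hsys.closed_eq (X := X.1) (by rw [hadj]; exact X.2)
    rw [hadj] at h2
    have h3 : E \ cov N' E X.1 = cov K' E (pol R X.1) ∧
        (cov N' E X.1).card = X.1.card + (nbr N' K' E X.1).card ∧
        (cov K' E (pol R X.1)).card + X.1.card = Fintype.card ι + (pol R X.1).card :=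
      hP.closed_eq (X := X.1) X.2
    have h4 : (OrderDual.ofDual (OrderDual.toDual X)).1 = X.1 := rfl
    rw [h4, h2.1, h3.1]
    have h5 := h2.2.2
    have h6 := h3.2.2
    omega
  have hrk : ∀ X : {X : Finset ι // Cl R X},
      M.eRk (φ (ψ (OrderDual.toDual X))) = P.eRk (ψ (OrderDual.toDual X)).1 := by
    intro X
    rw [hflat, hψ, hsys.eRk_eq (X := X.1) (by rw [hadj]; exact X.2)]
    exact (hP.eRk_eq (X := X.1) X.2).symm
  refine ⟨M, N, K, hsys, hME.trans hP.ground, ?_, ?_⟩
  · intro G0
    constructor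
    · intro hG0
      obtain ⟨X, hX, hXG⟩ := hsys.exists_closed hG0
      rw [hadj] at hX
      exact ⟨ψ (OrderDual.toDual ⟨X, hX⟩), by rw [hflat, hXG]⟩
    · rintro ⟨F0, rfl⟩
      obtain ⟨X, rfl⟩ := ψ.surjective F0
      obtain ⟨X, rfl⟩ := OrderDual.toDual.surjective X
      rw [hflat]
      exact hsys.cycFlat (by rw [hadj]; exact X.2)
  · intro F0
    obtain ⟨X, rfl⟩ := ψ.surjective F0
    obtain ⟨X, rfl⟩ := OrderDual.toDual.surjective X
    exact hrk X

/-- a matroid is determined by its cyclic flats and their ranks -/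
theorem Realizes.unique {M M' P : Matroid α} (hP : P.Finite)
    {φ : {F : Set α // CycFlat P F} → Set α} (h : Realizes M P φ) (h' : Realizes M' P φ) :
    M = M' := by
  have key : ∀ {M M' : Matroid α}, Realizes M P φ → Realizes M' P φ →
      ∀ I, M.Indep I → M'.Indep I := by
    intro M M' h h' I hI
    have hM' : M'.Finite := ⟨by rw [h'.1]; exact P.ground_finite⟩
    apply indep_of_cycFlat hM'
    · rw [h'.1, ← h.1]; exact hI.subset_ground
    · intro F hF
      obtain ⟨F0, rfl⟩ := (h'.2.1 F).1 hF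
      rw [h'.2.2, ← h.2.2, ← (hI.subset Set.inter_subset_left).eRk_eq_encard]
      exact M.eRk_mono Set.inter_subset_right
  apply Matroid.ext_indep (h.1.trans h'.1.symm)
  intro I _
  exact ⟨key h h' I, key h' h I⟩

end Pool.Agent.H765
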