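import Pool.Agent.helper765_bt.Sys

/-!
Every cyclic flat comes from a closed set of indices.
-/

open Finset

set_option linter.unusedSectionVars false

namespace Pool.Agent.H765

variable {α ι κ : Type*} [DecidableEq α] [DecidableEq ι] [DecidableEq κ]

/-- a minimal non-matchable set has more elements than indices, in a strong form -/
theorem circuit_cov {N : α → Finset ι} {C : Finset α} (hC : ¬ Mt N C)
    (hmin : ∀ D ⊂ C, Mt N D) {T : Finset ι} (hT : T ⊆ C.biUnion N) (hT0 : T.Nonempty) :
    T.card + 1 ≤ (cov N C T).card := by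
  have h1 : (C.biUnion N).card < C.card := by
    unfold Mt at hC
    push Not at hC
    obtain ⟨D, hD, hlt⟩ := hC
    by_cases hDC : D = C
    · rw [hDC] at hlt; exact hlt
    · have := hmin D (Finset.ssubset_iff_subset_ne.2 ⟨hD, hDC⟩) D subset_rfl
      omega
  have h2 : C \ cov N C T ⊂ C := by
    rw [Finset.ssubset_iff_subset_ne]
    refine ⟨Finset.sdiff_subset, ?_⟩
    intro h
    obtain ⟨i, hi⟩ := hT0
    have := hT hi
    rw [Finset.mem_biUnion] at this
    obtain ⟨e, he, hie⟩ := this
    rw [← h, Finset.mem_sdiff] at he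
    exact he.2 (mem_cov.2 ⟨he.1, i, hie, hi⟩)
  have h3 := hmin _ h2 _ subset_rfl
  have h4 : (C \ cov N C T).biUnion N ⊆ (C.biUnion N) \ T := by
    intro i hi
    rw [Finset.mem_biUnion] at hi
    obtain ⟨e, he, hie⟩ := hi
    rw [Finset.mem_sdiff] at he ⊢
    refine ⟨Finset.mem_biUnion.2 ⟨e, he.1, hie⟩, fun hiT => ?_⟩
    exact he.2 (mem_cov.2 ⟨he.1, i, hie, hiT⟩)
  have h5 := Finset.card_le_card h4
  rw [Finset.card_sdiff_of_subset hT] at h5
  have h6 : (C \ cov N C T).card = C.card - (cov N C T).card :=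
    Finset.card_sdiff_of_subset (Finset.filter_subset _ _)
  have h7 : (cov N C T).card ≤ C.card := Finset.card_le_card (Finset.filter_subset _ _)
  have h8 := Finset.card_le_card hT
  omega

/-- a union of minimal non-matchable sets has a matchable subset that uses all its indices -/
theorem tight_of_circuits {N : α → Finset ι} {F : Finset α}
    (h : ∀ e ∈ F, ∃ C ⊆ F, ¬ Mt N C ∧ (∀ D ⊂ C, Mt N D) ∧ e ∈ C) :
    ∀ (n : ℕ) (T : Finset ι), T.card = n → T ⊆ F.biUnion N → T.card ≤ (cov N F T).card := by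
  intro n
  induction n using Nat.strong_induction_on with
  | _ n ih =>
    intro T hTn hT
    by_cases hT0 : T.Nonempty
    · obtain ⟨i, hi⟩ := hT0
      have := hT hi
      rw [Finset.mem_biUnion] at this
      obtain ⟨e, he, hie⟩ := this
      obtain ⟨C, hCF, hC, hmin, heC⟩ := h e he
      set T1 := T ∩ C.biUnion N with hT1
      set T2 := T \ C.biUnion N with hT2
      have hiT1 : i ∈ T1 := Finset.mem_inter.2 ⟨hi, Finset.mem_biUnion.2 ⟨e, heC, hie⟩⟩
      have h1 := circuit_cov hC hmin (T := T1) Finset.inter_subset_right ⟨i, hiT1⟩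
      have hcard : T2.card + T1.card = T.card := Finset.card_sdiff_add_card_inter _ _
      have hT1pos : 0 < T1.card := Finset.card_pos.2 ⟨i, hiT1⟩
      have h2 := ih T2.card (by omega) T2 rfl (Finset.sdiff_subset.trans hT)
      have hdisj : Disjoint (cov N C T1) (cov N F T2) := by
        rw [Finset.disjoint_left]
        intro f hf1 hf2
        rw [mem_cov] at hf1 hf2
        obtain ⟨hfC, _⟩ := hf1
        obtain ⟨_, k, hk, hkT⟩ := hf2
        rw [hT2, Finset.mem_sdiff] at hkT
        exact hkT.2 (Finset.mem_biUnion.2 ⟨f, hfC, hk⟩)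
      have h3 : cov N C T1 ∪ cov N F T2 ⊆ cov N F T := by
        intro f hf
        rw [Finset.mem_union] at hf
        rcases hf with hf | hf
        · rw [mem_cov] at hf ⊢
          obtain ⟨hfC, k, hk, hkT⟩ := hf
          exact ⟨hCF hfC, k, hk, (Finset.mem_inter.1 hkT).1⟩
        · rw [mem_cov] at hf ⊢
          obtain ⟨hfF, k, hk, hkT⟩ := hf
          exact ⟨hfF, k, hk, (Finset.mem_sdiff.1 hkT).1⟩
      have h4 := Finset.card_le_card h3
      rw [Finset.card_union_of_disjoint hdisj] at h4
      omega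
    · rw [Finset.not_nonempty_iff_eq_empty] at hT0
      rw [hT0]; simp

/-- a cyclic flat of a presented matroid is the complement of the elements that have an index which
does not occur on it -/
theorem Pres.cycFlat_eq [Fintype ι] {M : Matroid α} {N : α → Finset ι} {E : Finset α}
    (hE : (E : Set α) = M.E) (h : Pres M N) {F : Finset α} (hF : CycFlat M (F : Set α)) :
    F = E \ cov N E (F.biUnion N)ᶜ := by
  have hFE : F ⊆ E := by
    rw [← Finset.coe_subset, hE]; exact hF.1.subset_ground
  have hcirc : ∀ e ∈ F, ∃ C ⊆ F, ¬ Mt N C ∧ (∀ D ⊂ C, Mt N D) ∧ e ∈ C := by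
    intro e he
    obtain ⟨C, hC, hCF, heC⟩ := hF.2 e (by exact_mod_cast he)
    have hfin : C.Finite := F.finite_toSet.subset hCF
    refine ⟨hfin.toFinset, ?_, ?_, ?_, ?_⟩
    · intro f hf
      rw [Set.Finite.mem_toFinset] at hf
      exact_mod_cast hCF hf
    · intro hmt
      have := (h _).2 hmt
      rw [hfin.coe_toFinset] at this
      exact hC.not_indep this
    · intro D hD
      rw [← h]
      apply hC.ssubset_indep
      rw [← Finset.coe_ssubset, hfin.coe_toFinset] at hD
      exact hD
    · rw [Set.Finite.mem_toFinset]; exact heC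
  obtain ⟨P, hPF, hPc, hP⟩ := exists_mt_compl (N := N) (X := (F.biUnion N)ᶜ) (W := F) (by
    intro T hT
    apply tight_of_circuits hcirc _ T rfl
    intro i hi
    by_contra hcon
    exact Finset.disjoint_left.1 hT hi (Finset.mem_compl.2 hcon))
  rw [Finset.card_compl] at hPc
  have hle := Finset.card_le_univ (F.biUnion N)
  apply Finset.Subset.antisymm
  · intro e he
    rw [Finset.mem_sdiff]
    refine ⟨hFE he, fun hcov => ?_⟩
    obtain ⟨_, i, hi, hiX⟩ := mem_cov.1 hcov
    rw [Finset.mem_compl] at hiX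
    exact hiX (Finset.mem_biUnion.2 ⟨e, he, hi⟩)
  · intro e he
    rw [Finset.mem_sdiff] at he
    obtain ⟨heE, hcov⟩ := he
    have hsub : N e ⊆ F.biUnion N := by
      intro i hi
      by_contra hcon
      exact hcov (mem_cov.2 ⟨heE, i, hi, Finset.mem_compl.2 hcon⟩)
    by_contra heF
    have heP : e ∉ P := fun h' => heF (hPF h')
    have hPind := (h P).2 hP
    have hnot : ¬ M.Indep (insert e (P : Set α)) := by
      intro hind
      rw [← Finset.coe_insert, h] at hind
      have h1 := hind _ subset_rfl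
      rw [Finset.card_insert_of_notMem heP] at h1
      have h2 : (insert e P).biUnion N ⊆ F.biUnion N := by
        intro i hi
        rw [Finset.mem_biUnion] at hi
        obtain ⟨f, hf, hif⟩ := hi
        rw [Finset.mem_insert] at hf
        rcases hf with rfl | hf
        · exact hsub hif
        · exact Finset.mem_biUnion.2 ⟨f, hPF hf, hif⟩
      have h3 := Finset.card_le_card h2
      omega
    have hcl : e ∈ M.closure (P : Set α) := by
      by_contra hncl
      exact hnot ((hPind.notMem_closure_iff_of_notMem (by exact_mod_cast heP)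
        (by rw [← hE]; exact_mod_cast heE)).1 hncl)
    have hcl2 : e ∈ M.closure (F : Set α) :=
      M.closure_subset_closure (by exact_mod_cast hPF) hcl
    rw [hF.1.closure] at hcl2
    exact heF (by exact_mod_cast hcl2)

section

variable [Fintype ι] [Fintype κ] {M : Matroid α} {N : α → Finset ι} {K : α → Finset κ}
  {E : Finset α}

theorem Sys.exists_closed (h : Sys M N K E) {F : Set α} (hF : CycFlat M F) :
    ∃ X : Finset ι, Cl (Adj N K E) X ∧ ((E \ cov N E X : Finset α) : Set α) = F := by
  have hfin : F.Finite := E.finite_toSet.subset (by rw [h.ground]; exact hF.1.subset_ground)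
  obtain ⟨F, rfl⟩ : ∃ F' : Finset α, (F' : Set α) = F := ⟨hfin.toFinset, hfin.coe_toFinset⟩
  have hFE : F ⊆ E := by
    rw [← Finset.coe_subset, h.ground]; exact hF.1.subset_ground
  have h1 := h.pres.cycFlat_eq h.ground hF
  have hFd : CycFlat M✶ ((E \ F : Finset α) : Set α) := by
    rw [Finset.coe_sdiff, h.ground]; exact hF.dual
  have h2 := h.dual.pres.cycFlat_eq h.dual.ground hFd
  refine ⟨(F.biUnion N)ᶜ, ?_, by rw [← h1]⟩
  intro i hi
  rw [Finset.mem_compl, Finset.mem_biUnion]
  rintro ⟨e, he, hie⟩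
  have heF : e ∉ E \ F := fun h' => (Finset.mem_sdiff.1 h').2 he
  rw [h2, Finset.mem_sdiff, not_and, not_not] at heF
  obtain ⟨_, j, hj, hjY⟩ := mem_cov.1 (heF (hFE he))
  obtain ⟨i', hi', e', he', hie', hje'⟩ := hi j ⟨e, hFE he, hie, hj⟩
  rw [Finset.mem_compl, Finset.mem_biUnion] at hjY hi'
  by_cases he'F : e' ∈ F
  · exact hi' ⟨e', he'F, hie'⟩
  · exact hjY ⟨e', Finset.mem_sdiff.2 ⟨he', he'F⟩, hje'⟩

theorem Sys.subset_iff (h : Sys M N K E) {X X' : Finset ι} (hX : Cl (Adj N K E) X) :
    E \ cov N E X ⊆ E \ cov N E X' ↔ X' ⊆ X := by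
  constructor
  · intro hs i hi
    by_contra hiX
    have h1 : ¬ ∀ j ∈ pol (Adj N K E) X, ¬ Adj N K E i j := fun h' => hiX (hX.mem_iff.2 h')
    push Not at h1
    obtain ⟨j, hj, e, he, hie, hje⟩ := h1
    have he1 : e ∈ E \ cov N E X := by
      rw [(h.closed_eq hX).1]
      exact mem_cov.2 ⟨he, j, hje, hj⟩
    have he2 := Finset.mem_sdiff.1 (hs he1)
    exact he2.2 (mem_cov.2 ⟨he, i, hie, hi⟩)
  · intro hs e he
    rw [Finset.mem_sdiff] at he ⊢
    refine ⟨he.1, fun h' => he.2 ?_⟩
    rw [mem_cov] at h' ⊢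
    obtain ⟨h1, i, h2, h3⟩ := h'
    exact ⟨h1, i, h2, hs h3⟩

/-- the cyclic flats and the closed sets of indices -/
noncomputable def Sys.iso (h : Sys M N K E) :
    {X : Finset ι // Cl (Adj N K E) X}ᵒᵈ ≃o {F : Set α // CycFlat M F} where
  toFun X := ⟨((E \ cov N E (OrderDual.ofDual X).1 : Finset α) : Set α),
    h.cycFlat (OrderDual.ofDual X).2⟩
  invFun F := OrderDual.toDual ⟨(h.exists_closed F.2).choose, (h.exists_closed F.2).choose_spec.1⟩
  left_inv := by
    intro X
    obtain ⟨X, rfl⟩ := OrderDual.toDual.surjective X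
    apply OrderDual.ofDual.injective
    apply Subtype.ext
    have h1 := (h.exists_closed (h.cycFlat X.2)).choose_spec
    have h2 := h1.2
    rw [Finset.coe_inj] at h2
    apply Finset.Subset.antisymm
    · exact (h.subset_iff X.2).1 h2.symm.subset
    · exact (h.subset_iff h1.1).1 h2.subset
  right_inv := by
    intro F
    exact Subtype.ext (h.exists_closed F.2).choose_spec.2
  map_rel_iff' := by
    intro X X'
    obtain ⟨X, rfl⟩ := OrderDual.toDual.surjective X
    obtain ⟨X', rfl⟩ := OrderDual.toDual.surjective X'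
    rw [OrderDual.toDual_le_toDual, ← Subtype.coe_le_coe, ← Subtype.coe_le_coe]
    simp only [Equiv.coe_fn_mk, OrderDual.ofDual_toDual]
    rw [Finset.coe_subset, h.subset_iff X.2]

theorem Sys.iso_coe (h : Sys M N K E) (X : {X : Finset ι // Cl (Adj N K E) X}) :
    (h.iso (OrderDual.toDual X)).1 = ((E \ cov N E X.1 : Finset α) : Set α) := rfl

end

end Pool.Agent.H765
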