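import Mathlib

/-!
Cyclic flats of a matroid: duality, determination of the matroid.
-/

open Set

namespace Pool.Agent.H765

variable {α : Type*}

/-- A cyclic flat: a flat that is a union of circuits. -/
def CycFlat (M : Matroid α) (F : Set α) : Prop :=
  M.IsFlat F ∧ ∀ e ∈ F, ∃ C, M.IsCircuit C ∧ C ⊆ F ∧ e ∈ C

theorem isFlat_of_forall {M : Matroid α} {F : Set α} (hF : F ⊆ M.E)
    (h : ∀ e ∈ M.E, e ∉ F → e ∉ M.closure F) : M.IsFlat F := by
  rw [Matroid.isFlat_iff_closure_eq]
  apply Set.Subset.antisymm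
  · intro e he
    by_contra heF
    exact h e (Matroid.mem_ground_of_mem_closure he) heF he
  · exact M.subset_closure F hF

/-- the complement of a flat is a union of cocircuits -/
theorem exists_cocircuit_of_flat {M : Matroid α} {F : Set α} (hF : M.IsFlat F) {e : α}
    (he : e ∈ M.E) (heF : e ∉ F) : ∃ K, M.IsCocircuit K ∧ K ⊆ M.E \ F ∧ e ∈ K := by
  obtain ⟨I, hI⟩ := M.exists_isBasis F hF.subset_ground
  have hcl : M.closure I = F := by rw [hI.closure_eq_closure, hF.closure]
  have heI : e ∉ I := fun h => heF (hI.subset h)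
  have hins : M.Indep (insert e I) := by
    rw [hI.indep.insert_indep_iff_of_notMem heI]
    exact ⟨he, by rw [hcl]; exact heF⟩
  obtain ⟨K, hK, hKI⟩ := hins.exists_isCocircuit_inter_eq_mem (mem_insert e I)
  have heK : e ∈ K := (hKI.symm.subset rfl).1
  refine ⟨K, hK, ?_, heK⟩
  intro f hf
  refine ⟨hK.subset_ground hf, fun hfF => ?_⟩
  have hfI : f ∉ I := by
    intro hfI
    have : f ∈ K ∩ insert e I := ⟨hf, mem_insert_of_mem _ hfI⟩
    rw [hKI] at this
    exact heI (this ▸ hfI)
  obtain ⟨C, hCI, hC, hfC⟩ := Matroid.exists_isCircuit_of_mem_closure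
    (show f ∈ M.closure I by rw [hcl]; exact hfF) hfI
  apply hC.inter_isCocircuit_ne_singleton hK (e := f)
  apply Set.Subset.antisymm
  · rintro g ⟨hgC, hgK⟩
    rcases hCI hgC with rfl | hgI
    · rfl
    · exfalso
      have : g ∈ K ∩ insert e I := ⟨hgK, mem_insert_of_mem _ hgI⟩
      rw [hKI] at this
      exact heI (this ▸ hgI)
  · rintro g rfl
    exact ⟨hfC, hf⟩

/-- the complement of a union of circuits is a flat of the dual -/
theorem dual_flat_of_cyclic {M : Matroid α} {F : Set α}
    (h : ∀ e ∈ F, ∃ C, M.IsCircuit C ∧ C ⊆ F ∧ e ∈ C) : M✶.IsFlat (M.E \ F) := by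
  apply isFlat_of_forall
  · rw [Matroid.dual_ground]; exact sdiff_subset
  · intro e heE heF hcl
    rw [Matroid.dual_ground] at heE
    have heF' : e ∈ F := by
      by_contra h'
      exact heF ⟨heE, h'⟩
    obtain ⟨C, hC, hCF, heC⟩ := h e heF'
    obtain ⟨K, hKs, hK, heK⟩ := Matroid.exists_isCircuit_of_mem_closure hcl heF
    apply hC.inter_isCocircuit_ne_singleton (K := K) (e := e) hK
    apply Set.Subset.antisymm
    · rintro g ⟨hgC, hgK⟩
      rcases hKs hgK with rfl | hg
      · rfl
      · exact absurd (hCF hgC) hg.2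
    · rintro g rfl
      exact ⟨heC, heK⟩

/-- complements of cyclic flats are cyclic flats of the dual -/
theorem CycFlat.dual {M : Matroid α} {F : Set α} (h : CycFlat M F) : CycFlat M✶ (M.E \ F) := by
  refine ⟨dual_flat_of_cyclic h.2, ?_⟩
  rintro e ⟨heE, heF⟩
  obtain ⟨K, hK, hKs, heK⟩ := exists_cocircuit_of_flat h.1 heE heF
  exact ⟨K, hK, hKs, heK⟩

theorem cycFlat_closure_circuit {M : Matroid α} {C : Set α} (hC : M.IsCircuit C) :
    CycFlat M (M.closure C) := by
  refine ⟨M.isFlat_closure C, ?_⟩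
  intro e he
  by_cases heC : e ∈ C
  · exact ⟨C, hC, M.subset_closure C hC.subset_ground, heC⟩
  · obtain ⟨C', hC's, hC', heC'⟩ := Matroid.exists_isCircuit_of_mem_closure he heC
    refine ⟨C', hC', ?_, heC'⟩
    intro f hf
    rcases hC's hf with rfl | hf'
    · exact he
    · exact M.subset_closure C hC.subset_ground hf'

/-- independence is determined by the cyclic flats and their ranks -/
theorem indep_of_cycFlat {M : Matroid α} (hM : M.Finite) {I : Set α} (hI : I ⊆ M.E)
    (h : ∀ F, CycFlat M F → (I ∩ F).encard ≤ M.eRk F) : M.Indep I := by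
  by_contra hcon
  have hdep : M.Dep I := ⟨hcon, hI⟩
  obtain ⟨C, hCI, hC⟩ := hdep.exists_isCircuit_subset
  have h1 := h _ (cycFlat_closure_circuit hC)
  rw [M.eRk_closure_eq] at h1
  have h2 : C.encard ≤ (I ∩ M.closure C).encard :=
    encard_le_encard (subset_inter hCI (M.subset_closure C hC.subset_ground))
  have h3 := hC.eRk_add_one_eq
  have hfin : C.Finite := M.ground_finite.subset hC.subset_ground
  have h4 : M.eRk C ≠ ⊤ := by
    intro h5
    rw [h5, top_add] at h3
    exact hfin.encard_lt_top.ne h3.symm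
  have h5 : M.eRk C + 1 ≤ M.eRk C := by rw [h3]; exact h2.trans h1
  exact absurd h5 (not_le.2 (ENat.lt_add_one_iff h4 |>.2 le_rfl))

/-- the union of the circuits inside a flat -/
def cycPart (M : Matroid α) (U : Set α) : Set α := {e | ∃ C, M.IsCircuit C ∧ C ⊆ U ∧ e ∈ C}

theorem cycPart_subset {M : Matroid α} {U : Set α} : cycPart M U ⊆ U := by
  rintro e ⟨C, _, hCU, he⟩
  exact hCU he

theorem cycFlat_cycPart {M : Matroid α} {U : Set α} (hU : M.IsFlat U) :
    CycFlat M (cycPart M U) := by
  constructor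
  · apply isFlat_of_forall (cycPart_subset.trans hU.subset_ground)
    intro e heE he hcl
    obtain ⟨C, hCs, hC, heC⟩ := Matroid.exists_isCircuit_of_mem_closure hcl he
    apply he
    have heU : e ∈ U := by
      have := M.closure_subset_closure (cycPart_subset (M := M) (U := U)) hcl
      rwa [hU.closure] at this
    refine ⟨C, hC, ?_, heC⟩
    intro f hf
    rcases hCs hf with rfl | hf'
    · exact heU
    · exact cycPart_subset hf'
  · rintro e ⟨C, hC, hCU, he⟩
    exact ⟨C, hC, fun f hf => ⟨C, hC, hCU, hf⟩, he⟩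

theorem CycFlat.subset_cycPart {M : Matroid α} {F U : Set α} (hF : CycFlat M F) (hFU : F ⊆ U) :
    F ⊆ cycPart M U := by
  intro e he
  obtain ⟨C, hC, hCF, heC⟩ := hF.2 e he
  exact ⟨C, hC, hCF.trans hFU, heC⟩

end Pool.Agent.H765
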