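import Pool.Agent.helper765_bt.Hall

/-!
Dual pairs of presentations and the Hall type inequalities.
-/

open Finset

namespace Pool.Agent.H765

variable {α ι κ : Type*} [DecidableEq α] [DecidableEq ι] [DecidableEq κ]

/-- `M` is presented by the index sets `N e`. -/
def Pres (M : Matroid α) (N : α → Finset ι) : Prop := ∀ I : Finset α, M.Indep (I : Set α) ↔ Mt N I

omit [DecidableEq α] in
theorem Pres.mem_ground {M : Matroid α} {N : α → Finset ι} (h : Pres M N) {e : α}
    (he : (N e).Nonempty) : e ∈ M.E := by
  have h1 : Mt N {e} := by
    intro D hD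
    rw [Finset.subset_singleton_iff] at hD
    rcases hD with rfl | rfl
    · simp
    · rw [Finset.singleton_biUnion, Finset.card_singleton]
      exact Finset.card_pos.2 he
  have h2 := ((h {e}).2 h1).subset_ground
  exact h2 (by simp)

omit [DecidableEq α] in
theorem exists_isBase_finset (M : Matroid α) {E : Finset α} (hE : (E : Set α) = M.E) {I : Finset α}
    (hI : M.Indep (I : Set α)) : ∃ P : Finset α, I ⊆ P ∧ P ⊆ E ∧ M.IsBase (P : Set α) := by
  obtain ⟨B, hB, hIB⟩ := hI.exists_isBase_superset
  have hfin : B.Finite := (E.finite_toSet).subset (by rw [hE]; exact hB.subset_ground)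
  refine ⟨hfin.toFinset, ?_, ?_, ?_⟩
  · rw [← Finset.coe_subset, hfin.coe_toFinset]; exact hIB
  · rw [← Finset.coe_subset, hfin.coe_toFinset, hE]; exact hB.subset_ground
  · rw [hfin.coe_toFinset]; exact hB

omit [DecidableEq α] in
theorem isBase_card_eq {M : Matroid α} {P Q : Finset α} (hP : M.IsBase (P : Set α))
    (hQ : M.IsBase (Q : Set α)) : P.card = Q.card := by
  have := hP.encard_eq_encard_of_isBase hQ
  rw [Set.encard_coe_eq_coe_finsetCard, Set.encard_coe_eq_coe_finsetCard] at this
  exact_mod_cast this

omit [DecidableEq α] in
theorem indep_card_le {M : Matroid α} {P I : Finset α} (hP : M.IsBase (P : Set α))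
    (hI : M.Indep (I : Set α)) : I.card ≤ P.card := by
  obtain ⟨B, hB, hIB⟩ := hI.exists_isBase_superset
  have := hP.encard_eq_encard_of_isBase hB
  have h2 := Set.encard_le_encard hIB
  rw [← this, Set.encard_coe_eq_coe_finsetCard, Set.encard_coe_eq_coe_finsetCard] at h2
  exact_mod_cast h2

omit [DecidableEq α] in
theorem isBase_of_card {M : Matroid α} {E : Finset α} (hE : (E : Set α) = M.E) {P I : Finset α}
    (hP : M.IsBase (P : Set α)) (hI : M.Indep (I : Set α)) (hc : P.card ≤ I.card) :
    M.IsBase (I : Set α) := by
  obtain ⟨B, hIB, _, hB⟩ := exists_isBase_finset M hE hI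
  have h1 := isBase_card_eq hP hB
  have h2 : I = B := Finset.eq_of_subset_of_card_le hIB (by omega)
  rw [h2]; exact hB

/-- A presentation can be cut down to a presentation with as many indices as the rank. -/
theorem Pres.reduce {M : Matroid α} {N : α → Finset ι} (h : Pres M N) {P : Finset α}
    (hP : M.IsBase (P : Set α)) :
    ∃ J : Finset ι, J.card = P.card ∧ Pres M (fun e => N e ∩ J) := by
  obtain ⟨f, hf, hfN⟩ := (mt_iff N P).1 ((h P).1 hP.indep)
  set J : Finset ι := P.attach.image f with hJ
  have hJc : J.card = P.card := by
    rw [hJ, Finset.card_image_of_injective _ hf, Finset.card_attach]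
  refine ⟨J, hJc, ?_⟩
  intro I
  constructor
  · intro hI D hD
    by_contra hlt
    push Not at hlt
    have hDind : M.Indep (D : Set α) := hI.subset (by exact_mod_cast hD)
    -- elements of `P` matched to indices outside of the indices of `D`
    set P' : Finset α := P.filter (fun e => ∀ he : e ∈ P, f ⟨e, he⟩ ∉ D.biUnion N) with hP'
    have hDJ : (D.biUnion (fun e => N e ∩ J)) = D.biUnion N ∩ J := by
      ext i
      simp only [Finset.mem_biUnion, Finset.mem_inter]
      constructor
      · rintro ⟨e, he, h1, h2⟩; exact ⟨⟨e, he, h1⟩, h2⟩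
      · rintro ⟨⟨e, he, h1⟩, h2⟩; exact ⟨e, he, h1, h2⟩
    rw [hDJ] at hlt
    have hP'c : P.card ≤ P'.card + (D.biUnion N ∩ J).card := by
      have h1 : (P \ P').card ≤ (D.biUnion N ∩ J).card := by
        have h2 : ∀ e ∈ P \ P', ∃ he : e ∈ P, f ⟨e, he⟩ ∈ D.biUnion N := by
          intro e he
          rw [Finset.mem_sdiff, hP', Finset.mem_filter] at he
          obtain ⟨h1, h2⟩ := he
          push Not at h2
          exact h2 h1
        have h3 : ((P \ P').attach.image (fun e => f ⟨e.1, (Finset.mem_sdiff.1 e.2).1⟩)) ⊆
            D.biUnion N ∩ J := by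
          intro i hi
          rw [Finset.mem_image] at hi
          obtain ⟨e, _, rfl⟩ := hi
          rw [Finset.mem_inter]
          refine ⟨?_, ?_⟩
          · obtain ⟨_, h5⟩ := h2 e.1 e.2
            exact h5
          · rw [hJ, Finset.mem_image]
            exact ⟨_, Finset.mem_attach _ _, rfl⟩
        have h4 := Finset.card_le_card h3
        rw [Finset.card_image_of_injective, Finset.card_attach] at h4
        · exact h4
        · intro z w hzw
          have := hf hzw
          exact Subtype.ext (by simpa using this)
      have h2 := Finset.card_sdiff_add_card_inter P P'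
      have h3 : P ∩ P' = P' := Finset.inter_eq_right.2 (Finset.filter_subset _ _)
      rw [h3] at h2
      omega
    have hdisj : Disjoint D P' := by
      rw [Finset.disjoint_left]
      intro e he he'
      rw [hP', Finset.mem_filter] at he'
      exact he'.2 he'.1 (Finset.mem_biUnion.2 ⟨e, he, hfN _⟩)
    have hmt : Mt N (D ∪ P') := by
      intro C hC
      have hC1 : C = (C ∩ D) ∪ (C ∩ P') := by
        rw [← Finset.inter_union_distrib_left]
        exact (Finset.inter_eq_left.2 hC).symm
      have hC2 : C.card = (C ∩ D).card + (C ∩ P').card := by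
        conv_lhs => rw [hC1]
        exact Finset.card_union_of_disjoint
          (hdisj.mono Finset.inter_subset_right Finset.inter_subset_right)
      have hD1 : (C ∩ D).card ≤ ((C ∩ D).biUnion N).card :=
        (h D).1 hDind _ Finset.inter_subset_right
      set F : Finset ι := (C ∩ P').attach.image (fun e => f ⟨e.1,
        (Finset.mem_filter.1 (Finset.mem_inter.1 e.2).2).1⟩) with hF
      have hFc : F.card = (C ∩ P').card := by
        rw [hF, Finset.card_image_of_injective, Finset.card_attach]
        intro z w hzw
        have := hf hzw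
        exact Subtype.ext (by simpa using this)
      have hFN : F ⊆ C.biUnion N := by
        intro i hi
        rw [hF, Finset.mem_image] at hi
        obtain ⟨e, _, rfl⟩ := hi
        exact Finset.mem_biUnion.2 ⟨e.1, (Finset.mem_inter.1 e.2).1, hfN _⟩
      have hFD : Disjoint ((C ∩ D).biUnion N) F := by
        rw [Finset.disjoint_right]
        intro i hi hi'
        rw [hF, Finset.mem_image] at hi
        obtain ⟨e, _, rfl⟩ := hi
        obtain ⟨e, he2⟩ := e
        have he := (Finset.mem_inter.1 he2).2
        rw [hP', Finset.mem_filter] at he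
        apply he.2 he.1
        rw [Finset.mem_biUnion] at hi' ⊢
        obtain ⟨d, hd, hd'⟩ := hi'
        exact ⟨d, (Finset.mem_inter.1 hd).2, hd'⟩
      have hsub : (C ∩ D).biUnion N ∪ F ⊆ C.biUnion N := by
        apply Finset.union_subset _ hFN
        exact Finset.biUnion_subset_biUnion_of_subset_left _ Finset.inter_subset_left
      have := Finset.card_le_card hsub
      rw [Finset.card_union_of_disjoint hFD] at this
      omega
    have hind := (h (D ∪ P')).2 hmt
    have hle := indep_card_le hP hind
    rw [Finset.card_union_of_disjoint hdisj] at hle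
    omega
  · intro hI
    refine (h I).2 (fun D hD => (hI D hD).trans (Finset.card_le_card ?_))
    intro i hi
    rw [Finset.mem_biUnion] at hi ⊢
    obtain ⟨e, he, hi⟩ := hi
    exact ⟨e, he, (Finset.mem_inter.1 hi).1⟩

/-- the indices of the second family that occur on elements with an index in `X` -/
def nbr (N : α → Finset ι) (K : α → Finset κ) (E : Finset α) (X : Finset ι) : Finset κ :=
  (cov N E X).biUnion K

omit [DecidableEq α] in
theorem mem_nbr {N : α → Finset ι} {K : α → Finset κ} {E : Finset α} {X : Finset ι} {j : κ} :
    j ∈ nbr N K E X ↔ ∃ e ∈ E, (∃ i ∈ N e, i ∈ X) ∧ j ∈ K e := by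
  unfold nbr
  rw [Finset.mem_biUnion]
  constructor
  · rintro ⟨e, he, hj⟩
    rw [mem_cov] at he
    exact ⟨e, he.1, he.2, hj⟩
  · rintro ⟨e, he, h1, hj⟩
    exact ⟨e, mem_cov.2 ⟨he, h1⟩, hj⟩

/-- Hall type inequality: `X` indices of the first family and all indices of the second family that
meet them need at least that many elements. -/
def DH (N : α → Finset ι) (K : α → Finset κ) (E : Finset α) : Prop :=
  ∀ X : Finset ι, X.card + (nbr N K E X).card ≤ (cov N E X).card

/-- If the Hall type inequality holds for the first family and `Q ⊆ E` satisfies Hall's condition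
for the second family then `E \ Q` covers all indices of the first one. -/
theorem DH.perfect [Fintype ι] {N : α → Finset ι} {K : α → Finset κ} {E : Finset α}
    (h : DH N K E) {Q : Finset α} (hQ : Mt K Q) :
    ∃ P ⊆ E \ Q, P.card = Fintype.card ι ∧ Mt N P := by
  apply exists_perfect
  intro X
  have h1 := h X
  have h2 : (Q ∩ cov N E X).card ≤ (nbr N K E X).card := by
    refine (hQ _ Finset.inter_subset_left).trans (Finset.card_le_card ?_)
    intro j hj
    rw [Finset.mem_biUnion] at hj
    obtain ⟨e, he, hj⟩ := hj
    exact Finset.mem_biUnion.2 ⟨e, (Finset.mem_inter.1 he).2, hj⟩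
  have h3 : cov N E X ⊆ cov N (E \ Q) X ∪ (Q ∩ cov N E X) := by
    intro e he
    rw [Finset.mem_union]
    by_cases heQ : e ∈ Q
    · exact Or.inr (Finset.mem_inter.2 ⟨heQ, he⟩)
    · left
      rw [mem_cov] at he ⊢
      exact ⟨Finset.mem_sdiff.2 ⟨he.1, heQ⟩, he.2⟩
  have h4 := (Finset.card_le_card h3).trans (Finset.card_union_le _ _)
  omega

/-- **Sufficiency.** -/
theorem dual_of_DH [Fintype ι] [Fintype κ] {M : Matroid α} {N : α → Finset ι} {K : α → Finset κ}
    {E : Finset α} (hE : (E : Set α) = M.E) (hN : Pres M N) (hK : ∀ e, (K e).Nonempty → e ∈ E)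
    (hc : Fintype.card ι + Fintype.card κ = E.card) (h1 : DH N K E) (h2 : DH K N E) :
    Pres M✶ K ∧ (∀ P : Finset α, M.IsBase (P : Set α) → P.card = Fintype.card ι) := by
  obtain ⟨P0, hP0E, hP0c, hP0⟩ := h1.perfect (Q := ∅)
    (by intro D hD; rw [Finset.subset_empty] at hD; subst hD; simp)
  have hP0E' : P0 ⊆ E := hP0E.trans Finset.sdiff_subset
  have hbase : ∀ P : Finset α, M.Indep (P : Set α) → P.card = Fintype.card ι →
      M.IsBase (P : Set α) := by
    intro P hP hPc
    obtain ⟨B, hPB, _, hB⟩ := exists_isBase_finset M hE hP
    have := ((hN B).1 hB.indep).card_le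
    have h3 : P = B := Finset.eq_of_subset_of_card_le hPB (by omega)
    rw [h3]; exact hB
  have hP0b := hbase P0 ((hN P0).2 hP0) hP0c
  refine ⟨?_, fun P hP => (isBase_card_eq hP hP0b).trans hP0c⟩
  intro I
  rw [Matroid.dual_indep_iff_exists']
  constructor
  · rintro ⟨hIE, B, hB, hBI⟩
    have hfin : B.Finite := (E.finite_toSet).subset (by rw [hE]; exact hB.subset_ground)
    set B' := hfin.toFinset with hB'
    have hBc : (B' : Set α) = B := hfin.coe_toFinset
    rw [← hBc] at hB hBI
    have hBE : B' ⊆ E := by rw [← Finset.coe_subset, hE]; exact hB.subset_ground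
    have hIE' : I ⊆ E := by rw [← Finset.coe_subset, hE]; exact hIE
    -- use the second inequality with `P = B'`
    obtain ⟨Q, hQ, hQc, hQm⟩ := h2.perfect ((hN B').1 hB.indep)
    have hBcard : B'.card = Fintype.card ι := (isBase_card_eq hB hP0b).trans hP0c
    have hQeq : Q = E \ B' := by
      apply Finset.eq_of_subset_of_card_le hQ
      rw [Finset.card_sdiff_of_subset hBE]
      omega
    apply hQm.mono
    rw [hQeq]
    intro e he
    rw [Finset.mem_sdiff]
    refine ⟨hIE' he, fun heB => ?_⟩
    exact Set.disjoint_left.1 hBI (by exact_mod_cast he) (by exact_mod_cast heB)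
  · intro hI
    have hIE : I ⊆ E := by
      intro e he
      apply hK
      have := hI {e} (by simpa using he)
      rw [Finset.singleton_biUnion, Finset.card_singleton] at this
      exact Finset.card_pos.1 (by omega)
    obtain ⟨P, hP, hPc, hPm⟩ := h1.perfect hI
    refine ⟨by rw [← hE]; exact_mod_cast hIE, P, hbase P ((hN P).2 hPm) hPc, ?_⟩
    rw [Set.disjoint_left]
    intro e he heP
    exact (Finset.mem_sdiff.1 (hP (by exact_mod_cast heP))).2 (by exact_mod_cast he)

/-- **Necessity.** -/
theorem DH_of_dual [Fintype ι] [Fintype κ] {M : Matroid α} {N : α → Finset ι} {K : α → Finset κ}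
    {E : Finset α} (hE : (E : Set α) = M.E) (hN : Pres M N) (hK : Pres M✶ K)
    (hr : ∀ P : Finset α, M.IsBase (P : Set α) → P.card = Fintype.card ι)
    (hc : Fintype.card ι + Fintype.card κ = E.card) : DH N K E := by
  intro X
  have hE' : (E : Set α) = M✶.E := by rw [hE, Matroid.dual_ground]
  -- a basis of the complement of `cov X`
  obtain ⟨I₀, hI₀⟩ := M.exists_isBasis ((E \ cov N E X : Finset α) : Set α) (by
    rw [← hE]; exact_mod_cast Finset.sdiff_subset)
  have hfin : I₀.Finite := (Finset.finite_toSet _).subset hI₀.subset
  set I := hfin.toFinset with hIdef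
  have hIc : (I : Set α) = I₀ := hfin.coe_toFinset
  rw [← hIc] at hI₀
  have hIsub : I ⊆ E \ cov N E X := by exact_mod_cast hI₀.subset
  obtain ⟨P, hIP, hPE, hPb⟩ := exists_isBase_finset M hE hI₀.indep
  have hPI : ∀ e ∈ P, e ∉ cov N E X → e ∈ I := by
    intro e he hecov
    have h1 : M.Indep ((insert e I : Finset α) : Set α) := hPb.indep.subset (by
      intro z hz
      rw [Finset.mem_coe, Finset.mem_insert] at hz
      rcases hz with rfl | hz
      · exact_mod_cast he
      · exact_mod_cast hIP hz)
    have := hI₀.eq_of_subset_indep h1 (by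
      intro z hz; rw [Finset.mem_coe] at hz ⊢; exact Finset.mem_insert_of_mem hz) (by
      intro z hz
      rw [Finset.mem_coe, Finset.mem_insert] at hz
      rcases hz with rfl | hz
      · rw [Finset.mem_coe, Finset.mem_sdiff]; exact ⟨hPE he, hecov⟩
      · exact_mod_cast hIsub hz)
    rw [Finset.coe_inj] at this
    rw [this]; exact Finset.mem_insert_self _ _
  have hPcard := hr P hPb
  have hPX := ((hN P).1 hPb.indep).card_le_cov hPE hPcard X
  set Q := E \ P with hQdef
  have hQb : M✶.IsBase (Q : Set α) := by
    have := hPb.compl_isBase_dual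
    rw [← hE, ← Finset.coe_sdiff] at this
    exact this
  have hQcard : Q.card = Fintype.card κ := by
    rw [hQdef, Finset.card_sdiff_of_subset hPE]; omega
  obtain ⟨g, hg, hgK⟩ := (mt_iff K Q).1 ((hK Q).1 hQb.indep)
  have hgs : Function.Surjective g := by
    have : Function.Bijective g := by
      rw [Fintype.bijective_iff_injective_and_card]
      refine ⟨hg, ?_⟩
      rw [Fintype.card_coe, hQcard]
    exact this.2
  -- bases containing `I` avoid the rest of the complement of `cov X`
  have hstar : ∀ q ∈ Q, q ∉ cov N E X → ∀ y ∈ P, y ∉ I → ¬ Mt K (insert y (Q.erase q)) := by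
    intro q hq hqc y hy hyI hmt
    have hb : M✶.IsBase ((insert y (Q.erase q) : Finset α) : Set α) := by
      apply isBase_of_card hE' hQb ((hK _).2 hmt)
      rw [Finset.card_insert_of_notMem, Finset.card_erase_of_mem hq]
      · have : 0 < Q.card := Finset.card_pos.2 ⟨q, hq⟩
        omega
      · intro h
        have := Finset.mem_of_mem_erase h
        rw [hQdef, Finset.mem_sdiff] at this
        exact this.2 hy
    have hb' : M.IsBase (M.E \ ((insert y (Q.erase q) : Finset α) : Set α)) := by
      have := hb.compl_isBase_of_dual
      exact this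
    have hqE : q ∈ E := (Finset.mem_sdiff.1 hq).1
    have h1 : M.Indep ((insert q I : Finset α) : Set α) := hb'.indep.subset (by
      intro z hz
      rw [Finset.mem_coe, Finset.mem_insert] at hz
      rw [← hE]
      rcases hz with rfl | hz
      · refine ⟨by exact_mod_cast hqE, ?_⟩
        intro h
        rw [Finset.mem_coe, Finset.mem_insert] at h
        rcases h with rfl | h
        · rw [hQdef, Finset.mem_sdiff] at hq
          exact hq.2 hy
        · exact (Finset.mem_erase.1 h).1 rfl
      · refine ⟨by exact_mod_cast hPE (hIP hz), ?_⟩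
        intro h
        rw [Finset.mem_coe, Finset.mem_insert] at h
        rcases h with rfl | h
        · exact hyI hz
        · have := Finset.mem_of_mem_erase h
          rw [hQdef, Finset.mem_sdiff] at this
          exact this.2 (hIP hz))
    have := hI₀.eq_of_subset_indep h1 (by
      intro z hz; rw [Finset.mem_coe] at hz ⊢; exact Finset.mem_insert_of_mem hz) (by
      intro z hz
      rw [Finset.mem_coe, Finset.mem_insert] at hz
      rcases hz with rfl | hz
      · rw [Finset.mem_coe, Finset.mem_sdiff]; exact ⟨hqE, hqc⟩
      · exact_mod_cast hIsub hz)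
    rw [Finset.coe_inj] at this
    have hqI : q ∈ I := by rw [this]; exact Finset.mem_insert_self _ _
    rw [hQdef, Finset.mem_sdiff] at hq
    exact hq.2 (hIP hqI)
  -- every neighbour of `X` is matched inside `cov X`
  have hkey : nbr N K E X ⊆ (Q ∩ cov N E X).attach.image
      (fun z => g ⟨z.1, (Finset.mem_inter.1 z.2).1⟩) := by
    intro j hj
    rw [mem_nbr] at hj
    obtain ⟨x, hxE, hxX, hjx⟩ := hj
    obtain ⟨⟨q, hq⟩, hgq⟩ := hgs j
    have hxcov : x ∈ cov N E X := mem_cov.2 ⟨hxE, hxX⟩
    by_cases hqc : q ∈ cov N E X
    · rw [Finset.mem_image]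
      exact ⟨⟨q, Finset.mem_inter.2 ⟨hq, hqc⟩⟩, Finset.mem_attach _ _, hgq⟩
    · exfalso
      have hxI : x ∉ I := fun h => (Finset.mem_sdiff.1 (hIsub h)).2 hxcov
      by_cases hxP : x ∈ P
      · -- replace `q` by `x`
        apply hstar q hq hqc x hxP hxI
        rw [mt_iff]
        have hmem : ∀ z : {z // z ∈ insert x (Q.erase q)}, z.1 ≠ x → z.1 ∈ Q := by
          intro z hz
          have := z.2
          rw [Finset.mem_insert] at this
          rcases this with h | h
          · exact absurd h hz
          · exact Finset.mem_of_mem_erase h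
        have hne : ∀ z : {z // z ∈ insert x (Q.erase q)}, z.1 ≠ x → z.1 ≠ q := by
          intro z hz
          have := z.2
          rw [Finset.mem_insert] at this
          rcases this with h | h
          · exact absurd h hz
          · exact (Finset.mem_erase.1 h).1
        refine ⟨fun z => if hz : z.1 = x then j else g ⟨z.1, hmem z hz⟩, ?_, ?_⟩
        · intro z w hzw
          beta_reduce at hzw
          by_cases hz : z.1 = x
          · by_cases hw : w.1 = x
            · exact Subtype.ext (hz.trans hw.symm)
            · rw [dif_pos hz, dif_neg hw, ← hgq] at hzw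
              have := hg hzw
              exact absurd (by simpa using this.symm) (hne w hw)
          · by_cases hw : w.1 = x
            · rw [dif_neg hz, dif_pos hw, ← hgq] at hzw
              have := hg hzw
              exact absurd (by simpa using this) (hne z hz)
            · rw [dif_neg hz, dif_neg hw] at hzw
              have := hg hzw
              exact Subtype.ext (by simpa using this)
        · intro z
          beta_reduce
          by_cases hz : z.1 = x
          · rw [dif_pos hz, hz]; exact hjx
          · rw [dif_neg hz]; exact hgK _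
      · have hxQ : x ∈ Q := Finset.mem_sdiff.2 ⟨hxE, hxP⟩
        have hxq : x ≠ q := by rintro rfl; exact hqc hxcov
        -- a basis of `M` containing `I` and `x`
        have hIx : M.Indep ((insert x I : Finset α) : Set α) := by
          rw [hN, mt_iff]
          obtain ⟨f, hf, hfN⟩ := (mt_iff N I).1 ((hN I).1 hI₀.indep)
          obtain ⟨i, hix, hiX⟩ := hxX
          have hmem : ∀ z : {z // z ∈ insert x I}, z.1 ≠ x → z.1 ∈ I := by
            intro z hz
            have := z.2
            rw [Finset.mem_insert] at this
            rcases this with h | h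
            · exact absurd h hz
            · exact h
          have hfi : ∀ z : {z // z ∈ I}, f z ≠ i := by
            intro z hz
            apply (Finset.mem_sdiff.1 (hIsub z.2)).2
            rw [mem_cov]
            exact ⟨hPE (hIP z.2), i, by rw [← hz]; exact hfN z, hiX⟩
          refine ⟨fun z => if hz : z.1 = x then i else f ⟨z.1, hmem z hz⟩, ?_, ?_⟩
          · intro z w hzw
            beta_reduce at hzw
            by_cases hz : z.1 = x
            · by_cases hw : w.1 = x
              · exact Subtype.ext (hz.trans hw.symm)
              · rw [dif_pos hz, dif_neg hw] at hzw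
                exact absurd hzw.symm (hfi _)
            · by_cases hw : w.1 = x
              · rw [dif_neg hz, dif_pos hw] at hzw
                exact absurd hzw (hfi _)
              · rw [dif_neg hz, dif_neg hw] at hzw
                have := hf hzw
                exact Subtype.ext (by simpa using this)
          · intro z
            beta_reduce
            by_cases hz : z.1 = x
            · rw [dif_pos hz, hz]; exact hix
            · rw [dif_neg hz]; exact hfN _
        obtain ⟨P2, hIP2, hP2E, hP2b⟩ := exists_isBase_finset M hE hIx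
        have hQ2b : M✶.IsBase ((E \ P2 : Finset α) : Set α) := by
          have := hP2b.compl_isBase_dual
          rw [← hE, ← Finset.coe_sdiff] at this
          exact this
        obtain ⟨y, hy, hyb⟩ := hQb.exchange hQ2b (e := x) (by
          refine ⟨by exact_mod_cast hxQ, ?_⟩
          intro h
          rw [Finset.mem_coe, Finset.mem_sdiff] at h
          exact h.2 (hIP2 (Finset.mem_insert_self _ _)))
        have hyQ : y ∉ Q := fun h => hy.2 (by exact_mod_cast h)
        have hyE : y ∈ E := by
          have := hy.1
          rw [Finset.mem_coe, Finset.mem_sdiff] at this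
          exact this.1
        have hyP : y ∈ P := by
          by_contra h
          exact hyQ (Finset.mem_sdiff.2 ⟨hyE, h⟩)
        have hyI : y ∉ I := by
          intro h
          have := hy.1
          rw [Finset.mem_coe, Finset.mem_sdiff] at this
          exact this.2 (hIP2 (Finset.mem_insert_of_mem h))
        have hmt : Mt K (insert y (Q.erase x)) := by
          rw [← hK]
          convert hyb.indep using 1
          rw [Finset.coe_insert, Finset.coe_erase]
        apply hstar q hq hqc y hyP hyI
        exact Mt.swap hg hgK hq hxQ (by rw [hgq]; exact hjx) hyQ hmt hxq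
  have h1 := (Finset.card_le_card hkey).trans Finset.card_image_le
  rw [Finset.card_attach] at h1
  -- count
  have h2 : (P ∩ cov N E X).card + (Q ∩ cov N E X).card ≤ (cov N E X).card := by
    rw [← Finset.card_union_of_disjoint]
    · apply Finset.card_le_card
      apply Finset.union_subset Finset.inter_subset_right Finset.inter_subset_right
    · rw [Finset.disjoint_left]
      intro e he he'
      have := (Finset.mem_inter.1 he').1
      rw [hQdef, Finset.mem_sdiff] at this
      exact this.2 (Finset.mem_inter.1 he).1
  omega

end Pool.Agent.H765
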