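import Pool.Agent.helper765_bt.Conv

/-!
The matroid presented by index sets.
-/

open Finset

set_option linter.unusedSectionVars false

namespace Pool.Agent.H765

variable {α ι κ : Type*} [DecidableEq α] [DecidableEq ι] [DecidableEq κ]

theorem tight_union {N : α → Finset ι} {I D1 D2 : Finset α} (hI : Mt N I) (h1 : D1 ⊆ I)
    (h2 : D2 ⊆ I) (t1 : (D1.biUnion N).card = D1.card) (t2 : (D2.biUnion N).card = D2.card) :
    ((D1 ∪ D2).biUnion N).card = (D1 ∪ D2).card := by
  have h3 := hI (D1 ∪ D2) (Finset.union_subset h1 h2)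
  have h4 := hI (D1 ∩ D2) (Finset.inter_subset_left.trans h1)
  have h5 : (D1 ∪ D2).biUnion N = D1.biUnion N ∪ D2.biUnion N := by
    ext i
    simp only [Finset.mem_biUnion, Finset.mem_union]
    constructor
    · rintro ⟨e, he | he, hi⟩
      · exact Or.inl ⟨e, he, hi⟩
      · exact Or.inr ⟨e, he, hi⟩
    · rintro (⟨e, he, hi⟩ | ⟨e, he, hi⟩)
      · exact ⟨e, Or.inl he, hi⟩
      · exact ⟨e, Or.inr he, hi⟩
  have h6 : (D1 ∩ D2).biUnion N ⊆ D1.biUnion N ∩ D2.biUnion N := by
    intro i hi
    rw [Finset.mem_biUnion] at hi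
    obtain ⟨e, he, hi⟩ := hi
    rw [Finset.mem_inter] at he
    exact Finset.mem_inter.2 ⟨Finset.mem_biUnion.2 ⟨e, he.1, hi⟩,
      Finset.mem_biUnion.2 ⟨e, he.2, hi⟩⟩
  have h7 := Finset.card_le_card h6
  have h8 := Finset.card_union_add_card_inter (D1.biUnion N) (D2.biUnion N)
  have h9 := Finset.card_union_add_card_inter D1 D2
  rw [h5] at h3 ⊢
  omega

theorem mt_empty (N : α → Finset ι) : Mt N ∅ := by
  intro D hD
  rw [Finset.subset_empty] at hD
  rw [hD]
  simp

/-- augmentation -/
theorem mt_aug {N : α → Finset ι} {I J : Finset α} (hI : Mt N I) (hJ : Mt N J)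
    (hc : I.card < J.card) : ∃ e ∈ J, e ∉ I ∧ Mt N (insert e I) := by
  by_contra hcon
  push Not at hcon
  obtain ⟨D, hDm, hDmax⟩ := Finset.exists_max_image
    (I.powerset.filter (fun D => (D.biUnion N).card = D.card)) (fun D => D.card)
    ⟨∅, by simp⟩
  rw [Finset.mem_filter, Finset.mem_powerset] at hDm
  obtain ⟨hDI, hDt⟩ := hDm
  have hall : ∀ e ∈ J, e ∉ I → N e ⊆ D.biUnion N := by
    intro e heJ heI
    have h1 := hcon e heJ heI
    unfold Mt at h1
    push Not at h1
    obtain ⟨C, hC, hlt⟩ := h1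
    have heC : e ∈ C := by
      by_contra heC
      have : C ⊆ I := by
        intro f hf
        have := hC hf
        rw [Finset.mem_insert] at this
        rcases this with rfl | h'
        · exact absurd hf heC
        · exact h'
      exact absurd (hI C this) (by omega)
    have hC' : C.erase e ⊆ I := by
      intro f hf
      rw [Finset.mem_erase] at hf
      have := hC hf.2
      rw [Finset.mem_insert] at this
      exact this.resolve_left hf.1
    have h2 := hI _ hC'
    have h3 : (C.erase e).biUnion N ⊆ C.biUnion N :=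
      Finset.biUnion_subset_biUnion_of_subset_left _ (Finset.erase_subset _ _)
    have h4 := Finset.card_le_card h3
    have h5 := Finset.card_erase_of_mem heC
    have h6 : 0 < C.card := Finset.card_pos.2 ⟨e, heC⟩
    have ht : ((C.erase e).biUnion N).card = (C.erase e).card := by omega
    have heq : (C.erase e).biUnion N = C.biUnion N :=
      Finset.eq_of_subset_of_card_le h3 (by omega)
    have hunion := tight_union hI hDI hC' hDt ht
    have hmax := hDmax (D ∪ C.erase e) (by
      rw [Finset.mem_filter, Finset.mem_powerset]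
      exact ⟨Finset.union_subset hDI hC', hunion⟩)
    have hDeq : D = D ∪ C.erase e :=
      Finset.eq_of_subset_of_card_le Finset.subset_union_left hmax
    intro i hi
    have h7 : i ∈ (C.erase e).biUnion N := by
      rw [heq]; exact Finset.mem_biUnion.2 ⟨e, heC, hi⟩
    rw [hDeq]
    exact Finset.biUnion_subset_biUnion_of_subset_left _ Finset.subset_union_right h7
  have h1 := hJ ((J \ I) ∪ (J ∩ D)) (by
    apply Finset.union_subset Finset.sdiff_subset Finset.inter_subset_left)
  have h2 : ((J \ I) ∪ (J ∩ D)).biUnion N ⊆ D.biUnion N := by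
    intro i hi
    rw [Finset.mem_biUnion] at hi
    obtain ⟨e, he, hi⟩ := hi
    rw [Finset.mem_union, Finset.mem_sdiff, Finset.mem_inter] at he
    rcases he with he | he
    · exact hall e he.1 he.2 hi
    · exact Finset.mem_biUnion.2 ⟨e, he.2, hi⟩
  have h3 := Finset.card_le_card h2
  have h4 : J ⊆ ((J \ I) ∪ (J ∩ D)) ∪ (I \ D) := by
    intro e he
    rw [Finset.mem_union, Finset.mem_union, Finset.mem_sdiff, Finset.mem_inter, Finset.mem_sdiff]
    by_cases heI : e ∈ I
    · by_cases heD : e ∈ D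
      · exact Or.inl (Or.inr ⟨he, heD⟩)
      · exact Or.inr ⟨heI, heD⟩
    · exact Or.inl (Or.inl ⟨he, heI⟩)
  have h5 := (Finset.card_le_card h4).trans (Finset.card_union_le _ _)
  rw [Finset.card_sdiff_of_subset hDI] at h5
  have h6 := Finset.card_le_card hDI
  omega

/-- the matroid presented by the index sets `N` -/
theorem exists_pres (N : α → Finset ι) (E : Finset α) (hN : ∀ e, (N e).Nonempty → e ∈ E) :
    ∃ M : Matroid α, M.E = (E : Set α) ∧ Pres M N := by
  have h1 : Mt N ∅ := mt_empty N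
  have h2 : ∀ ⦃I J : Finset α⦄, Mt N J → I ⊆ J → Mt N I := fun I J hJ hIJ => hJ.mono hIJ
  have h3 : ∀ ⦃I J : Finset α⦄, Mt N I → Mt N J → I.card < J.card →
      ∃ e ∈ J, e ∉ I ∧ Mt N (insert e I) := fun I J hI hJ hc => mt_aug hI hJ hc
  have h4 : ∀ ⦃I : Finset α⦄, Mt N I → (I : Set α) ⊆ (E : Set α) := by
    intro I hI e he
    have h1 := hI {e} (by simpa using he)
    rw [Finset.singleton_biUnion, Finset.card_singleton] at h1
    exact_mod_cast hN e (Finset.card_pos.1 (by omega))
  refine ⟨(IndepMatroid.ofFinset (E : Set α) (Mt N) h1 h2 h3 h4).matroid, rfl, ?_⟩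
  intro I
  exact IndepMatroid.ofFinset_indep (E : Set α) (Mt N) h1 h2 h3 h4

/-- A star system: the elements are `b i` and `c j`, and the element `b i` has the only index `i`
in the first family, the element `c j` has the only index `j` in the second family. -/
structure Star [Fintype ι] [Fintype κ] (R : ι → κ → Prop) (b : ι → α) (c : κ → α)
    (N : α → Finset ι) (K : α → Finset κ) (E : Finset α) : Prop where
  b_inj : Function.Injective b
  c_inj : Function.Injective c
  ne : ∀ i j, b i ≠ c j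
  mem : ∀ e, e ∈ E ↔ (∃ i, e = b i) ∨ ∃ j, e = c j
  memN : ∀ e i, i ∈ N e ↔ e = b i ∨ ∃ j, e = c j ∧ R i j
  memK : ∀ e j, j ∈ K e ↔ e = c j ∨ ∃ i, e = b i ∧ R i j

section

variable [Fintype ι] [Fintype κ] {R : ι → κ → Prop} {b : ι → α} {c : κ → α}
  {N : α → Finset ι} {K : α → Finset κ} {E : Finset α}

theorem Star.swap (h : Star R b c N K E) : Star (fun j i => R i j) c b K N E where
  b_inj := h.c_inj
  c_inj := h.b_inj
  ne := fun j i => (h.ne i j).symm
  mem := fun e => by rw [h.mem]; exact or_comm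
  memN := h.memK
  memK := h.memN

theorem Star.adj (h : Star R b c N K E) : Adj N K E = R := by
  funext i j
  apply propext
  constructor
  · rintro ⟨e, _, hi, hj⟩
    rw [h.memN] at hi
    rw [h.memK] at hj
    rcases hi with rfl | ⟨j', rfl, hij'⟩
    · rcases hj with hj | ⟨i', hi', hR⟩
      · exact absurd hj (h.ne i j)
      · rw [h.b_inj hi']; exact hR
    · rcases hj with hj | ⟨i', hi', _⟩
      · rw [← h.c_inj hj]; exact hij'
      · exact absurd hi'.symm (h.ne i' j')
  · intro hR
    exact ⟨b i, (h.mem _).2 (Or.inl ⟨i, rfl⟩), (h.memN _ _).2 (Or.inl rfl),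
      (h.memK _ _).2 (Or.inr ⟨i, rfl, hR⟩)⟩

theorem Star.cov_card (h : Star R b c N K E) (X : Finset ι) :
    (cov N E X).card = X.card + (nbr N K E X).card := by
  have h1 : cov N E X = X.map ⟨b, h.b_inj⟩ ∪ (nbr N K E X).map ⟨c, h.c_inj⟩ := by
    ext e
    rw [mem_cov, Finset.mem_union, Finset.mem_map, Finset.mem_map]
    constructor
    · rintro ⟨_, i, hi, hiX⟩
      rw [h.memN] at hi
      rcases hi with rfl | ⟨j, rfl, hR⟩
      · exact Or.inl ⟨i, hiX, rfl⟩
      · refine Or.inr ⟨j, ?_, rfl⟩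
        rw [mem_nbr_adj, h.adj]
        exact ⟨i, hiX, hR⟩
    · rintro (⟨i, hi, rfl⟩ | ⟨j, hj, rfl⟩)
      · exact ⟨(h.mem _).2 (Or.inl ⟨i, rfl⟩), i, (h.memN _ _).2 (Or.inl rfl), hi⟩
      · rw [mem_nbr_adj, h.adj] at hj
        obtain ⟨i, hi, hR⟩ := hj
        exact ⟨(h.mem _).2 (Or.inr ⟨j, rfl⟩), i, (h.memN _ _).2 (Or.inr ⟨j, rfl, hR⟩), hi⟩
  rw [h1, Finset.card_union_of_disjoint, Finset.card_map, Finset.card_map]
  rw [Finset.disjoint_left]
  intro e h2 h3
  rw [Finset.mem_map] at h2 h3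
  obtain ⟨i, _, rfl⟩ := h2
  obtain ⟨j, _, hj⟩ := h3
  exact h.ne i j hj.symm

theorem Star.card (h : Star R b c N K E) : Fintype.card ι + Fintype.card κ = E.card := by
  have h1 : E = (Finset.univ : Finset ι).map ⟨b, h.b_inj⟩ ∪
      (Finset.univ : Finset κ).map ⟨c, h.c_inj⟩ := by
    ext e
    rw [h.mem, Finset.mem_union, Finset.mem_map, Finset.mem_map]
    constructor
    · rintro (⟨i, rfl⟩ | ⟨j, rfl⟩)
      · exact Or.inl ⟨i, Finset.mem_univ _, rfl⟩
      · exact Or.inr ⟨j, Finset.mem_univ _, rfl⟩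
    · rintro (⟨i, _, rfl⟩ | ⟨j, _, rfl⟩)
      · exact Or.inl ⟨i, rfl⟩
      · exact Or.inr ⟨j, rfl⟩
  rw [h1, Finset.card_union_of_disjoint, Finset.card_map, Finset.card_map, Finset.card_univ,
    Finset.card_univ]
  rw [Finset.disjoint_left]
  intro e h2 h3
  rw [Finset.mem_map] at h2 h3
  obtain ⟨i, _, rfl⟩ := h2
  obtain ⟨j, _, hj⟩ := h3
  exact h.ne i j hj.symm

theorem Star.dh (h : Star R b c N K E) : DH N K E := fun X => (h.cov_card X).ge

theorem Star.sys (h : Star R b c N K E) {P : Matroid α} (hE : P.E = (E : Set α))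
    (hP : Pres P N) : Sys P N K E where
  ground := hE.symm
  pres := hP
  dpres := (dual_of_DH hE.symm hP (fun e ⟨j, hj⟩ => by
    rw [h.memK] at hj
    rw [h.mem]
    rcases hj with rfl | ⟨i, rfl, _⟩
    · exact Or.inr ⟨j, rfl⟩
    · exact Or.inl ⟨i, rfl⟩) h.card h.dh h.swap.dh).1
  card := h.card
  dh1 := h.dh
  dh2 := h.swap.dh

/-- existence of the star system of a relation -/
theorem exists_star (R : ι → κ → Prop) {b : ι → α} {c : κ → α} (hb : Function.Injective b)
    (hc : Function.Injective c) (hbc : ∀ i j, b i ≠ c j) {E : Finset α}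
    (hE : ∀ e, e ∈ E ↔ (∃ i, e = b i) ∨ ∃ j, e = c j) :
    ∃ (N : α → Finset ι) (K : α → Finset κ), Star R b c N K E := by
  classical
  refine ⟨fun e => Finset.univ.filter (fun i => e = b i ∨ ∃ j, e = c j ∧ R i j),
    fun e => Finset.univ.filter (fun j => e = c j ∨ ∃ i, e = b i ∧ R i j),
    hb, hc, hbc, hE, ?_, ?_⟩
  · intro e i
    simp
  · intro e j
    simp

end

end Pool.Agent.H765
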