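import Mathlib

/-!
Hall's condition for matchings of a finite set of elements into a finite set of indices.
-/

open Finset

namespace Pool.Agent.H765

variable {α ι κ : Type*} [DecidableEq α] [DecidableEq ι] [DecidableEq κ]

/-- Hall's condition: the finite set `P` can be matched into the indices, where the element `e` may
be matched to the indices in `N e`. -/
def Mt (N : α → Finset ι) (P : Finset α) : Prop := ∀ D ⊆ P, D.card ≤ (D.biUnion N).card

omit [DecidableEq α] in
theorem mt_iff (N : α → Finset ι) (P : Finset α) :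
    Mt N P ↔ ∃ f : {x // x ∈ P} → ι, Function.Injective f ∧ ∀ x, f x ∈ N x.1 := by
  classical
  rw [← Finset.all_card_le_biUnion_card_iff_exists_injective (fun x : {x // x ∈ P} => N x.1)]
  constructor
  · intro h s
    have h1 := h (s.map (Function.Embedding.subtype _)) (by
      intro x hx
      rw [Finset.mem_map] at hx
      obtain ⟨y, _, rfl⟩ := hx
      exact y.2)
    rw [Finset.card_map] at h1
    refine h1.trans (Finset.card_le_card ?_)
    intro i hi
    rw [Finset.mem_biUnion] at hi ⊢
    obtain ⟨x, hx, hi⟩ := hi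
    rw [Finset.mem_map] at hx
    obtain ⟨y, hy, rfl⟩ := hx
    exact ⟨y, hy, hi⟩
  · intro h D hD
    have h1 := h (D.attach.map ⟨fun x => (⟨x.1, hD x.2⟩ : {x // x ∈ P}), fun x y hxy =>
      Subtype.ext (by simpa using hxy)⟩)
    rw [Finset.card_map, Finset.card_attach] at h1
    refine h1.trans (Finset.card_le_card ?_)
    intro i hi
    rw [Finset.mem_biUnion] at hi ⊢
    obtain ⟨x, hx, hi⟩ := hi
    rw [Finset.mem_map] at hx
    obtain ⟨y, hy, rfl⟩ := hx
    exact ⟨y.1, y.2, hi⟩

omit [DecidableEq α] in
theorem Mt.mono {N : α → Finset ι} {P Q : Finset α} (h : Mt N Q) (hPQ : P ⊆ Q) : Mt N P :=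
  fun D hD => h D (hD.trans hPQ)

omit [DecidableEq α] in
theorem Mt.card_le [Fintype ι] {N : α → Finset ι} {P : Finset α} (h : Mt N P) :
    P.card ≤ Fintype.card ι :=
  (h P subset_rfl).trans (Finset.card_le_univ _)

/-- the elements of `E` with an index in `X` -/
def cov (N : α → Finset ι) (E : Finset α) (X : Finset ι) : Finset α :=
  E.filter (fun e => (N e ∩ X).Nonempty)

omit [DecidableEq α] in
theorem mem_cov {N : α → Finset ι} {E : Finset α} {X : Finset ι} {e : α} :
    e ∈ cov N E X ↔ e ∈ E ∧ ∃ i ∈ N e, i ∈ X := by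
  unfold cov
  rw [Finset.mem_filter]
  constructor
  · rintro ⟨h, i, hi⟩
    exact ⟨h, i, (Finset.mem_inter.1 hi).1, (Finset.mem_inter.1 hi).2⟩
  · rintro ⟨h, i, h1, h2⟩
    exact ⟨h, i, Finset.mem_inter.2 ⟨h1, h2⟩⟩

omit [DecidableEq α] in
/-- Hall's theorem with the roles of elements and indices exchanged: if every set `X` of indices
meets at least `X.card` elements of `E`, there is a set `P ⊆ E` of `Fintype.card ι` elements that
satisfies Hall's condition. -/
theorem exists_perfect [Fintype ι] (N : α → Finset ι) (E : Finset α)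
    (h : ∀ X : Finset ι, X.card ≤ (cov N E X).card) :
    ∃ P ⊆ E, P.card = Fintype.card ι ∧ Mt N P := by
  classical
  have h1 : ∀ s : Finset ι, s.card ≤ (s.biUnion (fun i => E.filter (fun e => i ∈ N e))).card := by
    intro s
    refine (h s).trans (Finset.card_le_card ?_)
    intro e he
    rw [mem_cov] at he
    obtain ⟨h1, i, h2, h3⟩ := he
    rw [Finset.mem_biUnion]
    exact ⟨i, h3, Finset.mem_filter.2 ⟨h1, h2⟩⟩
  rw [Finset.all_card_le_biUnion_card_iff_exists_injective] at h1
  obtain ⟨f, hf, hfm⟩ := h1
  refine ⟨Finset.univ.map ⟨f, hf⟩, ?_, ?_, ?_⟩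
  · intro e he
    rw [Finset.mem_map] at he
    obtain ⟨i, _, rfl⟩ := he
    exact (Finset.mem_filter.1 (hfm i)).1
  · rw [Finset.card_map, Finset.card_univ]
  · intro D hD
    have hD' : D = (Finset.univ.filter (fun i => f i ∈ D)).map ⟨f, hf⟩ := by
      ext e
      rw [Finset.mem_map]
      constructor
      · intro he
        have := hD he
        rw [Finset.mem_map] at this
        obtain ⟨i, _, hi⟩ := this
        refine ⟨i, Finset.mem_filter.2 ⟨Finset.mem_univ _, ?_⟩, hi⟩
        have : f i = e := hi
        rw [this]; exact he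
      · rintro ⟨i, hi, rfl⟩
        exact (Finset.mem_filter.1 hi).2
    calc D.card = (Finset.univ.filter (fun i => f i ∈ D)).card := by
          conv_lhs => rw [hD']
          rw [Finset.card_map]
      _ ≤ _ := Finset.card_le_card (by
          intro i hi
          rw [Finset.mem_biUnion]
          exact ⟨f i, (Finset.mem_filter.1 hi).2, (Finset.mem_filter.1 (hfm i)).2⟩)

/-- A set of `Fintype.card ι` elements that satisfies Hall's condition contains at least `X.card`
elements with an index in `X`. -/
theorem Mt.card_le_cov [Fintype ι] {N : α → Finset ι} {E P : Finset α} (h : Mt N P)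
    (hP : P ⊆ E) (hc : P.card = Fintype.card ι) (X : Finset ι) :
    X.card ≤ (P ∩ cov N E X).card := by
  have h1 := h (P \ cov N E X) Finset.sdiff_subset
  have h2 : (P \ cov N E X).biUnion N ⊆ Xᶜ := by
    intro i hi
    rw [Finset.mem_biUnion] at hi
    obtain ⟨e, he, hi⟩ := hi
    rw [Finset.mem_sdiff] at he
    rw [Finset.mem_compl]
    intro hiX
    exact he.2 (mem_cov.2 ⟨hP he.1, i, hi, hiX⟩)
  have h3 := Finset.card_le_card h2
  rw [Finset.card_compl] at h3
  have h4 := Finset.card_sdiff_add_card_inter P (cov N E X)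
  have h5 := Finset.card_le_univ X
  omega

/-- If `Q` satisfies Hall's condition and `q ∈ Q` is not needed for the elements with index in
`N x`: the exchange lemma used for the necessity of the Hall type inequalities. -/
theorem Mt.swap {N : α → Finset ι} {Q : Finset α} {g : {x // x ∈ Q} → ι}
    (hg : Function.Injective g) (hgN : ∀ x, g x ∈ N x.1) {q x y : α} (hq : q ∈ Q) (hx : x ∈ Q)
    (hqx : g ⟨q, hq⟩ ∈ N x) (hy : y ∉ Q) (h : Mt N (insert y (Q.erase x))) (hxq : x ≠ q) :
    Mt N (insert y (Q.erase q)) := by
  classical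
  by_contra hcon
  unfold Mt at hcon
  push Not at hcon
  obtain ⟨D, hD, hlt⟩ := hcon
  have hMQ : Mt N Q := (mt_iff N Q).2 ⟨g, hg, hgN⟩
  have hyD : y ∈ D := by
    by_contra hyD
    have : D ⊆ Q := by
      intro z hz
      have := hD hz
      rw [Finset.mem_insert] at this
      rcases this with rfl | h2
      · exact absurd hz hyD
      · exact Finset.mem_of_mem_erase h2
    exact absurd (hMQ D this) (by omega)
  have hDy : D.erase y ⊆ Q.erase q := by
    intro z hz
    rw [Finset.mem_erase] at hz
    have := hD hz.2
    rw [Finset.mem_insert] at this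
    rcases this with rfl | h2
    · exact absurd rfl hz.1
    · exact h2
  by_cases hxD : x ∈ D
  · -- the images of `D.erase y` and `q` give too many indices
    have hsub : insert q (D.erase y) ⊆ Q := by
      intro z hz
      rw [Finset.mem_insert] at hz
      rcases hz with rfl | hz
      · exact hq
      · exact Finset.mem_of_mem_erase (hDy hz)
    have himg : ((insert q (D.erase y)).attach.image
        (fun z => g ⟨z.1, hsub z.2⟩)) ⊆ D.biUnion N := by
      intro i hi
      rw [Finset.mem_image] at hi
      obtain ⟨z, _, rfl⟩ := hi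
      rw [Finset.mem_biUnion]
      have hz2 := z.2
      rw [Finset.mem_insert] at hz2
      rcases hz2 with hzq | hz
      · refine ⟨x, hxD, ?_⟩
        have : (⟨z.1, hsub z.2⟩ : {x // x ∈ Q}) = ⟨q, hq⟩ := Subtype.ext hzq
        rw [this]; exact hqx
      · exact ⟨z.1, Finset.mem_of_mem_erase hz, hgN _⟩
    have hcard := Finset.card_le_card himg
    rw [Finset.card_image_of_injective, Finset.card_attach, Finset.card_insert_of_notMem,
      Finset.card_erase_of_mem hyD] at hcard
    · have : 0 < D.card := Finset.card_pos.2 ⟨y, hyD⟩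
      omega
    · intro hqD
      exact (Finset.mem_erase.1 (hDy hqD)).1 rfl
    · intro z w hzw
      have := hg hzw
      exact Subtype.ext (by simpa using this)
  · have hsub : D ⊆ insert y (Q.erase x) := by
      intro z hz
      rw [Finset.mem_insert]
      by_cases hzy : z = y
      · exact Or.inl hzy
      · refine Or.inr (Finset.mem_erase.2 ⟨?_, ?_⟩)
        · rintro rfl; exact hxD hz
        · exact Finset.mem_of_mem_erase (hDy (Finset.mem_erase.2 ⟨hzy, hz⟩))
    exact absurd (h D hsub) (by omega)

end Pool.Agent.H765
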