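import Pool.Agent.helper765_bt.Dual

/-!
Families of subsets of the ground set and their index sets.
-/

open Finset

namespace Pool.Agent.H765

variable {α : Type*}

/-- The index set of the element `e` for the family `A`. -/
noncomputable def idx {r : ℕ} (A : Fin r → Set α) (e : α) : Finset (Fin r) := by
  classical
  exact Finset.univ.filter (fun i => e ∈ A i)

theorem mem_idx {r : ℕ} {A : Fin r → Set α} {e : α} {i : Fin r} : i ∈ idx A e ↔ e ∈ A i := by
  classical
  unfold idx
  rw [Finset.mem_filter]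
  exact ⟨fun h => h.2, fun h => ⟨Finset.mem_univ _, h⟩⟩

theorem mt_idx {r : ℕ} (A : Fin r → Set α) (I : Finset α) :
    Mt (idx A) I ↔ ∃ f : {x // x ∈ (I : Set α)} → Fin r, Function.Injective f ∧
      ∀ e : {x // x ∈ (I : Set α)}, (e : α) ∈ A (f e) := by
  rw [mt_iff]
  constructor
  · rintro ⟨f, hf, h⟩
    exact ⟨f, hf, fun e => mem_idx.1 (h e)⟩
  · rintro ⟨f, hf, h⟩
    exact ⟨f, hf, fun e => mem_idx.2 (h e)⟩

/-- the family obtained from index sets inside `J` by an enumeration of `J` -/
theorem mt_map {ι κ : Type*} [DecidableEq ι] [DecidableEq κ] [DecidableEq α]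
    (N : α → Finset ι) (φ : ι ↪ κ) (I : Finset α) :
    Mt (fun e => (N e).map φ) I ↔ Mt N I := by
  have h : ∀ D : Finset α, D.biUnion (fun e => (N e).map φ) = (D.biUnion N).map φ := by
    intro D
    ext j
    simp only [Finset.mem_biUnion, Finset.mem_map]
    constructor
    · rintro ⟨e, he, i, hi, rfl⟩; exact ⟨i, ⟨e, he, hi⟩, rfl⟩
    · rintro ⟨i, ⟨e, he, hi⟩, rfl⟩; exact ⟨e, he, i, hi, rfl⟩
  unfold Mt
  simp only [h, Finset.card_map]

end Pool.Agent.H765
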