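import Pool.Agent.helper765_bt.TightAll

/-!
Families of closed sets in which every two members are tight.
-/

open Finset

set_option linter.unusedSectionVars false

namespace Pool.Agent.H765

universe u v

section

variable {α : Type v} [DecidableEq α] {ι κ : Type u} [DecidableEq ι] [DecidableEq κ]
  [Fintype ι] [Fintype κ] {M : Matroid α} {N : α → Finset ι} {K : α → Finset κ} {E : Finset α}

theorem dl_empty : dl N K E ∅ = 0 := by
  unfold dl
  simp [cov, nbr]

theorem Sys.small_two (h : Sys M N K E) {𝒳 : Finset (Finset ι)}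
    (hcl : ∀ X ∈ 𝒳, Cl (Adj N K E) X) (hp : ∀ X ∈ 𝒳, ∀ Y ∈ 𝒳, dl N K E (X ∪ Y) = 0)
    (hc : 𝒳.card ≤ 2) : dl N K E (𝒳.biUnion id) = 0 := by
  by_cases hc0 : 𝒳.card = 0
  · rw [Finset.card_eq_zero] at hc0
    rw [hc0, Finset.biUnion_empty]
    exact dl_empty
  by_cases hc1 : 𝒳.card = 1
  · obtain ⟨X, rfl⟩ := Finset.card_eq_one.1 hc1
    rw [Finset.singleton_biUnion]
    exact h.dl_closed (hcl X (Finset.mem_singleton_self X))
  obtain ⟨X, X', _, rfl⟩ := Finset.card_eq_two.1 (by omega : 𝒳.card = 2)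
  rw [Finset.biUnion_insert, Finset.singleton_biUnion]
  exact hp X (by simp) X' (by simp)

theorem Sys.small (h : Sys M N K E) {𝒳 : Finset (Finset ι)}
    (hcl : ∀ X ∈ 𝒳, Cl (Adj N K E) X) (hp : ∀ X ∈ 𝒳, ∀ Y ∈ 𝒳, dl N K E (X ∪ Y) = 0)
    (hc : 𝒳.card ≤ 3) : dl N K E (𝒳.biUnion id) = 0 := by
  by_cases hc2 : 𝒳.card ≤ 2
  · exact h.small_two hcl hp hc2
  have hc3 : 𝒳.card = 3 := by omega
  have hr := h.relation_proper hcl (by
    intro T hT
    have h1 := Finset.card_lt_card hT
    exact h.small_two (fun X hX => hcl X (hT.subset hX))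
      (fun X hX Y hY => hp X (hT.subset hX) Y (hT.subset hY)) (by omega))
  rw [hc3] at hr
  have n1 := dl_nonneg h.dh1 (𝒳.biUnion id)
  have n2 := dl_nonneg h.dh2 (𝒳.biUnion (pol (Adj N K E)))
  rw [hr] at n2
  have : ((-1 : ℤ)) ^ 3 = -1 := by norm_num
  rw [this] at n2
  linarith

/-- the join of two members of a triple with tight pairs is tight with the third one -/
theorem Sys.join_tight (h : Sys M N K E) {a b c C : Finset ι} (ha : Cl (Adj N K E) a)
    (hb : Cl (Adj N K E) b) (hc : Cl (Adj N K E) c) (hab : dl N K E (a ∪ b) = 0)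
    (hac : dl N K E (a ∪ c) = 0) (hbc : dl N K E (b ∪ c) = 0) (hC : Cl (Adj N K E) C)
    (hCX : a ∪ b ⊆ C) (hCp : pol (Adj N K E) C = pol (Adj N K E) (a ∪ b)) :
    dl N K E (C ∪ c) = 0 := by
  have h3 := h.small (𝒳 := {a, b, c}) (by
    intro Z hZ
    simp only [Finset.mem_insert, Finset.mem_singleton] at hZ
    rcases hZ with rfl | rfl | rfl
    · exact ha
    · exact hb
    · exact hc) (by
    intro Z hZ Z' hZ'
    simp only [Finset.mem_insert, Finset.mem_singleton] at hZ hZ'
    rcases hZ with rfl | rfl | rfl <;> rcases hZ' with rfl | rfl | rfl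
    · rw [Finset.union_idempotent]; exact h.dl_closed ha
    · exact hab
    · exact hac
    · rw [Finset.union_comm]; exact hab
    · rw [Finset.union_idempotent]; exact h.dl_closed hb
    · exact hbc
    · rw [Finset.union_comm]; exact hac
    · rw [Finset.union_comm]; exact hbc
    · rw [Finset.union_idempotent]; exact h.dl_closed hc) Finset.card_le_three
  rw [Finset.biUnion_insert, Finset.biUnion_insert, Finset.singleton_biUnion] at h3
  simp only [id] at h3
  have hCn := nbr_of_pol hCp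
  have hid := dl_identity (N := N) (K := K) (E := E) (X := a ∪ (b ∪ c)) (C := C) (by
    rw [hCn]
    apply nbr_mono
    apply Finset.subset_inter _ hCX
    intro i hi
    rw [Finset.mem_union] at hi ⊢
    rcases hi with hi | hi
    · exact Or.inl hi
    · exact Or.inr (Finset.mem_union_left _ hi))
  rw [h3, h.dl_closed hC] at hid
  have e1 : a ∪ (b ∪ c) ∪ C = C ∪ c := by
    ext i
    simp only [Finset.mem_union]
    constructor
    · rintro ((hi | hi | hi) | hi)
      · exact Or.inl (hCX (Finset.mem_union_left _ hi))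
      · exact Or.inl (hCX (Finset.mem_union_right _ hi))
      · exact Or.inr hi
      · exact Or.inl hi
    · rintro (hi | hi)
      · exact Or.inr hi
      · exact Or.inl (Or.inr (Or.inr hi))
  rw [e1] at hid
  have n1 := dl_nonneg h.dh1 (C ∪ c)
  have n2 := dl_nonneg h.dh1 ((a ∪ (b ∪ c)) ∩ C)
  omega

/-- the meet of two members of a triple with tight pairs is tight with the third one -/
theorem Sys.meet_tight (h : Sys M N K E) {a b c : Finset ι} (ha : Cl (Adj N K E) a)
    (hb : Cl (Adj N K E) b) (hc : Cl (Adj N K E) c) (hab : dl N K E (a ∪ b) = 0)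
    (hac : dl N K E (a ∪ c) = 0) (hbc : dl N K E (b ∪ c) = 0) :
    dl N K E ((a ∩ b) ∪ c) = 0 := by
  have hcl : ∀ Z : Finset ι, Cl (Adj K N E) (pol (Adj N K E) Z) := by
    intro Z
    rw [adj_swap]
    exact Cl.pol_cl Z
  rw [← h.pair_relation (closed_inter ha hb) hc]
  apply h.dual.join_tight (a := pol (Adj N K E) a) (b := pol (Adj N K E) b) (hcl a) (hcl b)
    (hcl c)
  · rw [h.pair_relation ha hb]; exact hab
  · rw [h.pair_relation ha hc]; exact hac
  · rw [h.pair_relation hb hc]; exact hbc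
  · exact hcl _
  · intro j hj
    rw [Finset.mem_union] at hj
    rw [mem_pol]
    intro i hi
    rw [Finset.mem_inter] at hi
    rcases hj with hj | hj
    · exact mem_pol.1 hj i hi.1
    · exact mem_pol.1 hj i hi.2
  · rw [adj_swap, (closed_inter ha hb).pol_pol]
    ext i
    rw [Finset.mem_inter, mem_pol, ha.mem_iff, hb.mem_iff]
    constructor
    · rintro ⟨h1, h2⟩ j hj
      rw [Finset.mem_union] at hj
      rcases hj with hj | hj
      · exact h1 j hj
      · exact h2 j hj
    · intro h'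
      exact ⟨fun j hj => h' j (Finset.mem_union_left _ hj),
        fun j hj => h' j (Finset.mem_union_right _ hj)⟩

/-- a family with tight pairs lies in a sublattice with tight pairs -/
theorem Sys.exists_good (h : Sys M N K E) {𝒳 : Finset (Finset ι)}
    (hcl : ∀ X ∈ 𝒳, Cl (Adj N K E) X) (hp : ∀ X ∈ 𝒳, ∀ Y ∈ 𝒳, dl N K E (X ∪ Y) = 0) :
    ∃ L : Finset (Finset ι), 𝒳 ⊆ L ∧ Good N K E L ∧
      ∀ Z, Cl (Adj N K E) Z → (∀ c ∈ L, dl N K E (Z ∪ c) = 0) → Z ∈ L := by
  classical
  obtain ⟨L, hLm, hLmax⟩ := Finset.exists_max_image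
    ((Finset.univ : Finset (Finset (Finset ι))).filter (fun L => 𝒳 ⊆ L ∧
      (∀ X ∈ L, Cl (Adj N K E) X) ∧ ∀ X ∈ L, ∀ Y ∈ L, dl N K E (X ∪ Y) = 0))
    (fun L => L.card) ⟨𝒳, by
      rw [Finset.mem_filter]
      exact ⟨Finset.mem_univ _, Finset.Subset.refl _, hcl, hp⟩⟩
  rw [Finset.mem_filter] at hLm
  obtain ⟨_, hXL, hLc, hLp⟩ := hLm
  have hmax : ∀ Z, Cl (Adj N K E) Z → (∀ c ∈ L, dl N K E (Z ∪ c) = 0) → Z ∈ L := by
    intro Z hZ hZc
    by_contra hZL
    have h1 := hLmax (insert Z L) (by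
      rw [Finset.mem_filter]
      refine ⟨Finset.mem_univ _, hXL.trans (Finset.subset_insert _ _), ?_, ?_⟩
      · intro X hX
        rw [Finset.mem_insert] at hX
        rcases hX with rfl | hX
        · exact hZ
        · exact hLc X hX
      · intro X hX Y hY
        rw [Finset.mem_insert] at hX hY
        rcases hX with rfl | hX <;> rcases hY with rfl | hY
        · rw [Finset.union_idempotent]; exact h.dl_closed hZ
        · exact hZc Y hY
        · rw [Finset.union_comm]; exact hZc X hX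
        · exact hLp X hX Y hY)
    rw [Finset.card_insert_of_notMem hZL] at h1
    omega
  refine ⟨L, hXL, ⟨hLc, hLp, ?_, ?_⟩, hmax⟩
  · intro a ha b hb
    apply hmax _ (closed_inter (hLc a ha) (hLc b hb))
    intro c hc
    exact h.meet_tight (hLc a ha) (hLc b hb) (hLc c hc) (hLp a ha b hb) (hLp a ha c hc)
      (hLp b hb c hc)
  · intro a ha b hb C hC hCX hCp
    apply hmax _ hC
    intro c hc
    exact h.join_tight (hLc a ha) (hLc b hb) (hLc c hc) (hLp a ha b hb) (hLp a ha c hc)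
      (hLp b hb c hc) hC hCX hCp

/-- a family of closed sets with tight pairs is tight -/
theorem Sys.family (h : Sys M N K E) {𝒳 : Finset (Finset ι)}
    (hcl : ∀ X ∈ 𝒳, Cl (Adj N K E) X) (hp : ∀ X ∈ 𝒳, ∀ Y ∈ 𝒳, dl N K E (X ∪ Y) = 0) :
    dl N K E (𝒳.biUnion id) = 0 := by
  obtain ⟨L, hXL, hL, _⟩ := h.exists_good hcl hp
  exact tight_all (ms N K E 𝒳) h hL 𝒳 hXL le_rfl

/-- a closed set that is not the smallest one and not the join of two smaller closed sets -/
def JIrr (R : ι → κ → Prop) (X : Finset ι) : Prop :=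
  Cl R X ∧ (∃ Y, Cl R Y ∧ ¬ X ⊆ Y) ∧
    ¬ ∃ Y1 Y2, Cl R Y1 ∧ Cl R Y2 ∧ Y1 ⊂ X ∧ Y2 ⊂ X ∧ pol R X = pol R (Y1 ∪ Y2)

/-- it suffices to test the pairs of irreducible closed sets -/
theorem Sys.of_irreducible (h : Sys M N K E)
    (hp : ∀ X Y, JIrr (Adj N K E) X → JIrr (Adj N K E) Y → dl N K E (X ∪ Y) = 0) :
    ∀ X Y, Cl (Adj N K E) X → Cl (Adj N K E) Y → dl N K E (X ∪ Y) = 0 := by
  classical
  obtain ⟨L, hXL, hL, hmax⟩ := h.exists_good
    (𝒳 := Finset.univ.filter (fun X => JIrr (Adj N K E) X)) (by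
      intro X hX
      exact (Finset.mem_filter.1 hX).2.1) (by
      intro X hX Y hY
      exact hp X Y (Finset.mem_filter.1 hX).2 (Finset.mem_filter.1 hY).2)
  have hall : ∀ (n : ℕ) (X : Finset ι), X.card = n → Cl (Adj N K E) X → X ∈ L := by
    intro n
    induction n using Nat.strong_induction_on with
    | _ n ih =>
      intro X hXn hX
      by_cases h1 : ∃ Y, Cl (Adj N K E) Y ∧ ¬ X ⊆ Y
      · by_cases h2 : ∃ Y1 Y2, Cl (Adj N K E) Y1 ∧ Cl (Adj N K E) Y2 ∧ Y1 ⊂ X ∧ Y2 ⊂ X ∧
            pol (Adj N K E) X = pol (Adj N K E) (Y1 ∪ Y2)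
        · obtain ⟨Y1, Y2, c1, c2, s1, s2, hpol⟩ := h2
          apply hL.join Y1 _ Y2 _ X hX (Finset.union_subset s1.subset s2.subset) hpol
          · exact ih Y1.card (by rw [← hXn]; exact Finset.card_lt_card s1) Y1 rfl c1
          · exact ih Y2.card (by rw [← hXn]; exact Finset.card_lt_card s2) Y2 rfl c2
        · apply hXL
          rw [Finset.mem_filter]
          exact ⟨Finset.mem_univ _, hX, h1, h2⟩
      · push Not at h1
        apply hmax X hX
        intro c hc
        rw [Finset.union_eq_right.2 (h1 c (hL.closed c hc))]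
        exact h.dl_closed (hL.closed c hc)
  intro X Y hX hY
  exact hL.pair X (hall _ X rfl hX) Y (hall _ Y rfl hY)

/-- an irreducible closed set has a largest smaller closed set -/
theorem JIrr.exists_largest {R : ι → κ → Prop} {X : Finset ι} (h : JIrr R X) :
    ∃ Y1, Cl R Y1 ∧ Y1 ⊂ X ∧ ∀ Y, Cl R Y → Y ⊂ X → Y ⊆ Y1 := by
  classical
  obtain ⟨hX, ⟨Y0, hY0, hXY0⟩, h2⟩ := h
  obtain ⟨Y1, hY1, hmax⟩ := Finset.exists_max_image
    (Finset.univ.filter (fun Y => Cl R Y ∧ Y ⊂ X)) (fun Y => Y.card)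
    ⟨X ∩ Y0, by
      rw [Finset.mem_filter]
      refine ⟨Finset.mem_univ _, closed_inter hX hY0, ?_⟩
      rw [Finset.ssubset_iff_subset_ne]
      exact ⟨Finset.inter_subset_left, fun heq => hXY0 (Finset.inter_eq_left.1 heq)⟩⟩
  rw [Finset.mem_filter] at hY1
  refine ⟨Y1, hY1.2.1, hY1.2.2, ?_⟩
  intro Y hY hYX
  by_contra hne
  apply h2
  refine ⟨Y1, Y, hY1.2.1, hY, hY1.2.2, hYX, ?_⟩
  obtain ⟨C, hC, hCX, hCp⟩ := exists_closure R (Y1 ∪ Y)
  have hCsub : C ⊆ X := by
    intro i hi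
    rw [hX.mem_iff]
    intro j hj
    have : j ∈ pol R C := by
      rw [hCp, mem_pol]
      intro i' hi'
      rw [mem_pol] at hj
      exact hj i' (Finset.union_subset hY1.2.2.subset hYX.subset hi')
    exact mem_pol.1 this i hi
  have hCeq : C = X := by
    by_contra hCne
    have h3 := hmax C (by
      rw [Finset.mem_filter]
      exact ⟨Finset.mem_univ _, hC, Finset.ssubset_iff_subset_ne.2 ⟨hCsub, hCne⟩⟩)
    have h4 : Y1 = C :=
      Finset.eq_of_subset_of_card_le (Finset.subset_union_left.trans hCX) h3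
    apply hne
    rw [h4]
    exact Finset.subset_union_right.trans hCX
  rw [← hCeq, hCp]

end

end Pool.Agent.H765
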