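import Pool.Agent.helper765_bt.PairFam
import Pool.Agent.helper765_bt.Exist

/-!
A dual pair of presentations for which every two cyclic flats form a modular pair comes from a
principal matroid.
-/

open Finset

set_option linter.unusedSectionVars false

namespace Pool.Agent.H765

universe u v

/-- two maps to finite sets with the same numbers of values below every set are equal up to a
bijection -/
theorem exists_equiv_of_below {A B Q : Type*} [Fintype A] [Fintype B] [DecidableEq Q]
    (f : A → Finset Q) (g : B → Finset Q)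
    (h : ∀ U : Finset Q, (Finset.univ.filter (fun a => f a ⊆ U)).card =
      (Finset.univ.filter (fun b => g b ⊆ U)).card) :
    ∃ σ : A ≃ B, ∀ a, g (σ a) = f a := by
  classical
  have key : ∀ U : Finset Q, (Finset.univ.filter (fun a => f a = U)).card =
      (Finset.univ.filter (fun b => g b = U)).card := by
    intro U
    induction U using Finset.strongInduction with
    | _ U ih =>
      have hA : (Finset.univ.filter (fun a => f a ⊆ U)).card =
          ∑ V ∈ U.powerset, (Finset.univ.filter (fun a => f a = V)).card := by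
        rw [Finset.card_eq_sum_card_fiberwise (f := f) (t := U.powerset)]
        · apply Finset.sum_congr rfl
          intro V hV
          congr 1
          ext a
          rw [Finset.mem_filter, Finset.mem_filter, Finset.mem_filter]
          constructor
          · rintro ⟨⟨h1, _⟩, h2⟩; exact ⟨h1, h2⟩
          · rintro ⟨h1, h2⟩
            exact ⟨⟨h1, by rw [h2]; exact Finset.mem_powerset.1 hV⟩, h2⟩
        · intro a ha
          rw [Finset.mem_coe, Finset.mem_filter] at ha
          rw [Finset.mem_coe, Finset.mem_powerset]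
          exact ha.2
      have hB : (Finset.univ.filter (fun b => g b ⊆ U)).card =
          ∑ V ∈ U.powerset, (Finset.univ.filter (fun b => g b = V)).card := by
        rw [Finset.card_eq_sum_card_fiberwise (f := g) (t := U.powerset)]
        · apply Finset.sum_congr rfl
          intro V hV
          congr 1
          ext a
          rw [Finset.mem_filter, Finset.mem_filter, Finset.mem_filter]
          constructor
          · rintro ⟨⟨h1, _⟩, h2⟩; exact ⟨h1, h2⟩
          · rintro ⟨h1, h2⟩
            exact ⟨⟨h1, by rw [h2]; exact Finset.mem_powerset.1 hV⟩, h2⟩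
        · intro a ha
          rw [Finset.mem_coe, Finset.mem_filter] at ha
          rw [Finset.mem_coe, Finset.mem_powerset]
          exact ha.2
      have h1 := h U
      rw [hA, hB] at h1
      have hU : U ∈ U.powerset := Finset.mem_powerset_self U
      rw [← Finset.add_sum_erase _ _ hU, ← Finset.add_sum_erase _ _ hU] at h1
      have h2 : ∑ V ∈ U.powerset.erase U, (Finset.univ.filter (fun a => f a = V)).card =
          ∑ V ∈ U.powerset.erase U, (Finset.univ.filter (fun b => g b = V)).card := by
        apply Finset.sum_congr rfl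
        intro V hV
        rw [Finset.mem_erase, Finset.mem_powerset] at hV
        exact ih V (Finset.ssubset_iff_subset_ne.2 ⟨hV.2, hV.1⟩)
      omega
  have hfib : ∀ U : Finset Q, Nonempty ({a // f a = U} ≃ {b // g b = U}) := by
    intro U
    rw [← Fintype.card_eq, Fintype.card_subtype, Fintype.card_subtype]
    exact key U
  refine ⟨Equiv.ofFiberEquiv (f := f) (g := g) (fun U => (hfib U).some), ?_⟩
  intro a
  exact Equiv.ofFiberEquiv_map _ _

section

variable {α : Type v} [DecidableEq α] {ι κ : Type u} [DecidableEq ι] [DecidableEq κ]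
  [Fintype ι] [Fintype κ] {M : Matroid α} {N : α → Finset ι} {K : α → Finset κ} {E : Finset α}

/-- all unions of closed sets tight: the system is equivalent to a star system -/
theorem Sys.exists_star_of_tight (h : Sys M N K E)
    (ht : ∀ 𝒳 : Finset (Finset ι), (∀ X ∈ 𝒳, Cl (Adj N K E) X) →
      dl N K E (𝒳.biUnion id) = 0) :
    ∃ (b : ι → α) (c : κ → α) (N' : α → Finset ι) (K' : α → Finset κ),
      Star (Adj N K E) b c N' K' E ∧ ∀ X, Cl (Adj N K E) X → cov N' E X = cov N E X := by
  classical
  set 𝒬 : Finset (Finset ι) := Finset.univ.filter (fun X => Cl (Adj N K E) X) with h𝒬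
  have mem𝒬 : ∀ X, X ∈ 𝒬 ↔ Cl (Adj N K E) X := by
    intro X
    rw [h𝒬, Finset.mem_filter]
    exact ⟨fun h => h.2, fun h => ⟨Finset.mem_univ _, h⟩⟩
  let f : {e // e ∈ E} → Finset (Finset ι) := fun e => 𝒬.filter (fun X => e.1 ∈ cov N E X)
  let g : ι ⊕ κ → Finset (Finset ι) := fun w => 𝒬.filter (fun X =>
    (∃ i, w = Sum.inl i ∧ i ∈ X) ∨ (∃ j, w = Sum.inr j ∧ j ∈ nbr N K E X))
  obtain ⟨σ, hσ⟩ := exists_equiv_of_below f g (by
    intro U
    set T := 𝒬 \ U with hT
    have htT := ht T (fun X hX => (mem𝒬 X).1 (Finset.mem_sdiff.1 hX).1)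
    have c1 : (Finset.univ.filter (fun e => f e ⊆ U)).card =
        (E \ cov N E (T.biUnion id)).card := by
      rw [← Finset.card_map (Function.Embedding.subtype (fun e => e ∈ E))]
      congr 1
      ext e
      rw [Finset.mem_map, Finset.mem_sdiff]
      constructor
      · rintro ⟨e', he', rfl⟩
        rw [Finset.mem_filter] at he'
        refine ⟨e'.2, fun hcov => ?_⟩
        rw [mem_cov] at hcov
        obtain ⟨_, i, hi, hiT⟩ := hcov
        obtain ⟨X, hX, hiX⟩ := Finset.mem_biUnion.1 hiT
        rw [hT, Finset.mem_sdiff] at hX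
        apply hX.2
        apply he'.2
        rw [Finset.mem_filter]
        exact ⟨hX.1, mem_cov.2 ⟨e'.2, i, hi, hiX⟩⟩
      · rintro ⟨he, hcov⟩
        refine ⟨⟨e, he⟩, ?_, rfl⟩
        rw [Finset.mem_filter]
        refine ⟨Finset.mem_univ _, fun X hX => ?_⟩
        rw [Finset.mem_filter] at hX
        by_contra hXU
        apply hcov
        obtain ⟨_, i, hi, hiX⟩ := mem_cov.1 hX.2
        exact mem_cov.2 ⟨he, i, hi, Finset.mem_biUnion.2
          ⟨X, Finset.mem_sdiff.2 ⟨hX.1, hXU⟩, hiX⟩⟩
    have c2 : (Finset.univ.filter (fun w => g w ⊆ U)).card =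
        ((T.biUnion id)ᶜ).card + ((nbr N K E (T.biUnion id))ᶜ).card := by
      rw [← Finset.card_disjSum]
      congr 1
      ext w
      rw [Finset.mem_filter]
      constructor
      · rintro ⟨_, hw⟩
        rcases w with i | j
        · rw [Finset.inl_mem_disjSum, Finset.mem_compl]
          intro hi
          obtain ⟨X, hX, hiX⟩ := Finset.mem_biUnion.1 hi
          rw [hT, Finset.mem_sdiff] at hX
          apply hX.2
          apply hw
          rw [Finset.mem_filter]
          exact ⟨hX.1, Or.inl ⟨i, rfl, hiX⟩⟩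
        · rw [Finset.inr_mem_disjSum, Finset.mem_compl]
          intro hj
          rw [mem_nbr_adj] at hj
          obtain ⟨i, hi, hij⟩ := hj
          obtain ⟨X, hX, hiX⟩ := Finset.mem_biUnion.1 hi
          rw [hT, Finset.mem_sdiff] at hX
          apply hX.2
          apply hw
          rw [Finset.mem_filter]
          exact ⟨hX.1, Or.inr ⟨j, rfl, mem_nbr_adj.2 ⟨i, hiX, hij⟩⟩⟩
      · intro hw
        refine ⟨Finset.mem_univ _, fun X hX => ?_⟩
        rw [Finset.mem_filter] at hX
        obtain ⟨hX𝒬, hX'⟩ := hX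
        by_contra hXU
        have hXT : X ∈ T := Finset.mem_sdiff.2 ⟨hX𝒬, hXU⟩
        rcases hX' with ⟨i, rfl, hi⟩ | ⟨j, rfl, hj⟩
        · rw [Finset.inl_mem_disjSum, Finset.mem_compl] at hw
          exact hw (Finset.mem_biUnion.2 ⟨X, hXT, hi⟩)
        · rw [Finset.inr_mem_disjSum, Finset.mem_compl] at hw
          apply hw
          rw [mem_nbr_adj] at hj ⊢
          obtain ⟨i, hi, hij⟩ := hj
          exact ⟨i, Finset.mem_biUnion.2 ⟨X, hXT, hi⟩, hij⟩
    rw [c1, c2, Finset.card_compl, Finset.card_compl]
    have c3 : (E \ cov N E (T.biUnion id)).card + (cov N E (T.biUnion id)).card = E.card :=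
      Finset.card_sdiff_add_card_eq_card (Finset.filter_subset _ _)
    have c4 := Finset.card_le_univ (T.biUnion id)
    have c5 := Finset.card_le_univ (nbr N K E (T.biUnion id))
    have c6 := h.card
    unfold dl at htT
    omega)
  have hfσ : ∀ w, f (σ.symm w) = g w := by
    intro w
    rw [← hσ, Equiv.apply_symm_apply]
  have hb : Function.Injective (fun i : ι => (σ.symm (Sum.inl i)).1) := by
    intro i i' hii
    exact Sum.inl_injective (σ.symm.injective (Subtype.ext hii))
  have hc : Function.Injective (fun j : κ => (σ.symm (Sum.inr j)).1) := by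
    intro i i' hii
    exact Sum.inr_injective (σ.symm.injective (Subtype.ext hii))
  have hbc : ∀ (i : ι) (j : κ), (σ.symm (Sum.inl i)).1 ≠ (σ.symm (Sum.inr j)).1 := by
    intro i j hij
    have := σ.symm.injective (Subtype.ext hij)
    exact absurd this (by simp)
  have hmem : ∀ e, e ∈ E ↔ (∃ i : ι, e = (σ.symm (Sum.inl i)).1) ∨
      ∃ j : κ, e = (σ.symm (Sum.inr j)).1 := by
    intro e
    constructor
    · intro he
      obtain ⟨w, hw⟩ := σ.symm.surjective ⟨e, he⟩
      rcases w with i | j
      · exact Or.inl ⟨i, by rw [hw]⟩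
      · exact Or.inr ⟨j, by rw [hw]⟩
    · rintro (⟨i, rfl⟩ | ⟨j, rfl⟩)
      · exact (σ.symm _).2
      · exact (σ.symm _).2
  obtain ⟨N', K', hstar⟩ := exists_star (Adj N K E) hb hc hbc hmem
  refine ⟨_, _, N', K', hstar, ?_⟩
  intro X hX
  ext e
  constructor
  · intro he
    rw [mem_cov] at he
    obtain ⟨heE, i, hi, hiX⟩ := he
    rw [hstar.memN] at hi
    rcases hi with rfl | ⟨j, rfl, hR⟩
    · have h1 : X ∈ f (σ.symm (Sum.inl i)) := by
        rw [hfσ, Finset.mem_filter]
        exact ⟨(mem𝒬 X).2 hX, Or.inl ⟨i, rfl, hiX⟩⟩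
      exact (Finset.mem_filter.1 h1).2
    · have h1 : X ∈ f (σ.symm (Sum.inr j)) := by
        rw [hfσ, Finset.mem_filter]
        exact ⟨(mem𝒬 X).2 hX, Or.inr ⟨j, rfl, mem_nbr_adj.2 ⟨i, hiX, hR⟩⟩⟩
      exact (Finset.mem_filter.1 h1).2
  · intro he
    have heE : e ∈ E := (mem_cov.1 he).1
    rcases (hmem e).1 heE with ⟨i, rfl⟩ | ⟨j, rfl⟩
    · have h1 : X ∈ f (σ.symm (Sum.inl i)) := Finset.mem_filter.2 ⟨(mem𝒬 X).2 hX, he⟩
      rw [hfσ, Finset.mem_filter] at h1
      rcases h1.2 with ⟨i', hi', hi'X⟩ | ⟨j', hj', _⟩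
      · have : i = i' := Sum.inl_injective hi'
        subst this
        exact mem_cov.2 ⟨heE, i, (hstar.memN _ _).2 (Or.inl rfl), hi'X⟩
      · exact absurd hj' (by simp)
    · have h1 : X ∈ f (σ.symm (Sum.inr j)) := Finset.mem_filter.2 ⟨(mem𝒬 X).2 hX, he⟩
      rw [hfσ, Finset.mem_filter] at h1
      rcases h1.2 with ⟨i', hi', _⟩ | ⟨j', hj', hj'X⟩
      · exact absurd hi' (by simp)
      · have : j = j' := Sum.inr_injective hj'
        subst this
        rw [mem_nbr_adj] at hj'X
        obtain ⟨i, hi, hij⟩ := hj'X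
        exact mem_cov.2 ⟨heE, i, (hstar.memN _ _).2 (Or.inr ⟨j, rfl, hij⟩), hi⟩

/-- two systems with the same relation and the same covered sets present the same matroid -/
theorem Sys.indep_imp {P : Matroid α} {N' : α → Finset ι} {K' : α → Finset κ}
    (h : Sys M N K E) (h' : Sys P N' K' E) (hR : Adj N' K' E = Adj N K E)
    (hc : ∀ X, Cl (Adj N K E) X → cov N' E X = cov N E X) {I : Set α} (hI : M.Indep I) :
    P.Indep I := by
  have hPf : P.Finite := ⟨by rw [← h'.ground]; exact E.finite_toSet⟩
  apply indep_of_cycFlat hPf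
  · rw [← h'.ground, h.ground]; exact hI.subset_ground
  · intro F hF
    obtain ⟨X, hX, rfl⟩ := h'.exists_closed hF
    rw [h'.eRk_eq hX]
    rw [hR] at hX
    rw [hc X hX, ← h.eRk_eq hX, ← (hI.subset Set.inter_subset_left).eRk_eq_encard]
    exact M.eRk_mono Set.inter_subset_right

/-- the deficiency of the union of two closed sets whose cyclic flats form a modular pair -/
theorem Sys.dl_of_modular (h : Sys M N K E) {X X' : Finset ι} (hX : Cl (Adj N K E) X)
    (hX' : Cl (Adj N K E) X')
    (hmod : M.eRk (((E \ cov N E X : Finset α) : Set α) ∪ ((E \ cov N E X' : Finset α) : Set α)) +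
      M.eRk (((E \ cov N E X : Finset α) : Set α) ∩ ((E \ cov N E X' : Finset α) : Set α)) =
      M.eRk ((E \ cov N E X : Finset α) : Set α) + M.eRk ((E \ cov N E X' : Finset α) : Set α)) :
    dl N K E (X ∪ X') = 0 := by
  have hint : Cl (Adj N K E) (X ∩ X') := by
    intro i hi
    rw [Finset.mem_inter]
    constructor
    · apply hX
      intro k hk
      obtain ⟨i', hi', hk'⟩ := hi k hk
      exact ⟨i', (Finset.mem_inter.1 hi').1, hk'⟩
    · apply hX'
      intro k hk
      obtain ⟨i', hi', hk'⟩ := hi k hk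
      exact ⟨i', (Finset.mem_inter.1 hi').2, hk'⟩
  -- the union
  have hu : M.eRk (((E \ cov N E X : Finset α) : Set α) ∪ ((E \ cov N E X' : Finset α) : Set α)) ≤
      ((Fintype.card ι - (X ∩ X').card : ℕ) : ℕ∞) := by
    rw [← h.eRk_eq hint]
    apply M.eRk_mono
    apply Set.union_subset
    · rw [Finset.coe_subset]
      exact (h.subset_iff hX).2 Finset.inter_subset_left
    · rw [Finset.coe_subset]
      exact (h.subset_iff hX').2 Finset.inter_subset_right
  -- the intersection
  set U := E \ cov N E (X ∪ X') with hU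
  have hUeq : ((E \ cov N E X : Finset α) : Set α) ∩ ((E \ cov N E X' : Finset α) : Set α) =
      (U : Set α) := by
    rw [hU, cov_union, ← Finset.coe_inter]
    congr 1
    ext e
    simp only [Finset.mem_inter, Finset.mem_sdiff, Finset.mem_union]
    tauto
  have hUflat : M.IsFlat (U : Set α) := by
    rw [← hUeq]
    have f1 := (h.cycFlat hX).1
    have f2 := (h.cycFlat hX').1
    rw [Matroid.isFlat_iff_closure_eq]
    apply Set.Subset.antisymm
    · apply Set.subset_inter
      · have := M.closure_subset_closure (Set.inter_subset_left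
          (s := ((E \ cov N E X : Finset α) : Set α)) (t := ((E \ cov N E X' : Finset α) : Set α)))
        rwa [f1.closure] at this
      · have := M.closure_subset_closure (Set.inter_subset_right
          (s := ((E \ cov N E X : Finset α) : Set α)) (t := ((E \ cov N E X' : Finset α) : Set α)))
        rwa [f2.closure] at this
    · exact M.subset_closure _ (Set.inter_subset_left.trans f1.subset_ground)
  obtain ⟨X0, hX0, hF0⟩ := h.exists_closed (cycFlat_cycPart hUflat)
  obtain ⟨C, hC, hCX, hCp⟩ := exists_closure (Adj N K E) (X ∪ X')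
  have hCn := nbr_of_pol hCp
  have hCU : ((E \ cov N E C : Finset α) : Set α) ⊆ (U : Set α) := by
    rw [Finset.coe_subset, hU]
    exact Finset.sdiff_subset_sdiff (Finset.Subset.refl _) (cov_mono N E hCX)
  have hX0C : X0 ⊆ C := by
    apply (h.subset_iff hC).1
    rw [← Finset.coe_subset, hF0]
    exact (h.cycFlat hC).subset_cycPart hCU
  have hn0 : (nbr N K E X0).card ≤ (nbr N K E (X ∪ X')).card := by
    rw [← hCn]
    exact Finset.card_le_card (nbr_mono N K E hX0C)
  have hsub0 : E \ cov N E X0 ⊆ U := by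
    rw [← Finset.coe_subset, hF0]
    exact cycPart_subset
  have hrU : M.eRk (U : Set α) ≤
      ((Fintype.card ι - X0.card + (U.card - (E \ cov N E X0).card) : ℕ) : ℕ∞) := by
    calc M.eRk (U : Set α) = M.eRk (((E \ cov N E X0 : Finset α) : Set α) ∪
          ((U \ (E \ cov N E X0) : Finset α) : Set α)) := by
            rw [← Finset.coe_union, Finset.union_sdiff_of_subset hsub0]
      _ ≤ M.eRk ((E \ cov N E X0 : Finset α) : Set α) +
          M.eRk ((U \ (E \ cov N E X0) : Finset α) : Set α) := M.eRk_union_le_eRk_add_eRk _ _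
      _ ≤ ((Fintype.card ι - X0.card : ℕ) : ℕ∞) +
          ((U \ (E \ cov N E X0)).card : ℕ∞) := by
            rw [h.eRk_eq hX0]
            gcongr
            rw [← Set.encard_coe_eq_coe_finsetCard]
            exact M.eRk_le_encard _
      _ = _ := by
            rw [Finset.card_sdiff_of_subset hsub0]
            push_cast
            rfl
  rw [hUeq, h.eRk_eq hX, h.eRk_eq hX'] at hmod
  have h1 : (((Fintype.card ι - X.card) + (Fintype.card ι - X'.card) : ℕ) : ℕ∞) ≤
      (((Fintype.card ι - (X ∩ X').card) +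
        (Fintype.card ι - X0.card + (U.card - (E \ cov N E X0).card)) : ℕ) : ℕ∞) := by
    push_cast
    push_cast at hmod hu hrU
    rw [← hmod]
    exact add_le_add hu hrU
  have h2 : (Fintype.card ι - X.card) + (Fintype.card ι - X'.card) ≤
      (Fintype.card ι - (X ∩ X').card) +
        (Fintype.card ι - X0.card + (U.card - (E \ cov N E X0).card)) := by
    exact_mod_cast h1
  have k1 := Finset.card_le_univ X
  have k2 := Finset.card_le_univ X'
  have k3 := Finset.card_le_univ X0
  have k4 := Finset.card_union_add_card_inter X X'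
  have k5 := (h.closed_eq hX0).2.1
  have k6 : (E \ cov N E X0).card + (cov N E X0).card = E.card :=
    Finset.card_sdiff_add_card_eq_card (Finset.filter_subset _ _)
  have k7 : U.card + (cov N E (X ∪ X')).card = E.card :=
    Finset.card_sdiff_add_card_eq_card (Finset.filter_subset _ _)
  have k8 := Finset.card_le_card hsub0
  have k9 := dl_nonneg h.dh1 (X ∪ X')
  have k10 := Finset.card_le_card (Finset.inter_subset_left (s₁ := X) (s₂ := X'))
  unfold dl at k9 ⊢
  omega

/-- a system in which the closed sets form tight pairs is equivalent to a star system -/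
theorem Sys.principal (h : Sys M N K E)
    (ht : ∀ X Y, Cl (Adj N K E) X → Cl (Adj N K E) Y → dl N K E (X ∪ Y) = 0) :
    ∃ (b : ι → α) (c : κ → α) (N' : α → Finset ι) (K' : α → Finset κ),
      Star (Adj N K E) b c N' K' E ∧ Pres M N' := by
  obtain ⟨b, c, N', K', hstar, hcov⟩ := h.exists_star_of_tight (fun 𝒳 hcl =>
    h.family hcl (fun X hX Y hY => ht X Y (hcl X hX) (hcl Y hY)))
  refine ⟨b, c, N', K', hstar, ?_⟩
  obtain ⟨P, hPE, hP⟩ := exists_pres N' E (by
    rintro e ⟨i, hi⟩
    rw [hstar.memN] at hi
    rw [hstar.mem]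
    rcases hi with h | ⟨j, h, _⟩
    · exact Or.inl ⟨i, h⟩
    · exact Or.inr ⟨j, h⟩)
  have hsP := hstar.sys hPE hP
  intro I
  rw [← hP]
  constructor
  · intro hI
    exact h.indep_imp hsP hstar.adj hcov hI
  · intro hI
    apply hsP.indep_imp h hstar.adj.symm _ hI
    intro X hX
    rw [hstar.adj] at hX
    exact (hcov X hX).symm

/-- in a star system the cyclic flats form modular pairs -/
theorem Star.modular {R : ι → κ → Prop} {b : ι → α} {c : κ → α} (hs : Star R b c N K E)
    (hE : M.E = (E : Set α)) (hM : Pres M N) {F G : Set α} (hF : CycFlat M F)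
    (hG : CycFlat M G) : M.eRk (F ∪ G) + M.eRk (F ∩ G) = M.eRk F + M.eRk G := by
  have h := hs.sys hE hM
  obtain ⟨X, hX, rfl⟩ := h.exists_closed hF
  obtain ⟨X', hX', rfl⟩ := h.exists_closed hG
  apply le_antisymm
  · rw [add_comm]
    exact M.eRk_submod _ _
  · have key : ∀ Z : Finset ι, M.Indep ((Zᶜ.map ⟨b, hs.b_inj⟩ : Finset α) : Set α) := by
      intro Z
      rw [hM]
      intro D hD
      have h1 : D ⊆ (D.biUnion N).map ⟨b, hs.b_inj⟩ := by
        intro e he
        have h2 := hD he
        rw [Finset.mem_map] at h2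
        obtain ⟨i, _, rfl⟩ := h2
        rw [Finset.mem_map]
        exact ⟨i, Finset.mem_biUnion.2 ⟨_, he, (hs.memN _ _).2 (Or.inl rfl)⟩, rfl⟩
      have h3 := Finset.card_le_card h1
      rwa [Finset.card_map] at h3
    have hb : ∀ (i : ι) (Z : Finset ι), i ∉ Z → b i ∈ E \ cov N E Z := by
      intro i Z hi
      rw [Finset.mem_sdiff]
      refine ⟨(hs.mem _).2 (Or.inl ⟨i, rfl⟩), fun h' => ?_⟩
      rw [mem_cov] at h'
      obtain ⟨_, i', h1, h2⟩ := h'
      rw [hs.memN] at h1
      rcases h1 with h1 | ⟨j, h1, _⟩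
      · rw [hs.b_inj h1] at hi; exact hi h2
      · exact hs.ne i j h1
    have hcu : ((Fintype.card ι - (X ∩ X').card : ℕ) : ℕ∞) ≤
        M.eRk (((E \ cov N E X : Finset α) : Set α) ∪
          ((E \ cov N E X' : Finset α) : Set α)) := by
      rw [Matroid.le_eRk_iff]
      refine ⟨_, ?_, key (X ∩ X'), ?_⟩
      · intro e he
        rw [Finset.mem_coe, Finset.mem_map] at he
        obtain ⟨i, hi, rfl⟩ := he
        rw [Finset.mem_compl, Finset.mem_inter, not_and_or] at hi
        rcases hi with hi | hi
        · exact Or.inl (hb i X hi)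
        · exact Or.inr (hb i X' hi)
      · rw [Set.encard_coe_eq_coe_finsetCard, Finset.card_map, Finset.card_compl]
    have hci : ((Fintype.card ι - (X ∪ X').card : ℕ) : ℕ∞) ≤
        M.eRk (((E \ cov N E X : Finset α) : Set α) ∩
          ((E \ cov N E X' : Finset α) : Set α)) := by
      rw [Matroid.le_eRk_iff]
      refine ⟨_, ?_, key (X ∪ X'), ?_⟩
      · intro e he
        rw [Finset.mem_coe, Finset.mem_map] at he
        obtain ⟨i, hi, rfl⟩ := he
        rw [Finset.mem_compl, Finset.mem_union, not_or] at hi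
        exact ⟨hb i X hi.1, hb i X' hi.2⟩
      · rw [Set.encard_coe_eq_coe_finsetCard, Finset.card_map, Finset.card_compl]
    rw [h.eRk_eq hX, h.eRk_eq hX']
    refine le_trans ?_ (add_le_add hcu hci)
    have k1 := Finset.card_le_univ X
    have k2 := Finset.card_le_univ X'
    have k3 := Finset.card_le_univ (X ∪ X')
    have k4 := Finset.card_union_add_card_inter X X'
    have k5 := Finset.card_le_card (Finset.inter_subset_left (s₁ := X) (s₂ := X'))
    have k6 : (Fintype.card ι - X.card) + (Fintype.card ι - X'.card) ≤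
        (Fintype.card ι - (X ∩ X').card) + (Fintype.card ι - (X ∪ X').card) := by omega
    exact_mod_cast k6

end

end Pool.Agent.H765
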