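import Pool.Agent.helper765_bt.Dual
import Pool.Agent.helper765_bt.CycFlat

/-!
Dual pairs of presentations and the cyclic flats.
-/

open Finset

set_option linter.unusedSectionVars false

namespace Pool.Agent.H765

variable {α ι κ : Type*} [DecidableEq α] [DecidableEq ι] [DecidableEq κ]

/-- some element of `E` carries both indices -/
def Adj (N : α → Finset ι) (K : α → Finset κ) (E : Finset α) (i : ι) (j : κ) : Prop :=
  ∃ e ∈ E, i ∈ N e ∧ j ∈ K e

/-- closed sets of the relation -/
def Cl (R : ι → κ → Prop) (X : Finset ι) : Prop :=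
  ∀ i, (∀ j, R i j → ∃ i' ∈ X, R i' j) → i ∈ X

/-- the indices `j` related to no member of `X` -/
noncomputable def pol [Fintype κ] (R : ι → κ → Prop) (X : Finset ι) : Finset κ := by
  classical
  exact Finset.univ.filter (fun j => ∀ i ∈ X, ¬ R i j)

omit [DecidableEq ι] [DecidableEq κ] in
theorem mem_pol [Fintype κ] {R : ι → κ → Prop} {X : Finset ι} {j : κ} :
    j ∈ pol R X ↔ ∀ i ∈ X, ¬ R i j := by
  classical
  unfold pol
  rw [Finset.mem_filter]
  exact ⟨fun h => h.2, fun h => ⟨Finset.mem_univ _, h⟩⟩

omit [DecidableEq ι] [DecidableEq κ] in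
theorem Cl.mem_iff [Fintype κ] {R : ι → κ → Prop} {X : Finset ι} (h : Cl R X) {i : ι} :
    i ∈ X ↔ ∀ j ∈ pol R X, ¬ R i j := by
  constructor
  · intro hi j hj
    exact mem_pol.1 hj i hi
  · intro hi
    apply h
    intro j hij
    by_contra hcon
    push Not at hcon
    exact hi j (mem_pol.2 hcon) hij

omit [DecidableEq ι] [DecidableEq κ] in
theorem Cl.pol_cl [Fintype κ] {R : ι → κ → Prop} (X : Finset ι) :
    Cl (fun j i => R i j) (pol R X) := by
  intro j hj
  rw [mem_pol]
  intro i hi hij
  obtain ⟨j', hj', hij'⟩ := hj i hij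
  exact mem_pol.1 hj' i hi hij'

omit [DecidableEq ι] [DecidableEq κ] in
theorem Cl.pol_pol [Fintype ι] [Fintype κ] {R : ι → κ → Prop} {X : Finset ι} (h : Cl R X) :
    pol (fun j i => R i j) (pol R X) = X := by
  ext i
  rw [mem_pol, h.mem_iff]

omit [DecidableEq α] in
theorem mem_nbr_adj {N : α → Finset ι} {K : α → Finset κ} {E : Finset α} {X : Finset ι} {j : κ} :
    j ∈ nbr N K E X ↔ ∃ i ∈ X, Adj N K E i j := by
  rw [mem_nbr]
  constructor
  · rintro ⟨e, he, ⟨i, h1, h2⟩, h3⟩
    exact ⟨i, h2, e, he, h1, h3⟩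
  · rintro ⟨i, h2, e, he, h1, h3⟩
    exact ⟨e, he, ⟨i, h1, h2⟩, h3⟩

omit [DecidableEq α] in
theorem nbr_card [Fintype κ] (N : α → Finset ι) (K : α → Finset κ) (E : Finset α) (X : Finset ι) :
    (nbr N K E X).card + (pol (Adj N K E) X).card = Fintype.card κ := by
  have h : pol (Adj N K E) X = (nbr N K E X)ᶜ := by
    ext j
    rw [mem_pol, Finset.mem_compl, mem_nbr_adj]
    push Not
    rfl
  rw [h, Finset.card_compl]
  have := Finset.card_le_univ (nbr N K E X)
  omega

omit [DecidableEq α] [DecidableEq ι] [DecidableEq κ] in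
theorem adj_swap (N : α → Finset ι) (K : α → Finset κ) (E : Finset α) :
    Adj K N E = fun j i => Adj N K E i j := by
  funext j i
  apply propext
  constructor
  · rintro ⟨e, he, h1, h2⟩; exact ⟨e, he, h2, h1⟩
  · rintro ⟨e, he, h1, h2⟩; exact ⟨e, he, h2, h1⟩

/-- a dual pair of presentations satisfying the Hall type inequalities -/
structure Sys [Fintype ι] [Fintype κ] (M : Matroid α) (N : α → Finset ι) (K : α → Finset κ)
    (E : Finset α) : Prop where
  ground : (E : Set α) = M.E
  pres : Pres M N
  dpres : Pres M✶ K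
  card : Fintype.card ι + Fintype.card κ = E.card
  dh1 : DH N K E
  dh2 : DH K N E

section

variable [Fintype ι] [Fintype κ] {M : Matroid α} {N : α → Finset ι} {K : α → Finset κ}
  {E : Finset α}

theorem Sys.dual (h : Sys M N K E) : Sys M✶ K N E where
  ground := by rw [Matroid.dual_ground]; exact h.ground
  pres := h.dpres
  dpres := by rw [Matroid.dual_dual]; exact h.pres
  card := by rw [add_comm]; exact h.card
  dh1 := h.dh2
  dh2 := h.dh1

omit [Fintype ι] [Fintype κ] in
theorem disjoint_cov_of_adj {X : Finset ι} {Y : Finset κ}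
    (h : ∀ i ∈ X, ∀ j ∈ Y, ¬ Adj N K E i j) : Disjoint (cov N E X) (cov K E Y) := by
  classical
  rw [Finset.disjoint_left]
  intro e h1 h2
  rw [mem_cov] at h1 h2
  obtain ⟨he, i, hi, hiX⟩ := h1
  obtain ⟨_, j, hj, hjY⟩ := h2
  exact h i hiX j hjY ⟨e, he, hi, hj⟩

/-- for a closed set `X` both descriptions agree, and the sizes are determined -/
theorem Sys.closed_eq (h : Sys M N K E) {X : Finset ι} (hX : Cl (Adj N K E) X) :
    E \ cov N E X = cov K E (pol (Adj N K E) X) ∧
      (cov N E X).card = X.card + (nbr N K E X).card ∧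
      (cov K E (pol (Adj N K E) X)).card + X.card =
        Fintype.card ι + (pol (Adj N K E) X).card := by
  set Y := pol (Adj N K E) X with hY
  have hdisj : Disjoint (cov N E X) (cov K E Y) :=
    disjoint_cov_of_adj (fun i hi j hj => mem_pol.1 hj i hi)
  have h1 := h.dh1 X
  have h2 := h.dh2 Y
  have h3 := nbr_card N K E X
  have h4 := nbr_card K N E Y
  have h5 : pol (Adj K N E) Y = X := by
    rw [adj_swap, hY]; exact hX.pol_pol
  rw [h5] at h4
  rw [← hY] at h3
  have h6 : (cov N E X).card + (cov K E Y).card ≤ E.card := by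
    rw [← Finset.card_union_of_disjoint hdisj]
    apply Finset.card_le_card
    apply Finset.union_subset <;> exact Finset.filter_subset _ _
  have h7 := h.card
  have h8 : cov K E Y ⊆ E \ cov N E X := by
    intro e he
    rw [Finset.mem_sdiff]
    exact ⟨(mem_cov.1 he).1, fun h' => Finset.disjoint_left.1 hdisj h' he⟩
  have h9 : (E \ cov N E X).card = E.card - (cov N E X).card :=
    Finset.card_sdiff_of_subset (Finset.filter_subset _ _)
  refine ⟨?_, by omega, by omega⟩
  symm
  apply Finset.eq_of_subset_of_card_le h8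
  rw [h9]
  omega

omit [DecidableEq κ] [Fintype κ] in
/-- a matching of the indices outside of `X` into `W` -/
theorem exists_mt_compl {X : Finset ι} {W : Finset α}
    (h : ∀ T : Finset ι, Disjoint T X → T.card ≤ (cov N W T).card) :
    ∃ P ⊆ W, P.card = Fintype.card ι - X.card ∧ Mt N P := by
  classical
  let φ : {i // i ∉ X} ↪ ι := Function.Embedding.subtype _
  let N' : α → Finset {i // i ∉ X} := fun e => (N e).subtype (fun i => i ∉ X)
  have hmem : ∀ e (i : {i // i ∉ X}), i ∈ N' e ↔ i.1 ∈ N e := by
    intro e i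
    exact Finset.mem_subtype
  obtain ⟨P, hPW, hPc, hP⟩ := exists_perfect N' W (by
    intro X'
    have h1 := h (X'.map φ) (by
      rw [Finset.disjoint_left]
      intro i hi
      rw [Finset.mem_map] at hi
      obtain ⟨i', _, rfl⟩ := hi
      exact i'.2)
    rw [Finset.card_map] at h1
    refine h1.trans (Finset.card_le_card ?_)
    intro e he
    rw [mem_cov] at he ⊢
    obtain ⟨heW, i, hi, hiX⟩ := he
    rw [Finset.mem_map] at hiX
    obtain ⟨i', hi', rfl⟩ := hiX
    exact ⟨heW, i', (hmem e i').2 hi, hi'⟩)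
  refine ⟨P, hPW, ?_, ?_⟩
  · rw [hPc, Fintype.card_subtype_compl, Fintype.card_coe]
  · intro D hD
    refine (hP D hD).trans ?_
    rw [← Finset.card_map φ]
    apply Finset.card_le_card
    intro i hi
    rw [Finset.mem_map] at hi
    obtain ⟨i', hi', rfl⟩ := hi
    rw [Finset.mem_biUnion] at hi' ⊢
    obtain ⟨e, he, hi'⟩ := hi'
    exact ⟨e, he, (hmem e i').1 hi'⟩

/-- the indices outside of a closed set `X` can be matched into the complement of `cov X`, and
also after the removal of one element. -/
theorem Sys.exists_mt (h : Sys M N K E) {X : Finset ι} (hX : Cl (Adj N K E) X) :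
    (∃ P ⊆ E \ cov N E X, P.card = Fintype.card ι - X.card ∧ Mt N P) ∧
    ∀ e ∈ E \ cov N E X, ∃ P ⊆ (E \ cov N E X).erase e,
      P.card = Fintype.card ι - X.card ∧ Mt N P := by
  obtain ⟨h1, h2, h3⟩ := h.closed_eq hX
  have key : ∀ T : Finset ι, Disjoint T X →
      T.card + (nbr N K E (T ∪ X)).card ≤ (cov N (E \ cov N E X) T).card + (nbr N K E X).card := by
    intro T hT
    have h4 := h.dh1 (T ∪ X)
    rw [Finset.card_union_of_disjoint hT] at h4
    have h5 : cov N E (T ∪ X) ⊆ cov N (E \ cov N E X) T ∪ cov N E X := by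
      intro e he
      rw [Finset.mem_union]
      by_cases heX : e ∈ cov N E X
      · exact Or.inr heX
      · left
        rw [mem_cov] at he ⊢
        obtain ⟨heE, i, hi, hiT⟩ := he
        refine ⟨Finset.mem_sdiff.2 ⟨heE, heX⟩, i, hi, ?_⟩
        rw [Finset.mem_union] at hiT
        rcases hiT with h6 | h6
        · exact h6
        · exact absurd (mem_cov.2 ⟨heE, i, hi, h6⟩) heX
    have h6 := (Finset.card_le_card h5).trans (Finset.card_union_le _ _)
    omega
  have hmono : ∀ T : Finset ι, nbr N K E X ⊆ nbr N K E (T ∪ X) := by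
    intro T j hj
    rw [mem_nbr_adj] at hj ⊢
    obtain ⟨i, hi, hij⟩ := hj
    exact ⟨i, Finset.mem_union_right _ hi, hij⟩
  constructor
  · apply exists_mt_compl
    intro T hT
    have h4 := key T hT
    have h5 := Finset.card_le_card (hmono T)
    omega
  · intro e he
    apply exists_mt_compl
    intro T hT
    have h4 := key T hT
    have h5 := Finset.card_le_card (hmono T)
    by_cases heT : e ∈ cov N (E \ cov N E X) T
    · -- an additional neighbour
      have heY : e ∈ cov K E (pol (Adj N K E) X) := by rw [← h1]; exact he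
      rw [mem_cov] at heT heY
      obtain ⟨_, i, hi, hiT⟩ := heT
      obtain ⟨heE, j, hj, hjY⟩ := heY
      have h6 : j ∈ nbr N K E (T ∪ X) := by
        rw [mem_nbr_adj]
        exact ⟨i, Finset.mem_union_left _ hiT, e, heE, hi, hj⟩
      have h7 : j ∉ nbr N K E X := by
        rw [mem_nbr_adj]
        rintro ⟨i', hi', hij'⟩
        exact mem_pol.1 hjY i' hi' hij'
      have h8 : (nbr N K E X).card < (nbr N K E (T ∪ X)).card := by
        apply Finset.card_lt_card
        rw [Finset.ssubset_iff_of_subset (hmono T)]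
        exact ⟨j, h6, h7⟩
      have h9 : (cov N (E \ cov N E X) T) ⊆
          insert e (cov N ((E \ cov N E X).erase e) T) := by
        intro f hf
        rw [Finset.mem_insert]
        by_cases hfe : f = e
        · exact Or.inl hfe
        · right
          rw [mem_cov] at hf ⊢
          exact ⟨Finset.mem_erase.2 ⟨hfe, hf.1⟩, hf.2⟩
      have h10 := (Finset.card_le_card h9).trans (Finset.card_insert_le _ _)
      omega
    · have h9 : (cov N (E \ cov N E X) T) ⊆ cov N ((E \ cov N E X).erase e) T := by
        intro f hf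
        have hfe : f ≠ e := by rintro rfl; exact heT hf
        rw [mem_cov] at hf ⊢
        exact ⟨Finset.mem_erase.2 ⟨hfe, hf.1⟩, hf.2⟩
      have h10 := Finset.card_le_card h9
      omega

omit [DecidableEq κ] [Fintype κ] in
theorem mt_card_le_compl {X : Finset ι} {I : Finset α} (hI : Mt N I)
    (hIX : I ⊆ E \ cov N E X) : I.card ≤ Fintype.card ι - X.card := by
  rw [← Finset.card_compl]
  refine (hI I subset_rfl).trans (Finset.card_le_card ?_)
  intro i hi
  rw [Finset.mem_biUnion] at hi
  obtain ⟨e, he, hi⟩ := hi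
  rw [Finset.mem_compl]
  intro hiX
  have := hIX he
  rw [Finset.mem_sdiff] at this
  exact this.2 (mem_cov.2 ⟨this.1, i, hi, hiX⟩)

theorem finset_of_indep {M : Matroid α} {E : Finset α} (hE : (E : Set α) = M.E) {I : Set α}
    (hI : M.Indep I) : ∃ I' : Finset α, (I' : Set α) = I := by
  have hfin : I.Finite := (E.finite_toSet).subset (by rw [hE]; exact hI.subset_ground)
  exact ⟨hfin.toFinset, hfin.coe_toFinset⟩

theorem Sys.eRk_eq (h : Sys M N K E) {X : Finset ι} (hX : Cl (Adj N K E) X) :
    M.eRk ((E \ cov N E X : Finset α) : Set α) = ((Fintype.card ι - X.card : ℕ) : ℕ∞) := by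
  apply le_antisymm
  · rw [Matroid.eRk_le_iff]
    intro I hIX hI
    obtain ⟨I', rfl⟩ := finset_of_indep h.ground hI
    rw [Set.encard_coe_eq_coe_finsetCard]
    have := mt_card_le_compl ((h.pres I').1 hI) (by exact_mod_cast hIX)
    exact_mod_cast this
  · obtain ⟨⟨P, hPs, hPc, hP⟩, _⟩ := h.exists_mt hX
    rw [Matroid.le_eRk_iff]
    refine ⟨P, by exact_mod_cast hPs, (h.pres P).2 hP, ?_⟩
    rw [Set.encard_coe_eq_coe_finsetCard, hPc]

theorem Sys.isBasis (h : Sys M N K E) {X : Finset ι} (hX : Cl (Adj N K E) X) {P : Finset α}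
    (hPs : P ⊆ E \ cov N E X) (hPc : P.card = Fintype.card ι - X.card) (hP : Mt N P) :
    M.IsBasis (P : Set α) ((E \ cov N E X : Finset α) : Set α) := by
  have hsub : ((E \ cov N E X : Finset α) : Set α) ⊆ M.E := by
    rw [← h.ground]
    exact_mod_cast Finset.sdiff_subset
  apply Matroid.Indep.isBasis_of_eRk_ge ((h.pres P).2 hP) P.finite_toSet (by exact_mod_cast hPs) _
    hsub
  rw [h.eRk_eq hX, ((h.pres P).2 hP).eRk_eq_encard, Set.encard_coe_eq_coe_finsetCard, hPc]

theorem Sys.cycFlat (h : Sys M N K E) {X : Finset ι} (hX : Cl (Adj N K E) X) :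
    CycFlat M ((E \ cov N E X : Finset α) : Set α) := by
  have hsub : ((E \ cov N E X : Finset α) : Set α) ⊆ M.E := by
    rw [← h.ground]
    exact_mod_cast Finset.sdiff_subset
  obtain ⟨⟨P, hPs, hPc, hP⟩, hex⟩ := h.exists_mt hX
  constructor
  · apply isFlat_of_forall hsub
    intro e heE heU hcl
    rw [← h.ground] at heE
    have heE' : e ∈ E := by exact_mod_cast heE
    have heX : e ∈ cov N E X := by
      by_contra h'
      exact heU (by
        rw [Finset.mem_coe, Finset.mem_sdiff]; exact ⟨heE', h'⟩)
    have heP : e ∉ P := fun h' => (Finset.mem_sdiff.1 (hPs h')).2 heX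
    have hb := h.isBasis hX hPs hPc hP
    rw [← hb.closure_eq_closure] at hcl
    have hind : M.Indep ((insert e P : Finset α) : Set α) := by
      rw [h.pres]
      intro D hD
      by_cases heD : e ∈ D
      · have h1 : D.erase e ⊆ P := by
          intro f hf
          rw [Finset.mem_erase] at hf
          have := hD hf.2
          rw [Finset.mem_insert] at this
          exact this.resolve_left hf.1
        have h2 := hP _ h1
        obtain ⟨_, i, hi, hiX⟩ := mem_cov.1 heX
        have h3 : i ∉ (D.erase e).biUnion N := by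
          intro hi'
          rw [Finset.mem_biUnion] at hi'
          obtain ⟨f, hf, hif⟩ := hi'
          have := Finset.mem_sdiff.1 (hPs (h1 hf))
          exact this.2 (mem_cov.2 ⟨this.1, i, hif, hiX⟩)
        have h4 : insert i ((D.erase e).biUnion N) ⊆ D.biUnion N := by
          intro k hk
          rw [Finset.mem_insert] at hk
          rw [Finset.mem_biUnion]
          rcases hk with rfl | hk
          · exact ⟨e, heD, hi⟩
          · rw [Finset.mem_biUnion] at hk
            obtain ⟨f, hf, hk⟩ := hk
            exact ⟨f, Finset.mem_of_mem_erase hf, hk⟩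
        have h5 := Finset.card_le_card h4
        rw [Finset.card_insert_of_notMem h3] at h5
        rw [Finset.card_erase_of_mem heD] at h2
        omega
      · exact hP D (by
          intro f hf
          have := hD hf
          rw [Finset.mem_insert] at this
          rcases this with rfl | h'
          · exact absurd hf heD
          · exact h')
    rw [Finset.coe_insert] at hind
    exact (((h.pres P).2 hP).notMem_closure_iff_of_notMem (by exact_mod_cast heP)
      (by rw [← h.ground]; exact heE)).2 hind hcl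
  · intro e he
    obtain ⟨P', hP's, hP'c, hP'⟩ := hex e (by exact_mod_cast he)
    have hP's' : P' ⊆ E \ cov N E X := hP's.trans (Finset.erase_subset _ _)
    have hb := h.isBasis hX hP's' hP'c hP'
    have hcl : e ∈ M.closure (P' : Set α) := by
      rw [hb.closure_eq_closure]
      exact M.subset_closure _ hsub he
    have heP' : e ∉ (P' : Set α) := by
      intro h'
      exact (Finset.mem_erase.1 (hP's (by exact_mod_cast h'))).1 rfl
    obtain ⟨C, hCs, hC, heC⟩ := Matroid.exists_isCircuit_of_mem_closure hcl heP'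
    refine ⟨C, hC, ?_, heC⟩
    intro f hf
    rcases hCs hf with rfl | hf'
    · exact he
    · exact_mod_cast hP's' (by exact_mod_cast hf')

end

end Pool.Agent.H765
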