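import Pool.Agent.helper765_bt.Conv

/-!
Tight sets of indices: if the unions of two closed sets are tight, then the unions of all families
of closed sets are tight.
-/

open Finset

set_option linter.unusedSectionVars false

namespace Pool.Agent.H765

/-- inclusion and exclusion -/
theorem incl_excl {β γ : Type*} [DecidableEq β] [DecidableEq γ] (S : Finset β) (𝒳 : Finset γ)
    (B : γ → Finset β) (hB : ∀ x ∈ 𝒳, B x ⊆ S) (W : Finset β)
    (hW : ∀ b, b ∈ W ↔ b ∈ S ∧ ∀ x ∈ 𝒳, b ∈ B x) :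
    (W.card : ℤ) =
      ∑ T ∈ 𝒳.powerset, (-1) ^ T.card * ((S.card : ℤ) - (T.biUnion B).card) := by
  have hWeq : W = S.filter (fun b => ∀ x ∈ 𝒳, b ∈ B x) := by
    ext b
    rw [hW, Finset.mem_filter]
  rw [hWeq]
  have h1 : ∀ b, (if ∀ x ∈ 𝒳, b ∈ B x then (1 : ℤ) else 0) =
      ∑ T ∈ 𝒳.powerset, (-1) ^ T.card * (if ∀ x ∈ T, b ∉ B x then (1 : ℤ) else 0) := by
    intro b
    have h2 : (if ∀ x ∈ 𝒳, b ∈ B x then (1 : ℤ) else 0) =
        ∏ x ∈ 𝒳, (-(if b ∉ B x then (1 : ℤ) else 0) + 1) := by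
      by_cases h : ∀ x ∈ 𝒳, b ∈ B x
      · rw [if_pos h]
        symm
        apply Finset.prod_eq_one
        intro x hx
        rw [if_neg (not_not.2 (h x hx))]
        ring
      · rw [if_neg h]
        push Not at h
        obtain ⟨x, hx, hbx⟩ := h
        symm
        apply Finset.prod_eq_zero hx
        rw [if_pos hbx]
        ring
    rw [h2, Finset.prod_add]
    apply Finset.sum_congr rfl
    intro T hT
    rw [Finset.prod_const_one, mul_one, Finset.prod_neg]
    congr 1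
    by_cases h : ∀ x ∈ T, b ∉ B x
    · rw [if_pos h]
      apply Finset.prod_eq_one
      intro x hx
      rw [if_pos (h x hx)]
    · rw [if_neg h]
      push Not at h
      obtain ⟨x, hx, hbx⟩ := h
      apply Finset.prod_eq_zero hx
      rw [if_neg (not_not.2 hbx)]
  have h2 : ((S.filter (fun b => ∀ x ∈ 𝒳, b ∈ B x)).card : ℤ) =
      ∑ b ∈ S, (if ∀ x ∈ 𝒳, b ∈ B x then (1 : ℤ) else 0) := by
    rw [Finset.sum_boole]
  rw [h2]
  simp_rw [h1]
  rw [Finset.sum_comm]
  apply Finset.sum_congr rfl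
  intro T hT
  rw [← Finset.mul_sum, Finset.sum_boole]
  congr 1
  have h3 : S.filter (fun b => ∀ x ∈ T, b ∉ B x) = S \ T.biUnion B := by
    ext b
    rw [Finset.mem_filter, Finset.mem_sdiff, Finset.mem_biUnion]
    constructor
    · rintro ⟨h3, h4⟩
      refine ⟨h3, ?_⟩
      rintro ⟨x, hx, hb⟩
      exact h4 x hx hb
    · rintro ⟨h3, h4⟩
      exact ⟨h3, fun x hx hb => h4 ⟨x, hx, hb⟩⟩
  have h4 : T.biUnion B ⊆ S := by
    intro b hb
    rw [Finset.mem_biUnion] at hb
    obtain ⟨x, hx, hb⟩ := hb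
    exact hB x (Finset.mem_powerset.1 hT hx) hb
  have h5 := Finset.card_le_card h4
  rw [h3, Finset.card_sdiff_of_subset h4]
  push_cast [Nat.cast_sub h5]
  ring

section

variable {α : Type*} [DecidableEq α] {ι κ : Type*} [DecidableEq ι] [DecidableEq κ]

/-- the deficiency of a set of indices -/
def dl (N : α → Finset ι) (K : α → Finset κ) (E : Finset α) (X : Finset ι) : ℤ :=
  ((cov N E X).card : ℤ) - X.card - (nbr N K E X).card

variable {N : α → Finset ι} {K : α → Finset κ} {E : Finset α}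

theorem dl_nonneg (h : DH N K E) (X : Finset ι) : 0 ≤ dl N K E X := by
  have := h X
  unfold dl
  omega

theorem cov_union (N : α → Finset ι) (E : Finset α) (X Y : Finset ι) :
    cov N E (X ∪ Y) = cov N E X ∪ cov N E Y := by
  ext e
  rw [Finset.mem_union, mem_cov, mem_cov, mem_cov]
  constructor
  · rintro ⟨h, i, h1, h2⟩
    rw [Finset.mem_union] at h2
    rcases h2 with h2 | h2
    · exact Or.inl ⟨h, i, h1, h2⟩
    · exact Or.inr ⟨h, i, h1, h2⟩
  · rintro (⟨h, i, h1, h2⟩ | ⟨h, i, h1, h2⟩)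
    · exact ⟨h, i, h1, Finset.mem_union_left _ h2⟩
    · exact ⟨h, i, h1, Finset.mem_union_right _ h2⟩

theorem cov_mono (N : α → Finset ι) (E : Finset α) {X Y : Finset ι} (h : X ⊆ Y) :
    cov N E X ⊆ cov N E Y := by
  intro e he
  rw [mem_cov] at he ⊢
  obtain ⟨h1, i, h2, h3⟩ := he
  exact ⟨h1, i, h2, h h3⟩

theorem nbr_union (N : α → Finset ι) (K : α → Finset κ) (E : Finset α) (X Y : Finset ι) :
    nbr N K E (X ∪ Y) = nbr N K E X ∪ nbr N K E Y := by
  ext j
  rw [Finset.mem_union, mem_nbr_adj, mem_nbr_adj, mem_nbr_adj]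
  constructor
  · rintro ⟨i, h2, h⟩
    rw [Finset.mem_union] at h2
    rcases h2 with h2 | h2
    · exact Or.inl ⟨i, h2, h⟩
    · exact Or.inr ⟨i, h2, h⟩
  · rintro (⟨i, h2, h⟩ | ⟨i, h2, h⟩)
    · exact ⟨i, Finset.mem_union_left _ h2, h⟩
    · exact ⟨i, Finset.mem_union_right _ h2, h⟩

theorem nbr_mono (N : α → Finset ι) (K : α → Finset κ) (E : Finset α) {X Y : Finset ι}
    (h : X ⊆ Y) : nbr N K E X ⊆ nbr N K E Y := by
  intro j hj
  rw [mem_nbr_adj] at hj ⊢
  obtain ⟨i, h2, h3⟩ := hj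
  exact ⟨i, h h2, h3⟩

theorem dl_submod {X1 X2 U : Finset ι} (h1 : X1 ∩ X2 ⊆ U)
    (h2 : nbr N K E X1 ∩ nbr N K E X2 ⊆ nbr N K E U) :
    dl N K E (U ∪ X1 ∪ X2) + dl N K E U ≤ dl N K E (U ∪ X1) + dl N K E (U ∪ X2) := by
  have e1 : (U ∪ X1) ∪ (U ∪ X2) = U ∪ X1 ∪ X2 := by
    ext i; simp only [Finset.mem_union]; tauto
  have e2 : (U ∪ X1) ∩ (U ∪ X2) = U := by
    ext i
    simp only [Finset.mem_union, Finset.mem_inter]
    constructor
    · rintro ⟨ha | ha, hb | hb⟩
      · exact ha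
      · exact ha
      · exact hb
      · exact h1 (Finset.mem_inter.2 ⟨ha, hb⟩)
    · intro ha; exact ⟨Or.inl ha, Or.inl ha⟩
  have c1 := Finset.card_union_add_card_inter (U ∪ X1) (U ∪ X2)
  rw [e1, e2] at c1
  have e3 : nbr N K E (U ∪ X1) ∩ nbr N K E (U ∪ X2) = nbr N K E U := by
    rw [nbr_union, nbr_union]
    ext i
    simp only [Finset.mem_union, Finset.mem_inter]
    constructor
    · rintro ⟨ha | ha, hb | hb⟩
      · exact ha
      · exact ha
      · exact hb
      · exact h2 (Finset.mem_inter.2 ⟨ha, hb⟩)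
    · intro ha; exact ⟨Or.inl ha, Or.inl ha⟩
  have c2 := Finset.card_union_add_card_inter (nbr N K E (U ∪ X1)) (nbr N K E (U ∪ X2))
  rw [e3, ← nbr_union, e1] at c2
  have c3 := Finset.card_union_add_card_inter (cov N E (U ∪ X1)) (cov N E (U ∪ X2))
  rw [← cov_union, e1] at c3
  have c4 : (cov N E U).card ≤ (cov N E (U ∪ X1) ∩ cov N E (U ∪ X2)).card := by
    apply Finset.card_le_card
    exact Finset.subset_inter (cov_mono N E Finset.subset_union_left)
      (cov_mono N E Finset.subset_union_left)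
  unfold dl
  omega

/-- the elements that meet `X` and `C` but not `X ∩ C` -/
def bd (N : α → Finset ι) (E : Finset α) (X C : Finset ι) : Finset α :=
  (cov N E X ∩ cov N E C) \ cov N E (X ∩ C)

theorem dl_identity {X C : Finset ι} (h : nbr N K E C ⊆ nbr N K E (X ∩ C)) :
    dl N K E X + dl N K E C = dl N K E (X ∪ C) + dl N K E (X ∩ C) + (bd N E X C).card := by
  have c1 := Finset.card_union_add_card_inter X C
  have e2 : nbr N K E X ∩ nbr N K E C = nbr N K E (X ∩ C) := by
    apply Finset.Subset.antisymm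
    · exact Finset.inter_subset_right.trans h
    · exact Finset.subset_inter (nbr_mono N K E Finset.inter_subset_left)
        (nbr_mono N K E Finset.inter_subset_right)
  have c2 := Finset.card_union_add_card_inter (nbr N K E X) (nbr N K E C)
  rw [e2, ← nbr_union] at c2
  have c3 := Finset.card_union_add_card_inter (cov N E X) (cov N E C)
  rw [← cov_union] at c3
  have c4 : cov N E (X ∩ C) ⊆ cov N E X ∩ cov N E C :=
    Finset.subset_inter (cov_mono N E Finset.inter_subset_left)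
      (cov_mono N E Finset.inter_subset_right)
  have c5 := Finset.card_sdiff_add_card_eq_card c4
  unfold dl bd
  omega

end

section

variable {α : Type*} [DecidableEq α] {ι κ : Type*} [DecidableEq ι] [DecidableEq κ]
  [Fintype ι] [Fintype κ] {M : Matroid α} {N : α → Finset ι} {K : α → Finset κ} {E : Finset α}

theorem Sys.dl_closed (h : Sys M N K E) {X : Finset ι} (hX : Cl (Adj N K E) X) :
    dl N K E X = 0 := by
  have := (h.closed_eq hX).2.1
  unfold dl
  omega

/-- the closure of a set of indices -/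
theorem exists_closure (R : ι → κ → Prop) (X : Finset ι) :
    ∃ C : Finset ι, Cl R C ∧ X ⊆ C ∧ pol R C = pol R X := by
  refine ⟨pol (fun j i => R i j) (pol R X), ?_, ?_, ?_⟩
  · exact Cl.pol_cl (R := fun j i => R i j) (pol R X)
  · intro i hi
    rw [mem_pol]
    intro j hj
    exact mem_pol.1 hj i hi
  · ext j
    constructor
    · intro hj
      rw [mem_pol] at hj ⊢
      intro i hi
      apply hj i
      rw [mem_pol]
      intro j' hj'
      exact mem_pol.1 hj' i hi
    · intro hj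
      rw [mem_pol]
      intro i hi
      exact mem_pol.1 hi j hj

theorem mem_pol_iff_notMem_nbr {X : Finset ι} {j : κ} :
    j ∈ pol (Adj N K E) X ↔ j ∉ nbr N K E X := by
  rw [mem_pol, mem_nbr_adj]
  push Not
  rfl

theorem nbr_of_pol {X C : Finset ι} (h : pol (Adj N K E) C = pol (Adj N K E) X) :
    nbr N K E C = nbr N K E X := by
  ext j
  have h1 := Finset.ext_iff.1 h j
  rw [mem_pol_iff_notMem_nbr, mem_pol_iff_notMem_nbr] at h1
  tauto

theorem Sys.mem_closed_iff {X : Finset ι} (hX : Cl (Adj N K E) X) {i : ι} :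
    i ∈ X ↔ i ∉ nbr K N E (pol (Adj N K E) X) := by
  rw [hX.mem_iff, mem_nbr_adj, adj_swap]
  push Not
  rfl

/-- the relation between the deficiencies of both sides -/
theorem Sys.relation (h : Sys M N K E) {𝒳 : Finset (Finset ι)}
    (hcl : ∀ X ∈ 𝒳, Cl (Adj N K E) X) :
    dl K N E (𝒳.biUnion (pol (Adj N K E))) =
      ∑ T ∈ 𝒳.powerset, (-1) ^ T.card * dl N K E (T.biUnion id) := by
  have hc := h.card
  -- the unions
  have u1 : ∀ T : Finset (Finset ι), T.biUnion (fun X => cov N E X) = cov N E (T.biUnion id) := by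
    intro T
    ext e
    rw [Finset.mem_biUnion, mem_cov]
    constructor
    · rintro ⟨X, hX, he⟩
      rw [mem_cov] at he
      obtain ⟨h4, i, h5, h6⟩ := he
      exact ⟨h4, i, h5, Finset.mem_biUnion.2 ⟨X, hX, h6⟩⟩
    · rintro ⟨h4, i, h5, h6⟩
      obtain ⟨X, hX, h7⟩ := Finset.mem_biUnion.1 h6
      exact ⟨X, hX, mem_cov.2 ⟨h4, i, h5, h7⟩⟩
  have u3 : ∀ T : Finset (Finset ι),
      T.biUnion (fun X => nbr N K E X) = nbr N K E (T.biUnion id) := by
    intro T
    ext j
    rw [Finset.mem_biUnion, mem_nbr_adj]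
    constructor
    · rintro ⟨X, hX, he⟩
      rw [mem_nbr_adj] at he
      obtain ⟨i, h5, h6⟩ := he
      exact ⟨i, Finset.mem_biUnion.2 ⟨X, hX, h5⟩, h6⟩
    · rintro ⟨i, h5, h6⟩
      obtain ⟨X, hX, h7⟩ := Finset.mem_biUnion.1 h5
      exact ⟨X, hX, mem_nbr_adj.2 ⟨i, h7, h6⟩⟩
  -- the dual side
  set Y := 𝒳.biUnion (pol (Adj N K E)) with hY
  have h1 := incl_excl E 𝒳 (fun X => cov N E X) (fun X _ => Finset.filter_subset _ _)
    (E \ cov K E Y) (by
      intro e
      rw [Finset.mem_sdiff]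
      constructor
      · rintro ⟨he, h4⟩
        refine ⟨he, fun X hX => ?_⟩
        by_contra h5
        have h9 : e ∈ cov K E (pol (Adj N K E) X) := by
          rw [← (h.closed_eq (hcl X hX)).1, Finset.mem_sdiff]
          exact ⟨he, h5⟩
        rw [mem_cov] at h9
        obtain ⟨_, j, h6, h7⟩ := h9
        exact h4 (mem_cov.2 ⟨he, j, h6, Finset.mem_biUnion.2 ⟨X, hX, h7⟩⟩)
      · rintro ⟨he, h4⟩
        refine ⟨he, fun h5 => ?_⟩
        rw [mem_cov] at h5
        obtain ⟨_, j, h6, h7⟩ := h5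
        obtain ⟨X, hX, h8⟩ := Finset.mem_biUnion.1 h7
        have h9 : e ∈ cov K E (pol (Adj N K E) X) := mem_cov.2 ⟨he, j, h6, h8⟩
        rw [← (h.closed_eq (hcl X hX)).1, Finset.mem_sdiff] at h9
        exact h9.2 (h4 X hX))
  have h2 := incl_excl (Finset.univ : Finset ι) 𝒳 (fun X => X) (fun X _ => Finset.subset_univ _)
    (nbr K N E Y)ᶜ (by
      intro i
      rw [Finset.mem_compl, mem_nbr_adj]
      constructor
      · intro h4
        refine ⟨Finset.mem_univ _, fun X hX => ?_⟩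
        rw [Sys.mem_closed_iff (hcl X hX), mem_nbr_adj]
        rintro ⟨j, hj, h5⟩
        exact h4 ⟨j, Finset.mem_biUnion.2 ⟨X, hX, hj⟩, h5⟩
      · rintro ⟨_, h4⟩ ⟨j, hj, h5⟩
        obtain ⟨X, hX, h8⟩ := Finset.mem_biUnion.1 hj
        have h6 := (Sys.mem_closed_iff (hcl X hX)).1 (h4 X hX)
        exact h6 (mem_nbr_adj.2 ⟨j, h8, h5⟩))
  have h3 := incl_excl (Finset.univ : Finset κ) 𝒳 (fun X => nbr N K E X)
    (fun X _ => Finset.subset_univ _) Yᶜ (by
      intro j
      rw [Finset.mem_compl, hY, Finset.mem_biUnion]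
      constructor
      · intro h4
        refine ⟨Finset.mem_univ _, fun X hX => ?_⟩
        by_contra h5
        exact h4 ⟨X, hX, mem_pol_iff_notMem_nbr.2 h5⟩
      · rintro ⟨_, h4⟩ ⟨X, hX, hj⟩
        exact (mem_pol_iff_notMem_nbr.1 hj) (h4 X hX))
  -- the sum
  have hsum : ∑ T ∈ 𝒳.powerset, (-1) ^ T.card * dl N K E (T.biUnion id) =
      (((nbr K N E Y)ᶜ).card : ℤ) + ((Yᶜ).card : ℤ) - ((E \ cov K E Y).card : ℤ) := by
    rw [h1, h2, h3, ← Finset.sum_add_distrib, ← Finset.sum_sub_distrib]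
    apply Finset.sum_congr rfl
    intro T _
    rw [u1, u3]
    have u2 : T.biUnion (fun X => X) = T.biUnion id := rfl
    rw [u2]
    unfold dl
    rw [Finset.card_univ, Finset.card_univ]
    have hc' : (E.card : ℤ) = (Fintype.card ι : ℤ) + (Fintype.card κ : ℤ) := by
      exact_mod_cast hc.symm
    rw [hc']
    ring
  rw [hsum, Finset.card_compl, Finset.card_compl]
  have c1 : (E \ cov K E Y).card + (cov K E Y).card = E.card :=
    Finset.card_sdiff_add_card_eq_card (Finset.filter_subset _ _)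
  have c2 := Finset.card_le_univ (nbr K N E Y)
  have c3 := Finset.card_le_univ Y
  unfold dl
  omega

end

end Pool.Agent.H765
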