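import Pool.Agent.helper765_bt.Tight

/-!
If the unions of two closed sets are tight, then the unions of all families of closed sets are tight.
-/

open Finset

set_option linter.unusedSectionVars false

namespace Pool.Agent.H765

universe u v

/-- the measure used for the induction -/
def ms {α : Type v} {ι κ : Type u} [DecidableEq ι] [DecidableEq κ] [Fintype ι]
    (N : α → Finset ι) (K : α → Finset κ) (E : Finset α) (𝒳 : Finset (Finset ι)) : ℕ :=
  (𝒳.biUnion (nbr N K E)).card + (𝒳.biUnion (fun X => Xᶜ)).card + 𝒳.card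

section

variable {α : Type v} [DecidableEq α] {ι κ : Type u} [DecidableEq ι] [DecidableEq κ]
  [Fintype ι] [Fintype κ] {M : Matroid α} {N : α → Finset ι} {K : α → Finset κ} {E : Finset α}

theorem ms_lt_of_subset {𝒳 𝒴 : Finset (Finset ι)} (h : 𝒴 ⊂ 𝒳) :
    ms N K E 𝒴 < ms N K E 𝒳 := by
  have h1 := Finset.card_lt_card h
  have h2 := Finset.card_le_card
    (Finset.biUnion_subset_biUnion_of_subset_left (nbr N K E) h.subset)
  have h3 := Finset.card_le_card
    (Finset.biUnion_subset_biUnion_of_subset_left (fun X : Finset ι => Xᶜ) h.subset)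
  unfold ms
  omega

theorem Sys.relation_proper (h : Sys M N K E) {𝒳 : Finset (Finset ι)}
    (hcl : ∀ X ∈ 𝒳, Cl (Adj N K E) X) (hp : ∀ T ⊂ 𝒳, dl N K E (T.biUnion id) = 0) :
    dl K N E (𝒳.biUnion (pol (Adj N K E))) = (-1) ^ 𝒳.card * dl N K E (𝒳.biUnion id) := by
  rw [h.relation hcl]
  apply Finset.sum_eq_single_of_mem 𝒳 (Finset.mem_powerset_self 𝒳)
  intro T hT hne
  rw [hp T (Finset.ssubset_iff_subset_ne.2 ⟨Finset.mem_powerset.1 hT, hne⟩), mul_zero]

/-- the reduction -/
theorem Sys.reduce (h : Sys M N K E) {𝒳 : Finset (Finset ι)} {X3 X4 C : Finset ι}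
    (h3 : X3 ∈ 𝒳) (h4 : X4 ∈ 𝒳) (hC : Cl (Adj N K E) C) (hCX : X3 ∪ X4 ⊆ C)
    (hCn : nbr N K E C = nbr N K E (X3 ∪ X4))
    (H1 : dl N K E ((insert C ((𝒳.erase X3).erase X4)).biUnion id) = 0)
    (H2 : dl N K E ((𝒳.image (fun X => X ∩ C)).biUnion id) = 0)
    (H3 : ∀ X ∈ 𝒳, dl N K E (X ∪ (X3 ∪ X4)) = 0) :
    dl N K E (𝒳.biUnion id) = 0 := by
  have e1 : (insert C ((𝒳.erase X3).erase X4)).biUnion id = 𝒳.biUnion id ∪ C := by
    ext i
    simp only [Finset.mem_biUnion, Finset.mem_union, Finset.mem_insert, Finset.mem_erase, id]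
    constructor
    · rintro ⟨X, rfl | ⟨_, _, hX⟩, hi⟩
      · exact Or.inr hi
      · exact Or.inl ⟨X, hX, hi⟩
    · rintro (⟨X, hX, hi⟩ | hi)
      · by_cases hX3 : X = X3
        · exact ⟨C, Or.inl rfl, hCX (Finset.mem_union_left _ (hX3 ▸ hi))⟩
        · by_cases hX4 : X = X4
          · exact ⟨C, Or.inl rfl, hCX (Finset.mem_union_right _ (hX4 ▸ hi))⟩
          · exact ⟨X, Or.inr ⟨hX4, hX3, hX⟩, hi⟩
      · exact ⟨C, Or.inl rfl, hi⟩
  have e2 : (𝒳.image (fun X => X ∩ C)).biUnion id = 𝒳.biUnion id ∩ C := by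
    ext i
    simp only [Finset.mem_biUnion, Finset.mem_inter, Finset.mem_image, id]
    constructor
    · rintro ⟨_, ⟨X, hX, rfl⟩, hi⟩
      rw [Finset.mem_inter] at hi
      exact ⟨⟨X, hX, hi.1⟩, hi.2⟩
    · rintro ⟨⟨X, hX, hi⟩, hiC⟩
      exact ⟨X ∩ C, ⟨X, hX, rfl⟩, Finset.mem_inter.2 ⟨hi, hiC⟩⟩
  rw [e1] at H1
  rw [e2] at H2
  have hsub : ∀ X ∈ 𝒳, X ⊆ 𝒳.biUnion id := by
    intro X hX i hi
    exact Finset.mem_biUnion.2 ⟨X, hX, hi⟩
  have hn : ∀ Z : Finset ι, X3 ∪ X4 ⊆ Z → nbr N K E C ⊆ nbr N K E (Z ∩ C) := by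
    intro Z hZ
    rw [hCn]
    exact nbr_mono N K E (Finset.subset_inter hZ hCX)
  have id1 := dl_identity (hn (𝒳.biUnion id) (Finset.union_subset (hsub _ h3) (hsub _ h4)))
  rw [H1, H2, h.dl_closed hC] at id1
  have hbd : bd N E (𝒳.biUnion id) C = ∅ := by
    rw [Finset.eq_empty_iff_forall_notMem]
    intro e he
    unfold bd at he
    rw [Finset.mem_sdiff, Finset.mem_inter] at he
    obtain ⟨⟨he1, he2⟩, he3⟩ := he
    rw [mem_cov] at he1
    obtain ⟨heE, i, hi, hiX⟩ := he1
    obtain ⟨X, hX, hiX'⟩ := Finset.mem_biUnion.1 hiX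
    have id2 := dl_identity (hn (X ∪ (X3 ∪ X4)) Finset.subset_union_right)
    rw [H3 X hX, h.dl_closed hC] at id2
    have n1 := dl_nonneg h.dh1 (X ∪ (X3 ∪ X4) ∪ C)
    have n2 := dl_nonneg h.dh1 ((X ∪ (X3 ∪ X4)) ∩ C)
    have hz : (bd N E (X ∪ (X3 ∪ X4)) C).card = 0 := by omega
    rw [Finset.card_eq_zero] at hz
    have hmem : e ∈ bd N E (X ∪ (X3 ∪ X4)) C := by
      unfold bd
      rw [Finset.mem_sdiff, Finset.mem_inter]
      refine ⟨⟨mem_cov.2 ⟨heE, i, hi, Finset.mem_union_left _ hiX'⟩, he2⟩, fun h' => he3 ?_⟩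
      refine cov_mono N E ?_ h'
      apply Finset.inter_subset_inter_right
      exact Finset.union_subset (hsub _ hX) (Finset.union_subset (hsub _ h3) (hsub _ h4))
    rw [hz] at hmem
    exact Finset.notMem_empty _ hmem
  rw [hbd, Finset.card_empty] at id1
  push_cast at id1
  linarith

/-- a sublattice of the lattice of closed sets in which every two members are tight -/
structure Good (N : α → Finset ι) (K : α → Finset κ) (E : Finset α)
    (L : Finset (Finset ι)) : Prop where
  closed : ∀ X ∈ L, Cl (Adj N K E) X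
  pair : ∀ X ∈ L, ∀ Y ∈ L, dl N K E (X ∪ Y) = 0
  inter : ∀ X ∈ L, ∀ Y ∈ L, X ∩ Y ∈ L
  join : ∀ X ∈ L, ∀ Y ∈ L, ∀ C, Cl (Adj N K E) C → X ∪ Y ⊆ C →
    pol (Adj N K E) C = pol (Adj N K E) (X ∪ Y) → C ∈ L

theorem closed_inter {R : ι → κ → Prop} {X Y : Finset ι} (hX : Cl R X) (hY : Cl R Y) :
    Cl R (X ∩ Y) := by
  intro i hi
  rw [Finset.mem_inter]
  constructor
  · apply hX
    intro k hk
    obtain ⟨i', hi', hk'⟩ := hi k hk
    exact ⟨i', (Finset.mem_inter.1 hi').1, hk'⟩
  · apply hY
    intro k hk
    obtain ⟨i', hi', hk'⟩ := hi k hk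
    exact ⟨i', (Finset.mem_inter.1 hi').2, hk'⟩

/-- one step of the induction -/
theorem Sys.step (h : Sys M N K E) {n : ℕ} {L : Finset (Finset ι)} (hL : Good N K E L)
    (IH : ∀ 𝒳 : Finset (Finset ι), 𝒳 ⊆ L → ms N K E 𝒳 ≤ n → dl N K E (𝒳.biUnion id) = 0)
    {𝒳 : Finset (Finset ι)} (hcl : 𝒳 ⊆ L) (hm : ms N K E 𝒳 ≤ n + 1)
    {X3 X4 : Finset ι} (h3 : X3 ∈ 𝒳) (h4 : X4 ∈ 𝒳) (h34 : X3 ≠ X4) (hcard : 4 ≤ 𝒳.card)
    {j : κ} (hj : j ∈ 𝒳.biUnion (nbr N K E)) (hj' : j ∉ nbr N K E (X3 ∪ X4)) :
    dl N K E (𝒳.biUnion id) = 0 := by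
  obtain ⟨C, hC, hCX, hCp⟩ := exists_closure (Adj N K E) (X3 ∪ X4)
  have hCL : C ∈ L := hL.join X3 (hcl h3) X4 (hcl h4) C hC hCX hCp
  have hCn := nbr_of_pol hCp
  have hCn' : nbr N K E C = nbr N K E X3 ∪ nbr N K E X4 := by rw [hCn, nbr_union]
  have hCc : Cᶜ ⊆ X3ᶜ := by
    rw [Finset.compl_subset_compl]
    exact Finset.subset_union_left.trans hCX
  apply h.reduce h3 h4 hC hCX hCn
  · -- the smaller family
    apply IH
    · intro X hX
      rw [Finset.mem_insert, Finset.mem_erase, Finset.mem_erase] at hX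
      rcases hX with rfl | hX
      · exact hCL
      · exact hcl hX.2.2
    · have c1 : (insert C ((𝒳.erase X3).erase X4)).card + 1 ≤ 𝒳.card := by
        have d1 := Finset.card_insert_le C ((𝒳.erase X3).erase X4)
        have d2 := Finset.card_erase_of_mem h3
        have d3 := Finset.card_erase_of_mem (Finset.mem_erase.2 ⟨h34.symm, h4⟩)
        omega
      have c2 : ((insert C ((𝒳.erase X3).erase X4)).biUnion (nbr N K E)).card ≤
          (𝒳.biUnion (nbr N K E)).card := by
        apply Finset.card_le_card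
        intro k hk
        rw [Finset.mem_biUnion] at hk ⊢
        obtain ⟨X, hX, hk⟩ := hk
        rw [Finset.mem_insert, Finset.mem_erase, Finset.mem_erase] at hX
        rcases hX with rfl | hX
        · rw [hCn', Finset.mem_union] at hk
          rcases hk with hk | hk
          · exact ⟨X3, h3, hk⟩
          · exact ⟨X4, h4, hk⟩
        · exact ⟨X, hX.2.2, hk⟩
      have c3 : ((insert C ((𝒳.erase X3).erase X4)).biUnion (fun X => Xᶜ)).card ≤
          (𝒳.biUnion (fun X => Xᶜ)).card := by
        apply Finset.card_le_card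
        intro k hk
        rw [Finset.mem_biUnion] at hk ⊢
        obtain ⟨X, hX, hk⟩ := hk
        rw [Finset.mem_insert, Finset.mem_erase, Finset.mem_erase] at hX
        rcases hX with rfl | hX
        · exact ⟨X3, h3, hCc hk⟩
        · exact ⟨X, hX.2.2, hk⟩
      unfold ms at hm ⊢
      omega
  · apply IH
    · intro X hX
      rw [Finset.mem_image] at hX
      obtain ⟨X', hX', rfl⟩ := hX
      exact hL.inter X' (hcl hX') C hCL
    · have c1 : (𝒳.image (fun X => X ∩ C)).card ≤ 𝒳.card := Finset.card_image_le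
      have c2 : ((𝒳.image (fun X => X ∩ C)).biUnion (nbr N K E)).card <
          (𝒳.biUnion (nbr N K E)).card := by
        apply Finset.card_lt_card
        rw [Finset.ssubset_iff_of_subset]
        · refine ⟨j, hj, ?_⟩
          intro hj2
          rw [Finset.mem_biUnion] at hj2
          obtain ⟨X, hX, hk⟩ := hj2
          rw [Finset.mem_image] at hX
          obtain ⟨X', hX', rfl⟩ := hX
          apply hj'
          rw [← hCn]
          exact nbr_mono N K E Finset.inter_subset_right hk
        · intro k hk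
          rw [Finset.mem_biUnion] at hk ⊢
          obtain ⟨X, hX, hk⟩ := hk
          rw [Finset.mem_image] at hX
          obtain ⟨X', hX', rfl⟩ := hX
          exact ⟨X', hX', nbr_mono N K E Finset.inter_subset_left hk⟩
      have c3 : ((𝒳.image (fun X => X ∩ C)).biUnion (fun X => Xᶜ)).card ≤
          (𝒳.biUnion (fun X => Xᶜ)).card := by
        apply Finset.card_le_card
        intro k hk
        rw [Finset.mem_biUnion] at hk ⊢
        obtain ⟨X, hX, hk⟩ := hk
        rw [Finset.mem_image] at hX
        obtain ⟨X', hX', rfl⟩ := hX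
        rw [Finset.mem_compl, Finset.mem_inter, not_and_or] at hk
        rcases hk with hk | hk
        · exact ⟨X', hX', Finset.mem_compl.2 hk⟩
        · exact ⟨X3, h3, hCc (Finset.mem_compl.2 hk)⟩
      unfold ms at hm ⊢
      omega
  · intro X hX
    have e1 : ({X, X3, X4} : Finset (Finset ι)).biUnion id = X ∪ (X3 ∪ X4) := by
      ext i
      simp only [Finset.mem_biUnion, Finset.mem_insert, Finset.mem_singleton, Finset.mem_union, id]
      constructor
      · rintro ⟨Z, rfl | rfl | rfl, hi⟩
        · exact Or.inl hi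
        · exact Or.inr (Or.inl hi)
        · exact Or.inr (Or.inr hi)
      · rintro (hi | hi | hi)
        · exact ⟨X, Or.inl rfl, hi⟩
        · exact ⟨X3, Or.inr (Or.inl rfl), hi⟩
        · exact ⟨X4, Or.inr (Or.inr rfl), hi⟩
    rw [← e1]
    have hsub : ({X, X3, X4} : Finset (Finset ι)) ⊆ 𝒳 := by
      intro Z hZ
      simp only [Finset.mem_insert, Finset.mem_singleton] at hZ
      rcases hZ with rfl | rfl | rfl
      · exact hX
      · exact h3
      · exact h4
    apply IH
    · exact hsub.trans hcl
    · have hss : ({X, X3, X4} : Finset (Finset ι)) ⊂ 𝒳 := by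
        rw [Finset.ssubset_iff_subset_ne]
        refine ⟨hsub, ?_⟩
        intro heq
        have := Finset.card_le_three (a := X) (b := X3) (c := X4)
        rw [heq] at this
        omega
      have := ms_lt_of_subset (N := N) (K := K) (E := E) hss
      omega

end

/-- the deficiencies of pairs on both sides agree -/
theorem Sys.pair_relation {α : Type v} [DecidableEq α] {ι κ : Type u} [DecidableEq ι]
    [DecidableEq κ] [Fintype ι] [Fintype κ] {M : Matroid α} {N : α → Finset ι}
    {K : α → Finset κ} {E : Finset α} (h : Sys M N K E) {X X' : Finset ι}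
    (hX : Cl (Adj N K E) X) (hX' : Cl (Adj N K E) X') :
    dl K N E (pol (Adj N K E) X ∪ pol (Adj N K E) X') = dl N K E (X ∪ X') := by
  by_cases hne : X = X'
  · subst hne
    rw [Finset.union_idempotent, Finset.union_idempotent, h.dl_closed hX]
    apply h.dual.dl_closed
    rw [adj_swap]
    exact Cl.pol_cl X
  have hr := h.relation_proper (𝒳 := {X, X'}) (by
    intro Z hZ
    simp only [Finset.mem_insert, Finset.mem_singleton] at hZ
    rcases hZ with rfl | rfl
    · exact hX
    · exact hX') (by
    intro T hT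
    have hT2 : T = ∅ ∨ T = {X} ∨ T = {X'} := by
      by_cases t1 : X ∈ T
      · by_cases t2 : X' ∈ T
        · exfalso
          apply hT.2
          intro Z hZ
          simp only [Finset.mem_insert, Finset.mem_singleton] at hZ
          rcases hZ with rfl | rfl
          · exact t1
          · exact t2
        · right; left
          ext Z
          rw [Finset.mem_singleton]
          constructor
          · intro hZ
            have := hT.1 hZ
            simp only [Finset.mem_insert, Finset.mem_singleton] at this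
            rcases this with h' | h'
            · exact h'
            · exact absurd (h' ▸ hZ) t2
          · rintro rfl; exact t1
      · by_cases t2 : X' ∈ T
        · right; right
          ext Z
          rw [Finset.mem_singleton]
          constructor
          · intro hZ
            have := hT.1 hZ
            simp only [Finset.mem_insert, Finset.mem_singleton] at this
            rcases this with h' | h'
            · exact absurd (h' ▸ hZ) t1
            · exact h'
          · rintro rfl; exact t2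
        · left
          rw [Finset.eq_empty_iff_forall_notMem]
          intro Z hZ
          have := hT.1 hZ
          simp only [Finset.mem_insert, Finset.mem_singleton] at this
          rcases this with h' | h'
          · exact t1 (h' ▸ hZ)
          · exact t2 (h' ▸ hZ)
    rcases hT2 with rfl | rfl | rfl
    · rw [Finset.biUnion_empty]
      unfold dl
      simp [cov, nbr]
    · rw [Finset.singleton_biUnion]
      exact h.dl_closed hX
    · rw [Finset.singleton_biUnion]
      exact h.dl_closed hX')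
  rw [Finset.biUnion_insert, Finset.singleton_biUnion, Finset.biUnion_insert,
    Finset.singleton_biUnion, Finset.card_pair hne] at hr
  rw [hr]
  simp

/-- the dual sublattice -/
theorem Good.dual {α : Type v} [DecidableEq α] {ι κ : Type u} [DecidableEq ι]
    [DecidableEq κ] [Fintype ι] [Fintype κ] {M : Matroid α} {N : α → Finset ι}
    {K : α → Finset κ} {E : Finset α} (h : Sys M N K E) {L : Finset (Finset ι)}
    (hL : Good N K E L) : Good K N E (L.image (pol (Adj N K E))) where
  closed := by
    intro Y hY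
    obtain ⟨X, _, rfl⟩ := Finset.mem_image.1 hY
    rw [adj_swap]
    exact Cl.pol_cl X
  pair := by
    intro Y hY Y' hY'
    obtain ⟨X, hX, rfl⟩ := Finset.mem_image.1 hY
    obtain ⟨X', hX', rfl⟩ := Finset.mem_image.1 hY'
    rw [h.pair_relation (hL.closed X hX) (hL.closed X' hX')]
    exact hL.pair X hX X' hX'
  inter := by
    intro Y hY Y' hY'
    obtain ⟨X, hX, rfl⟩ := Finset.mem_image.1 hY
    obtain ⟨X', hX', rfl⟩ := Finset.mem_image.1 hY'
    obtain ⟨C, hC, hCX, hCp⟩ := exists_closure (Adj N K E) (X ∪ X')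
    refine Finset.mem_image.2 ⟨C, hL.join X hX X' hX' C hC hCX hCp, ?_⟩
    rw [hCp]
    ext j
    rw [Finset.mem_inter, mem_pol, mem_pol, mem_pol]
    constructor
    · intro h'
      exact ⟨fun i hi => h' i (Finset.mem_union_left _ hi),
        fun i hi => h' i (Finset.mem_union_right _ hi)⟩
    · rintro ⟨h1, h2⟩ i hi
      rw [Finset.mem_union] at hi
      rcases hi with hi | hi
      · exact h1 i hi
      · exact h2 i hi
  join := by
    intro Y hY Y' hY' C hC hCY hCp
    obtain ⟨X, hX, rfl⟩ := Finset.mem_image.1 hY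
    obtain ⟨X', hX', rfl⟩ := Finset.mem_image.1 hY'
    refine Finset.mem_image.2 ⟨X ∩ X', hL.inter X hX X' hX', ?_⟩
    rw [adj_swap] at hC hCp
    have e1 : pol (fun j i => Adj N K E i j) C = X ∩ X' := by
      rw [hCp]
      ext i
      rw [mem_pol, Finset.mem_inter, (hL.closed X hX).mem_iff, (hL.closed X' hX').mem_iff]
      constructor
      · intro h'
        exact ⟨fun j hj => h' j (Finset.mem_union_left _ hj),
          fun j hj => h' j (Finset.mem_union_right _ hj)⟩
      · rintro ⟨h1, h2⟩ j hj
        rw [Finset.mem_union] at hj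
        rcases hj with hj | hj
        · exact h1 j hj
        · exact h2 j hj
    rw [← e1]
    exact hC.pol_pol

/-- in a sublattice of closed sets with tight pairs all families are tight -/
theorem tight_all {α : Type v} [DecidableEq α] {E : Finset α} : ∀ (n : ℕ) {ι κ : Type u}
    [DecidableEq ι] [DecidableEq κ] [Fintype ι] [Fintype κ] {M : Matroid α} {N : α → Finset ι}
    {K : α → Finset κ} (_ : Sys M N K E) {L : Finset (Finset ι)} (_ : Good N K E L)
    (𝒳 : Finset (Finset ι)), 𝒳 ⊆ L → ms N K E 𝒳 ≤ n → dl N K E (𝒳.biUnion id) = 0 := by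
  intro n
  induction n with
  | zero =>
    intro ι κ _ _ _ _ M N K h L hL 𝒳 hcl' hm
    have h0 : 𝒳.card = 0 := by unfold ms at hm; omega
    rw [Finset.card_eq_zero] at h0
    rw [h0, Finset.biUnion_empty]
    unfold dl
    simp [cov, nbr]
  | succ n IHn =>
    intro ι κ _ _ _ _ M N K h L hL 𝒳 hcl' hm
    have IH := IHn h hL
    have hcl : ∀ X ∈ 𝒳, Cl (Adj N K E) X := fun X hX => hL.closed X (hcl' hX)
    have hp : ∀ T ⊂ 𝒳, dl N K E (T.biUnion id) = 0 := by
      intro T hT
      apply IH T (hT.subset.trans hcl')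
      have := ms_lt_of_subset (N := N) (K := K) (E := E) hT
      omega
    have hLd := hL.dual h
    have IHd := IHn h.dual hLd
    -- small families
    by_cases hc0 : 𝒳.card = 0
    · rw [Finset.card_eq_zero] at hc0
      rw [hc0, Finset.biUnion_empty]
      unfold dl
      simp [cov, nbr]
    by_cases hc1 : 𝒳.card = 1
    · obtain ⟨X, rfl⟩ := Finset.card_eq_one.1 hc1
      rw [Finset.singleton_biUnion]
      exact h.dl_closed (hcl X (Finset.mem_singleton_self X))
    by_cases hc2 : 𝒳.card = 2
    · obtain ⟨X, X', _, rfl⟩ := Finset.card_eq_two.1 hc2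
      rw [Finset.biUnion_insert, Finset.singleton_biUnion]
      exact hL.pair X (hcl' (by simp)) X' (hcl' (by simp))
    have hrel := h.relation_proper hcl hp
    by_cases hc3 : 𝒳.card = 3
    · rw [hc3] at hrel
      have n1 := dl_nonneg h.dh1 (𝒳.biUnion id)
      have n2 := dl_nonneg h.dh2 (𝒳.biUnion (pol (Adj N K E)))
      rw [hrel] at n2
      have : ((-1 : ℤ)) ^ 3 = -1 := by norm_num
      rw [this] at n2
      linarith
    have hc4 : 4 ≤ 𝒳.card := by omega
    -- two members
    obtain ⟨X1, hX1⟩ : 𝒳.Nonempty := Finset.card_pos.1 (by omega)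
    obtain ⟨X2, hX2⟩ : (𝒳.erase X1).Nonempty := by
      apply Finset.card_pos.1
      rw [Finset.card_erase_of_mem hX1]; omega
    have hX21 : X2 ≠ X1 := (Finset.mem_erase.1 hX2).1
    have hX2' : X2 ∈ 𝒳 := (Finset.mem_erase.1 hX2).2
    set 𝒲 := (𝒳.erase X1).erase X2 with h𝒲
    have h𝒲c : 𝒲.card = 𝒳.card - 2 := by
      rw [h𝒲, Finset.card_erase_of_mem hX2, Finset.card_erase_of_mem hX1]; omega
    obtain ⟨X3, hX3⟩ : 𝒲.Nonempty := Finset.card_pos.1 (by omega)
    obtain ⟨X4, hX4⟩ : (𝒲.erase X3).Nonempty := by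
      apply Finset.card_pos.1
      rw [Finset.card_erase_of_mem hX3]; omega
    have hX43 : X4 ≠ X3 := (Finset.mem_erase.1 hX4).1
    have hX4' : X4 ∈ 𝒲 := (Finset.mem_erase.1 hX4).2
    have h𝒲X : ∀ Z ∈ 𝒲, Z ∈ 𝒳 := fun Z hZ =>
      Finset.mem_of_mem_erase (Finset.mem_of_mem_erase hZ)
    have hZU : ∀ Z ∈ 𝒲, Z ⊆ 𝒲.biUnion id := fun Z hZ i hi => Finset.mem_biUnion.2 ⟨Z, hZ, hi⟩
    have hdecomp : 𝒳.biUnion id = 𝒲.biUnion id ∪ X1 ∪ X2 := by
      ext i
      simp only [Finset.mem_biUnion, Finset.mem_union, id, h𝒲, Finset.mem_erase]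
      constructor
      · rintro ⟨Z, hZ, hi⟩
        by_cases z1 : Z = X1
        · exact Or.inl (Or.inr (z1 ▸ hi))
        · by_cases z2 : Z = X2
          · exact Or.inr (z2 ▸ hi)
          · exact Or.inl (Or.inl ⟨Z, ⟨z2, z1, hZ⟩, hi⟩)
      · rintro ((⟨Z, ⟨_, _, hZ⟩, hi⟩ | hi) | hi)
        · exact ⟨Z, hZ, hi⟩
        · exact ⟨X1, hX1, hi⟩
        · exact ⟨X2, hX2', hi⟩
    by_cases hA : X1 ∩ X2 ⊆ 𝒲.biUnion id
    · by_cases hB : nbr N K E X1 ∩ nbr N K E X2 ⊆ nbr N K E (𝒲.biUnion id)
      · have hs := dl_submod hA hB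
        rw [← hdecomp] at hs
        have t1 : dl N K E (𝒲.biUnion id ∪ X1) = 0 := by
          have := hp (insert X1 𝒲) (by
            rw [Finset.ssubset_iff_of_subset]
            · refine ⟨X2, hX2', ?_⟩
              rw [Finset.mem_insert]
              rintro (h' | h')
              · exact hX21 h'
              · rw [h𝒲] at h'
                exact (Finset.mem_erase.1 h').1 rfl
            · intro Z hZ
              rw [Finset.mem_insert] at hZ
              rcases hZ with rfl | hZ
              · exact hX1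
              · exact h𝒲X Z hZ)
          rw [Finset.biUnion_insert] at this
          rw [Finset.union_comm]
          exact this
        have t2 : dl N K E (𝒲.biUnion id ∪ X2) = 0 := by
          have := hp (insert X2 𝒲) (by
            rw [Finset.ssubset_iff_of_subset]
            · refine ⟨X1, hX1, ?_⟩
              rw [Finset.mem_insert]
              rintro (h' | h')
              · exact hX21 h'.symm
              · rw [h𝒲] at h'
                exact (Finset.mem_erase.1 (Finset.mem_erase.1 h').2).1 rfl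
            · intro Z hZ
              rw [Finset.mem_insert] at hZ
              rcases hZ with rfl | hZ
              · exact hX2'
              · exact h𝒲X Z hZ)
          rw [Finset.biUnion_insert] at this
          rw [Finset.union_comm]
          exact this
        have n1 := dl_nonneg h.dh1 (𝒳.biUnion id)
        have n2 := dl_nonneg h.dh1 (𝒲.biUnion id)
        rw [t1, t2] at hs
        linarith
      · rw [Finset.not_subset] at hB
        obtain ⟨j, hj, hjU⟩ := hB
        rw [Finset.mem_inter] at hj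
        apply h.step hL IH hcl' hm (h𝒲X _ hX3) (h𝒲X _ hX4') hX43.symm hc4 (j := j)
        · exact Finset.mem_biUnion.2 ⟨X1, hX1, hj.1⟩
        · intro h'
          apply hjU
          exact nbr_mono N K E (Finset.union_subset (hZU _ hX3) (hZU _ hX4')) h'
    · rw [Finset.not_subset] at hA
      obtain ⟨i, hi, hiU⟩ := hA
      rw [Finset.mem_inter] at hi
      -- the dual system
      have hzero : dl K N E ((𝒳.image (pol (Adj N K E))).biUnion id) = 0 := by
        have hinj : Set.InjOn (pol (Adj N K E)) (𝒳 : Set (Finset ι)) := by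
          intro Z hZ Z' hZ' heq
          rw [← (hcl Z hZ).pol_pol, ← (hcl Z' hZ').pol_pol, heq]
        have hcn : ∀ Z ∈ 𝒳, nbr K N E (pol (Adj N K E) Z) = Zᶜ := by
          intro Z hZ
          ext k
          rw [Finset.mem_compl, Sys.mem_closed_iff (hcl Z hZ), not_not]
        apply h.dual.step hLd IHd (X3 := pol (Adj N K E) X1) (X4 := pol (Adj N K E) X2)
          (j := i)
        · exact Finset.image_subset_image hcl'
        · have c1 : (𝒳.image (pol (Adj N K E))).card ≤ 𝒳.card := Finset.card_image_le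
          have c2 : (𝒳.image (pol (Adj N K E))).biUnion (nbr K N E) =
              𝒳.biUnion (fun X => Xᶜ) := by
            rw [Finset.image_biUnion]
            apply Finset.biUnion_congr rfl
            intro Z hZ
            exact hcn Z hZ
          have c3 : (𝒳.image (pol (Adj N K E))).biUnion (fun Y => Yᶜ) =
              𝒳.biUnion (nbr N K E) := by
            rw [Finset.image_biUnion]
            apply Finset.biUnion_congr rfl
            intro Z hZ
            ext k
            rw [Finset.mem_compl, mem_pol_iff_notMem_nbr, not_not]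
          unfold ms at hm ⊢
          rw [c2, c3]
          omega
        · exact Finset.mem_image_of_mem _ hX1
        · exact Finset.mem_image_of_mem _ hX2'
        · intro heq
          exact hX21 (hinj hX1 hX2' heq).symm
        · rw [Finset.card_image_of_injOn hinj]; exact hc4
        · rw [Finset.mem_biUnion]
          refine ⟨pol (Adj N K E) X3, Finset.mem_image_of_mem _ (h𝒲X _ hX3), ?_⟩
          rw [hcn _ (h𝒲X _ hX3), Finset.mem_compl]
          intro h'
          exact hiU (hZU _ hX3 h')
        · rw [nbr_union, hcn _ hX1, hcn _ hX2', Finset.mem_union, Finset.mem_compl,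
            Finset.mem_compl]
          rintro (h' | h')
          · exact h' hi.1
          · exact h' hi.2
      have e4 : (𝒳.image (pol (Adj N K E))).biUnion id = 𝒳.biUnion (pol (Adj N K E)) := by
        rw [Finset.image_biUnion]
        rfl
      rw [e4, hrel] at hzero
      rcases mul_eq_zero.1 hzero with h' | h'
      · exact absurd h' (pow_ne_zero _ (by norm_num))
      · exact h'

end Pool.Agent.H765
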